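import Pool.Agent.W_MP_6f8a18_al.Defs

/-!
Finitely generated abelian groups: almost no torsion, and generation of subgroups; finiteness of
residue fields.
-/

namespace Pool.Agent.W_MP_6f8a18_al

theorem exists_torsion_bound (Q : Type*) [AddCommGroup Q] [Module.Finite ℤ Q] :
    ∃ e : ℤ, e ≠ 0 ∧ ∀ (q : Q) (n : ℤ), n ≠ 0 → n • q = 0 → e • q = 0 := by
  classical
  have hT : (Submodule.torsion ℤ Q).FG := IsNoetherian.noetherian _
  obtain ⟨s, hs⟩ := hT
  have h1 : ∀ t : Q, t ∈ Submodule.torsion ℤ Q → ∃ n : ℤ, n ≠ 0 ∧ n • t = 0 := by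
    intro t ht
    obtain ⟨a, ha⟩ := (Submodule.mem_torsion_iff t).1 ht
    exact ⟨a, nonZeroDivisors.coe_ne_zero a, ha⟩
  have h2 : ∀ t ∈ s, ∃ n : ℤ, n ≠ 0 ∧ n • t = 0 := by
    intro t ht
    exact h1 t (hs ▸ Submodule.subset_span ht)
  choose! n hn0 hn using h2
  refine ⟨∏ t ∈ s, n t, Finset.prod_ne_zero_iff.2 hn0, ?_⟩
  intro q k hk hkq
  have hq : q ∈ Submodule.torsion ℤ Q :=
    (Submodule.mem_torsion_iff q).2 ⟨⟨k, mem_nonZeroDivisors_of_ne_zero hk⟩, hkq⟩
  rw [← hs] at hq
  refine Submodule.span_induction (p := fun x _ => (∏ t ∈ s, n t) • x = 0) ?_ ?_ ?_ ?_ hq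
  · intro x hx
    obtain ⟨c, hc⟩ := Finset.dvd_prod_of_mem n hx
    rw [hc, mul_comm, mul_smul, hn x hx, smul_zero]
  · simp
  · intro x y _ _ hx hy
    rw [smul_add, hx, hy, add_zero]
  · intro a x _ hx
    rw [smul_comm, hx, smul_zero]

theorem exists_no_torsion (Q : Type*) [CommGroup Q] [Group.FG Q] :
    ∃ S : Finset ℕ, ∀ p : ℕ, p.Prime → p ∉ S → ∀ y : Q, y ^ p = 1 → y = 1 := by
  have hfg : Module.Finite ℤ (Additive Q) := by
    rw [Module.Finite.iff_addGroup_fg]
    exact GroupFG.iff_add_fg.1 ‹_›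
  obtain ⟨e, he, h⟩ := exists_torsion_bound (Additive Q)
  refine ⟨e.natAbs.primeFactors, fun p hp hpS y hy => ?_⟩
  have hpe : ¬ (p : ℤ) ∣ e := by
    intro hd
    apply hpS
    rw [Nat.mem_primeFactors]
    exact ⟨hp, Int.natCast_dvd.1 hd, by simpa using he⟩
  have h1 : (p : ℤ) • (Additive.ofMul y) = 0 := by
    rw [natCast_zsmul]
    exact congrArg Additive.ofMul hy
  have h2 := h (Additive.ofMul y) p (by exact_mod_cast hp.ne_zero) h1
  have hcop : IsCoprime (p : ℤ) e := by
    rw [Int.isCoprime_iff_gcd_eq_one]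
    have := (Nat.Prime.coprime_iff_not_dvd hp).2 (fun hd => hpe (Int.natCast_dvd.2 hd))
    simpa [Int.gcd] using this
  obtain ⟨u, v, huv⟩ := hcop
  have h3 : Additive.ofMul y = 0 := by
    calc Additive.ofMul y = (1 : ℤ) • Additive.ofMul y := (one_smul _ _).symm
      _ = (u * p + v * e) • Additive.ofMul y := by rw [huv]
      _ = 0 := by rw [add_smul, mul_smul, mul_smul, h1, h2, smul_zero, smul_zero, add_zero]
  exact congrArg Additive.toMul h3

/-- Subgroups of an abelian group generated by `r` elements are generated by `r` elements. -/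
theorem sub_gen_add (Q : Type*) [AddCommGroup Q] (r : ℕ) (f : (Fin r → ℤ) →ₗ[ℤ] Q)
    (hf : Function.Surjective f) (H : Submodule ℤ Q) :
    ∃ h : Fin r → Q, Submodule.span ℤ (Set.range h) = H := by
  classical
  set P : Submodule ℤ (Fin r → ℤ) := H.comap f with hP
  obtain ⟨n, ⟨b⟩⟩ := Submodule.nonempty_basis_of_pid (Pi.basisFun ℤ (Fin r)) P
  have hn : n ≤ r := by
    have h1 : LinearIndependent ℤ (fun i => (b i : Fin r → ℤ)) :=
      b.linearIndependent.map' P.subtype (Submodule.ker_subtype _)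
    have h2 := h1.fintype_card_le_finrank
    simpa using h2
  refine ⟨fun i => if hi : i.1 < n then f (b ⟨i.1, hi⟩) else 0, ?_⟩
  apply le_antisymm
  · rw [Submodule.span_le]
    rintro _ ⟨i, rfl⟩
    by_cases hi : i.1 < n
    · simp only [hi, dif_pos]
      exact (b ⟨i.1, hi⟩).2
    · simp only [hi]
      exact H.zero_mem
  · intro x hx
    obtain ⟨y, rfl⟩ := hf x
    have hy : y ∈ P := hx
    have h3 : (⟨y, hy⟩ : P) ∈ Submodule.span ℤ (Set.range b) := by
      rw [b.span_eq]; trivial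
    have h4 : f y ∈ Submodule.map (f.comp P.subtype) (Submodule.span ℤ (Set.range b)) :=
      ⟨⟨y, hy⟩, h3, rfl⟩
    rw [Submodule.map_span] at h4
    refine Submodule.span_mono ?_ h4
    rintro _ ⟨_, ⟨i, rfl⟩, rfl⟩
    refine ⟨⟨i.1, lt_of_lt_of_le i.2 hn⟩, ?_⟩
    simp

theorem exists_sub_gen (Q : Type*) [CommGroup Q] [Group.FG Q] :
    ∃ r : ℕ, ∀ H : Subgroup Q, ∃ h : Fin r → Q, Subgroup.closure (Set.range h) = H := by
  have hfg : Module.Finite ℤ (Additive Q) := by
    rw [Module.Finite.iff_addGroup_fg]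
    exact GroupFG.iff_add_fg.1 ‹_›
  obtain ⟨r, f, hf⟩ := Module.Finite.exists_fin' ℤ (Additive Q)
  refine ⟨r, fun H => ?_⟩
  obtain ⟨h, hh⟩ := sub_gen_add (Additive Q) r f hf
    (AddSubgroup.toIntSubmodule (Subgroup.toAddSubgroup H))
  refine ⟨fun i => Additive.toMul (h i), ?_⟩
  have h1 : AddSubgroup.closure (Set.range h) = Subgroup.toAddSubgroup H := by
    have := congrArg Submodule.toAddSubgroup hh
    rw [Submodule.span_int_eq_addSubgroupClosure] at this
    exact this
  ext x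
  constructor
  · intro hx
    refine Subgroup.closure_le H |>.2 ?_ hx
    rintro _ ⟨i, rfl⟩
    have : h i ∈ Subgroup.toAddSubgroup H := by
      rw [← h1]; exact AddSubgroup.subset_closure ⟨i, rfl⟩
    exact this
  · intro hx
    have h2 : Additive.ofMul x ∈ AddSubgroup.closure (Set.range h) := by rw [h1]; exact hx
    refine AddSubgroup.closure_induction (p := fun y _ => Additive.toMul y ∈
      Subgroup.closure (Set.range fun i => Additive.toMul (h i))) ?_ ?_ ?_ ?_ h2
    · rintro _ ⟨i, rfl⟩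
      exact Subgroup.subset_closure ⟨i, rfl⟩
    · exact one_mem _
    · intro a b _ _ ha hb
      exact mul_mem ha hb
    · intro a _ ha
      exact inv_mem ha

theorem finite_residue_aux (p : ℕ) [Fact p.Prime] (F : Type*) [Field F]
    [Algebra.FiniteType ℤ F] [CharP F p] : Finite F := by
  let I : Algebra (ZMod p) F := ZMod.algebra F p
  have h1 : IsScalarTower ℤ (ZMod p) F := IsScalarTower.of_algebraMap_eq fun n => by simp
  have h2 : Algebra.FiniteType (ZMod p) F :=
    Algebra.FiniteType.of_restrictScalars_finiteType ℤ (ZMod p) F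
  have h3 : Module.Finite (ZMod p) F := finite_of_finite_type_of_isJacobsonRing (ZMod p) F
  exact Module.finite_of_finite (ZMod p)

theorem finite_residue (R : Type*) [CommRing R] [Algebra.FiniteType ℤ R] (p : ℕ) [Fact p.Prime]
    (m : Ideal R) [hm : m.IsMaximal] (hp : (p : R) ∈ m) : Finite (R ⧸ m) := by
  have h0 : (p : R ⧸ m) = 0 := by
    have := Ideal.Quotient.eq_zero_iff_mem.2 hp
    simpa using this
  have hchar : CharP (R ⧸ m) p := (CharP.charP_iff_prime_eq_zero Fact.out).2 h0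
  have hft : Algebra.FiniteType ℤ (R ⧸ m) :=
    Algebra.FiniteType.of_surjective (Ideal.Quotient.mkₐ ℤ m) (Ideal.Quotient.mkₐ_surjective ℤ m)
  exact @finite_residue_aux p _ (R ⧸ m) (Ideal.Quotient.field m) hft hchar

end Pool.Agent.W_MP_6f8a18_al
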