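import Pool.Agent.W_MP_6f8a18_al.Defs

namespace Pool.Agent.W_MP_6f8a18_al

universe u v

/-- powers of a maximal ideal have finite dimensional quotients -/
theorem ideals_finite_quot_pow (B : Type u) [CommRing B] [Algebra ℚ B] [Algebra.FiniteType ℚ B]
    (q : Ideal B) [hq : q.IsMaximal] (k : ℕ) : Module.Finite ℚ (B ⧸ q ^ k) := by
  have hfin : Module.Finite ℚ (B ⧸ q) := by
    let _ : Field (B ⧸ q) := Ideal.Quotient.field q
    exact finite_of_finite_type_of_isJacobsonRing ℚ (B ⧸ q)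
  have hN : IsNoetherianRing B := Algebra.FiniteType.isNoetherianRing ℚ B
  rcases Nat.eq_zero_or_pos k with rfl | hk
  · rw [pow_zero, Ideal.one_eq_top]
    infer_instance
  · have hle : q ^ k ≤ q := Ideal.pow_le_self hk.ne'
    refine Module.finite_of_surjective_of_ker_le_nilradical
      (Ideal.Quotient.factorₐ ℚ hle) (Ideal.Quotient.factor_surjective hle) ?_
      (IsNoetherian.noetherian _)
    intro x hx
    obtain ⟨b, rfl⟩ := Ideal.Quotient.mk_surjective x
    have hb : b ∈ q := by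
      have : Ideal.Quotient.mk q b = 0 := hx
      rwa [Ideal.Quotient.eq_zero_iff_mem] at this
    refine ⟨k, ?_⟩
    change Ideal.Quotient.mk (q ^ k) b ^ k = 0
    rw [← map_pow, Ideal.Quotient.eq_zero_iff_mem]
    exact Ideal.pow_mem_pow hb k

/-- a residue field of a finitely generated rational algebra -/
theorem ideals_exists_field (B : Type u) [CommRing B] [Nontrivial B] [Algebra ℚ B]
    [Algebra.FiniteType ℚ B] :
    ∃ (F : Type u) (_ : Field F) (_ : CharZero F) (π : B →+* F),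
      Function.Surjective π ∧ ∀ x : F, IsAlgebraic ℚ x := by
  obtain ⟨q, hq⟩ := Ideal.exists_maximal B
  have hfin : Module.Finite ℚ (B ⧸ q) := by
    have := ideals_finite_quot_pow B q 1
    rwa [pow_one] at this
  have halg : ∀ x : B ⧸ q, ∃ f : Polynomial ℚ, f ≠ 0 ∧
      f.eval₂ (algebraMap ℚ (B ⧸ q)) x = 0 := by
    intro x
    have h : Algebra.IsAlgebraic ℚ (B ⧸ q) := Algebra.IsAlgebraic.of_finite ℚ (B ⧸ q)
    obtain ⟨f, hf0, hf⟩ := h.isAlgebraic x
    exact ⟨f, hf0, hf⟩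
  have hchar : CharZero (B ⧸ q) := algebraRat.charZero (B ⧸ q)
  let fF : Field (B ⧸ q) := Ideal.Quotient.field q
  refine ⟨B ⧸ q, fF, hchar, Ideal.Quotient.mk q, Ideal.Quotient.mk_surjective, ?_⟩
  intro x
  obtain ⟨f, hf0, hf⟩ := halg x
  refine ⟨f, hf0, ?_⟩
  rw [Polynomial.aeval_def, ← hf]
  congr 1
  exact RingHom.ext_rat _ _

/-- separation by powers of `p` -/
theorem ideals_separation {A B F : Type u} [CommRing A] [CommRing B] [Field F]
    [IsNoetherianRing A] (ι : A →+* B) (π : B →+* F) (hπ : Function.Surjective π)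
    (T : Subring F) (hT : ∀ a, π (ι a) ∈ T) (p : ℕ)
    (hp : (p : F)⁻¹ ∉ T) (k : ℕ) (x : A) (hx : x ∉ ((RingHom.ker π) ^ k).comap ι) :
    ∃ c : ℕ, x ∉ ((RingHom.ker π) ^ k).comap ι ⊔ Ideal.span {(p : A) ^ c} := by
  by_contra hcon
  push Not at hcon
  set q := RingHom.ker π with hq
  have hqmax : q.IsMaximal := RingHom.ker_isMaximal_of_surjective π hπ
  set I := (q ^ k).comap ι with hI
  let J : Ideal (A ⧸ I) := Ideal.span {(p : A ⧸ I)}
  have h1 : Ideal.Quotient.mk I x ∈ (⨅ i : ℕ, J ^ i • (⊤ : Submodule (A ⧸ I) (A ⧸ I))) := by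
    rw [Submodule.mem_iInf]
    intro i
    have h2 := hcon i
    obtain ⟨y, hy, z, hz, hyz⟩ := Submodule.mem_sup.1 h2
    obtain ⟨w, rfl⟩ := Ideal.mem_span_singleton'.1 hz
    have h3 : Ideal.Quotient.mk I x = Ideal.Quotient.mk I w * (p : A ⧸ I) ^ i := by
      rw [← hyz, map_add, Ideal.Quotient.eq_zero_iff_mem.2 hy, zero_add, map_mul, map_pow,
        map_natCast]
    rw [h3, smul_eq_mul, Ideal.mul_top]
    exact Ideal.mul_mem_left _ _ (Ideal.pow_mem_pow (Ideal.mem_span_singleton_self _) i)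
  rw [Ideal.mem_iInf_smul_pow_eq_bot_iff] at h1
  obtain ⟨⟨r, hr⟩, hrx⟩ := h1
  obtain ⟨a', rfl⟩ := Ideal.mem_span_singleton'.1 hr
  obtain ⟨a, rfl⟩ := Ideal.Quotient.mk_surjective a'
  have h4 : (1 - a * p) * x ∈ I := by
    rw [← Ideal.Quotient.eq_zero_iff_mem]
    have h5 : Ideal.Quotient.mk I a * (p : A ⧸ I) * Ideal.Quotient.mk I x =
        Ideal.Quotient.mk I x := hrx
    rw [map_mul, map_sub, map_one, map_mul, map_natCast, sub_mul, one_mul, h5, sub_self]
  have h5 : ι (1 - a * p) * ι x ∈ q ^ k := by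
    rw [← map_mul]; exact h4
  by_cases hu : ι (1 - a * p) ∈ q
  · apply hp
    have h6 : π (ι (1 - a * p)) = 0 := hu
    rw [map_sub, map_sub, map_one, map_one, map_mul, map_mul, map_natCast, map_natCast,
      sub_eq_zero] at h6
    have h7 : (p : F)⁻¹ = π (ι a) := (eq_inv_of_mul_eq_one_left h6.symm).symm
    rw [h7]
    exact hT a
  · apply hx
    rw [hI, Ideal.mem_comap]
    have h6 : IsCoprime (Ideal.span {ι (1 - a * p)}) q := by
      rw [Ideal.isCoprime_iff_exists]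
      obtain ⟨y, i, hi, hyi⟩ := hqmax.exists_inv hu
      exact ⟨y * ι (1 - a * p), Ideal.mul_mem_left _ _ (Ideal.mem_span_singleton_self _), i, hi,
        hyi⟩
    have h7 : IsCoprime (Ideal.span {ι (1 - a * p)}) (q ^ k) := h6.pow_right
    rw [Ideal.isCoprime_iff_exists] at h7
    obtain ⟨y, hy, z, hz, hyz⟩ := h7
    obtain ⟨w, rfl⟩ := Ideal.mem_span_singleton'.1 hy
    have h8 : ι x = w * (ι (1 - a * p) * ι x) + z * ι x := by
      rw [← mul_assoc, ← add_mul, hyz, one_mul]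
    rw [h8]
    exact Ideal.add_mem _ (Ideal.mul_mem_left _ _ h5) (Ideal.mul_mem_right _ _ hz)

theorem ideals_main (A B : Type u) [CommRing A] [IsNoetherianRing A] [CommRing B] [IsDomain B]
    [Algebra ℚ B] [Algebra.FiniteType ℚ B] (ι : A →+* B) (hι : Function.Injective ι)
    (t : Finset A) (ht : Algebra.adjoin ℤ (t : Set A) = ⊤)
    (hunit : ∀ (F : Type u) [Field F] [CharZero F] (s : Finset F), (∀ x ∈ s, IsAlgebraic ℚ x) →
      ∃ S : Finset ℕ, ∀ p : ℕ, p.Prime → p ∉ S → ((p : F)⁻¹ ∉ Algebra.adjoin ℤ (s : Set F))) :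
    ∃ (I : ℕ → Ideal A) (S : Finset ℕ), Antitone I ∧
      (∀ i, 1 ≤ i → I i * I i ≤ I (i + 1)) ∧ (⨅ i, I i = ⊥) ∧
      (∀ k, ∃ (C : Type u) (_ : CommRing C) (_ : Algebra ℚ C)
        (f : A ⧸ I k →+* C), Module.Finite ℚ C ∧ Function.Injective f) ∧
      ∀ p : ℕ, p.Prime → p ∉ S → ∀ (k : ℕ) (x : A), x ∉ I k →
        ∃ c : ℕ, x ∉ I k ⊔ Ideal.span {(p : A) ^ c} := by
  classical
  have hNB : IsNoetherianRing B := Algebra.FiniteType.isNoetherianRing ℚ _
  obtain ⟨F, fF, cF, π, hπ, halg⟩ := ideals_exists_field B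
  let s' : Finset F := t.image fun x => π (ι x)
  obtain ⟨S, hS⟩ := hunit F s' (fun x _ => halg x)
  have hqmax : (RingHom.ker π).IsMaximal := RingHom.ker_isMaximal_of_surjective π hπ
  refine ⟨fun k => ((RingHom.ker π) ^ k).comap ι, S, ?_, ?_, ?_, ?_, ?_⟩
  · intro i j hij
    exact Ideal.comap_mono (Ideal.pow_le_pow_right hij)
  · intro i hi
    rw [Ideal.mul_le]
    intro x hx y hy
    rw [Ideal.mem_comap] at hx hy ⊢
    rw [map_mul]
    have h1 : ι x * ι y ∈ (RingHom.ker π) ^ (i + i) := by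
      rw [pow_add]; exact Ideal.mul_mem_mul hx hy
    exact Ideal.pow_le_pow_right (by omega) h1
  · rw [eq_bot_iff]
    intro x hx
    have h1 : ι x ∈ ⨅ i : ℕ, (RingHom.ker π) ^ i := by
      rw [Ideal.mem_iInf]
      intro i
      exact (Ideal.mem_iInf.1 hx i)
    rw [Ideal.iInf_pow_eq_bot_of_isDomain _ hqmax.ne_top, Ideal.mem_bot] at h1
    rw [Ideal.mem_bot]
    exact hι (by rw [map_zero]; exact h1)
  · intro k
    exact ⟨B ⧸ (RingHom.ker π) ^ k, inferInstance, inferInstance,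
      Ideal.quotientMap ((RingHom.ker π) ^ k) ι le_rfl,
      ideals_finite_quot_pow B _ k, Ideal.quotientMap_injective⟩
  · intro p hp hpS k x hx
    refine ideals_separation ι π hπ (Algebra.adjoin ℤ (s' : Set F)).toSubring ?_ p
      (hS p hp hpS) k x hx
    intro a
    have h1 : (⊤ : Subalgebra ℤ A) ≤
        (Algebra.adjoin ℤ (s' : Set F)).comap (RingHom.toIntAlgHom (π.comp ι)) := by
      rw [← ht]
      refine Algebra.adjoin_le ?_
      intro x hx
      exact Algebra.subset_adjoin (Finset.mem_coe.2 (Finset.mem_image_of_mem _ hx))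
    exact h1 (Algebra.mem_top (x := a))

theorem exists_ideals (K : Type u) [Field K] [CharZero K] (s : Finset K)
    (hunit : ∀ (F : Type u) [Field F] [CharZero F] (s : Finset F), (∀ x ∈ s, IsAlgebraic ℚ x) →
      ∃ S : Finset ℕ, ∀ p : ℕ, p.Prime → p ∉ S → ((p : F)⁻¹ ∉ Algebra.adjoin ℤ (s : Set F))) :
    ∃ (I : ℕ → Ideal (Algebra.adjoin ℤ (s : Set K))) (S : Finset ℕ), Antitone I ∧
      (∀ i, 1 ≤ i → I i * I i ≤ I (i + 1)) ∧ (⨅ i, I i = ⊥) ∧
      (∀ k, ∃ (C : Type u) (_ : CommRing C) (_ : Algebra ℚ C)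
        (f : (Algebra.adjoin ℤ (s : Set K)) ⧸ I k →+* C), Module.Finite ℚ C ∧
          Function.Injective f) ∧
      ∀ p : ℕ, p.Prime → p ∉ S → ∀ (k : ℕ) (x : Algebra.adjoin ℤ (s : Set K)), x ∉ I k →
        ∃ c : ℕ, x ∉ I k ⊔ Ideal.span {(p : Algebra.adjoin ℤ (s : Set K)) ^ c} := by
  classical
  have hftB : Algebra.FiniteType ℚ (Algebra.adjoin ℚ (s : Set K)) :=
    (Subalgebra.fg_iff_finiteType _).1 (Subalgebra.fg_adjoin_finset s)
  have hftA : Algebra.FiniteType ℤ (Algebra.adjoin ℤ (s : Set K)) :=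
    (Subalgebra.fg_iff_finiteType _).1 (Subalgebra.fg_adjoin_finset s)
  have hNA : IsNoetherianRing (Algebra.adjoin ℤ (s : Set K)) :=
    Algebra.FiniteType.isNoetherianRing ℤ _
  let ι : Algebra.adjoin ℤ (s : Set K) →+* Algebra.adjoin ℚ (s : Set K) :=
    { toFun := fun a => ⟨a.1, by
        have h : Algebra.adjoin ℤ (s : Set K) ≤
            (Algebra.adjoin ℚ (s : Set K)).restrictScalars ℤ :=
          Algebra.adjoin_le Algebra.subset_adjoin
        exact h a.2⟩
      map_one' := rfl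
      map_mul' := fun _ _ => rfl
      map_zero' := rfl
      map_add' := fun _ _ => rfl }
  have hι : Function.Injective ι := by
    intro a b h
    have h2 : ((ι a : Algebra.adjoin ℚ (s : Set K)) : K) =
        ((ι b : Algebra.adjoin ℚ (s : Set K)) : K) := by rw [h]
    exact Subtype.ext h2
  obtain ⟨t, ht⟩ := hftA.out
  exact ideals_main _ _ ι hι t ht hunit

end Pool.Agent.W_MP_6f8a18_al
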