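import Pool.Agent.W_MP_6f8a18_al.Defs

namespace Pool.Agent.W_MP_6f8a18_al

universe u v

theorem units_exists_mult (F : Type u) [Field F] [CharZero F] (s : Finset F)
    (hs : ∀ x ∈ s, IsAlgebraic ℚ x) : ∃ w : ℤ, w ≠ 0 ∧ ∀ x ∈ s, IsIntegral ℤ (w • x) := by
  classical
  induction s using Finset.induction_on with
  | empty => exact ⟨1, one_ne_zero, by simp⟩
  | insert a s ha ih =>
    obtain ⟨w, hw, hws⟩ := ih fun x hx => hs x (Finset.mem_insert_of_mem hx)
    have h1 : IsAlgebraic ℤ a :=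
      (IsFractionRing.isAlgebraic_iff ℤ ℚ F).2 (hs a (Finset.mem_insert_self a s))
    obtain ⟨y, hy, hya⟩ := h1.exists_integral_multiple
    refine ⟨y * w, mul_ne_zero hy hw, ?_⟩
    intro x hx
    rcases Finset.mem_insert.1 hx with rfl | hx
    · rw [mul_comm, mul_smul]
      exact hya.smul w
    · rw [mul_smul]
      exact (hws x hx).smul y

theorem units_adjoin_mult (F : Type u) [Field F] [CharZero F] (s : Set F) (w : ℤ)
    (hws : ∀ x ∈ s, IsIntegral ℤ (w • x)) (z : F) (hz : z ∈ Algebra.adjoin ℤ s) :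
    ∃ N : ℕ, IsIntegral ℤ (w ^ N • z) := by
  induction hz using Algebra.adjoin_induction with
  | mem x hx => exact ⟨1, by rw [pow_one]; exact hws x hx⟩
  | algebraMap r => exact ⟨0, by rw [pow_zero, one_smul]; exact isIntegral_algebraMap⟩
  | add x y _ _ hx hy =>
    obtain ⟨M, hM⟩ := hx
    obtain ⟨N, hN⟩ := hy
    refine ⟨M + N, ?_⟩
    have : w ^ (M + N) • (x + y) = w ^ N • (w ^ M • x) + w ^ M • (w ^ N • y) := by
      rw [smul_add, pow_add, mul_smul, mul_smul, smul_comm (w ^ M) (w ^ N) x]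
    rw [this]
    exact (hM.smul _).add (hN.smul _)
  | mul x y _ _ hx hy =>
    obtain ⟨M, hM⟩ := hx
    obtain ⟨N, hN⟩ := hy
    refine ⟨M + N, ?_⟩
    have : w ^ (M + N) • (x * y) = (w ^ M • x) * (w ^ N • y) := by
      rw [smul_mul_smul_comm, pow_add]
    rw [this]
    exact hM.mul hN

theorem exists_not_unit (F : Type u) [Field F] [CharZero F] (s : Finset F)
    (hs : ∀ x ∈ s, IsAlgebraic ℚ x) :
    ∃ S : Finset ℕ, ∀ p : ℕ, p.Prime → p ∉ S → ((p : F)⁻¹ ∉ Algebra.adjoin ℤ (s : Set F)) := by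
  obtain ⟨w, hw, hws⟩ := units_exists_mult F s hs
  refine ⟨w.natAbs.primeFactors, ?_⟩
  intro p hp hpS hmem
  obtain ⟨N, hN⟩ := units_adjoin_mult F (s : Set F) w (fun x hx => hws x hx) _ hmem
  have hp0 : (p : ℚ) ≠ 0 := by exact_mod_cast hp.ne_zero
  have h1 : w ^ N • ((p : F)⁻¹) = algebraMap ℚ F ((w : ℚ) ^ N / p) := by
    rw [zsmul_eq_mul, map_div₀, map_pow, map_intCast, map_natCast, div_eq_mul_inv]
    push_cast
    rfl
  rw [h1, isIntegral_algebraMap_iff (algebraMap ℚ F).injective] at hN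
  obtain ⟨m, hm⟩ := IsIntegrallyClosed.isIntegral_iff.1 hN
  have h2 : (m : ℚ) * p = (w : ℚ) ^ N := by
    have : (m : ℚ) = (w : ℚ) ^ N / p := hm
    rw [this, div_mul_cancel₀ _ hp0]
  have h3 : m * (p : ℤ) = w ^ N := by exact_mod_cast h2
  have h4 : (p : ℤ) ∣ w ^ N := ⟨m, by rw [← h3, mul_comm]⟩
  have h5 : (p : ℤ) ∣ w := (Nat.prime_iff_prime_int.1 hp).dvd_of_dvd_pow h4
  exact hpS (Nat.mem_primeFactors.2 ⟨hp, Int.natCast_dvd.1 h5, Int.natAbs_ne_zero.2 hw⟩)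

end Pool.Agent.W_MP_6f8a18_al
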