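import Pool.Agent.W_MP_6f8a18_al.Domain

namespace Pool.Agent.W_MP_6f8a18_al

universe u v

open DomAux Polynomial in
theorem exists_maximal_avoiding (A : Type u) [CommRing A] [IsDomain A] [Algebra.FiniteType ℤ A]
    (t : A) (ht : Transcendental ℤ t) :
    ∃ S : Finset ℕ, ∀ p : ℕ, p.Prime → p ∉ S → ∀ B : ℕ, B ≠ 0 →
      ∃ m : Ideal A, m.IsMaximal ∧ (p : A) ∈ m ∧ t ^ p ^ B - t ∉ m := by
  classical
  obtain ⟨f, hf, hlo⟩ := lying_over A t ht
  set φ : ℤ[X] →+* A := (aeval t : ℤ[X] →ₐ[ℤ] A).toRingHom with hφ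
  refine ⟨f.leadingCoeff.natAbs.primeFactors, fun p hp hpS B hB => ?_⟩
  have : Fact p.Prime := ⟨hp⟩
  let K := AlgebraicClosure (ZMod p)
  have hfp : f.map (Int.castRingHom (ZMod p)) ≠ 0 := by
    intro h
    apply hpS
    have h1 : (f.map (Int.castRingHom (ZMod p))).coeff f.natDegree = 0 := by rw [h]; simp
    rw [coeff_map, coeff_natDegree] at h1
    have h2 : ((f.leadingCoeff : ℤ) : ZMod p) = 0 := h1
    rw [ZMod.intCast_zmod_eq_zero_iff_dvd] at h2
    rw [Nat.mem_primeFactors]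
    refine ⟨hp, ?_, ?_⟩
    · exact Int.natCast_dvd.1 h2
    · rw [Ne, Int.natAbs_eq_zero, leadingCoeff_eq_zero]
      exact hf
  have hpB : 1 < p ^ B := Nat.one_lt_pow hB hp.one_lt
  set g : (ZMod p)[X] := f.map (Int.castRingHom (ZMod p)) * (X ^ p ^ B - X) with hg
  have hg0 : g ≠ 0 := mul_ne_zero hfp (FiniteField.X_pow_card_sub_X_ne_zero (ZMod p) hpB)
  obtain ⟨α, hα⟩ : ∃ α : K, aeval α g ≠ 0 := by
    by_contra hcon
    push Not at hcon
    have h3 : (Set.univ : Set K).Finite := by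
      apply (rootSet_finite g K).subset
      intro α _
      rw [mem_rootSet]
      exact ⟨hg0, hcon α⟩
    have : Infinite K := IsAlgClosed.instInfinite
    exact Set.infinite_univ h3
  rw [hg, map_mul, mul_ne_zero_iff] at hα
  have hmax := ker_ev_isMaximal p α
  have hfn : f ∉ RingHom.ker (ev p α) := by
    rw [RingHom.mem_ker, ev_apply]
    exact hα.1
  have hxn : (X ^ p ^ B - X : ℤ[X]) ∉ RingHom.ker (ev p α) := by
    rw [RingHom.mem_ker, ev_apply]
    simpa using hα.2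
  obtain ⟨Q, hQ, hQc⟩ := hlo _ hmax.isPrime hfn
  obtain ⟨m, hm, hQm⟩ := Q.exists_le_maximal hQ.ne_top
  have hc : m.comap φ = RingHom.ker (ev p α) := by
    symm
    apply hmax.eq_of_le
    · exact (Ideal.comap_ne_top φ hm.ne_top)
    · rw [← hQc]
      exact Ideal.comap_mono hQm
  refine ⟨m, hm, ?_, ?_⟩
  · have hpk : ((p : ℕ) : ℤ[X]) ∈ RingHom.ker (ev p α) := by
      rw [RingHom.mem_ker, map_natCast]
      exact CharP.cast_eq_zero _ p
    rw [← hc, Ideal.mem_comap, map_natCast] at hpk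
    exact hpk
  · intro hmem
    apply hxn
    rw [← hc, Ideal.mem_comap]
    have : φ (X ^ p ^ B - X) = t ^ p ^ B - t := by
      rw [map_sub, map_pow]
      have hX : φ X = t := aeval_X t
      rw [hX]
    rw [this]
    exact hmem

end Pool.Agent.W_MP_6f8a18_al
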