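import Pool.Agent.W_MP_6f8a18_al.Defs

/-!
The Burnside basis theorem for finite `p`-groups.
-/

namespace Pool.Agent.W_MP_6f8a18_al

universe u v

/-- The quotient of a finite `p`-group by a maximal subgroup is abelian of exponent `p`. -/
theorem burnside_coatom (p : ℕ) [Fact p.Prime] (Q : Type u) [Group Q] [Finite Q]
    (hQ : IsPGroup p Q) (H : Subgroup Q) (hH : IsCoatom H) : powComm p Q ≤ H := by
  have hnil : Group.IsNilpotent Q := hQ.isNilpotent
  have hHn : H.Normal :=
    Subgroup.NormalizerCondition.normal_of_coatom H Group.normalizerCondition_of_isNilpotent hH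
  have hne : H ≠ ⊤ := hH.1
  have : Nontrivial (Q ⧸ H) := by
    rw [QuotientGroup.nontrivial_iff]
    exact hne
  have hs : IsSimpleGroup (Q ⧸ H) := by
    refine ⟨fun K _ => ?_⟩
    by_cases hK : K = ⊥
    · exact Or.inl hK
    · right
      have h1 : H < K.comap (QuotientGroup.mk' H) := by
        refine lt_of_le_of_ne ?_ ?_
        · intro x hx
          rw [Subgroup.mem_comap]
          have : QuotientGroup.mk' H x = 1 := (QuotientGroup.eq_one_iff x).2 hx
          rw [this]; exact K.one_mem
        · intro h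
          apply hK
          rw [eq_bot_iff]
          intro y hy
          obtain ⟨x, rfl⟩ := QuotientGroup.mk'_surjective H y
          have hx : x ∈ K.comap (QuotientGroup.mk' H) := hy
          rw [← h] at hx
          rw [Subgroup.mem_bot]
          exact (QuotientGroup.eq_one_iff x).2 hx
      have h2 := hH.2 _ h1
      rw [eq_top_iff]
      intro y _
      obtain ⟨x, rfl⟩ := QuotientGroup.mk'_surjective H y
      have hx : x ∈ K.comap (QuotientGroup.mk' H) := by rw [h2]; trivial
      exact hx
  have hcomm : ∀ a b : Q ⧸ H, a * b = b * a :=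
    IsSimpleGroup.comm_iff_isSolvable.mpr inferInstance
  let hcg : CommGroup (Q ⧸ H) := { (inferInstance : Group (Q ⧸ H)) with mul_comm := hcomm }
  have hcard : (Nat.card (Q ⧸ H)).Prime := IsSimpleGroup.prime_card
  have hpq : IsPGroup p (Q ⧸ H) := hQ.to_quotient H
  obtain ⟨k, hk⟩ := IsPGroup.iff_card.1 hpq
  have hcp : Nat.card (Q ⧸ H) = p := by
    rw [hk] at hcard ⊢
    exact (Nat.Prime.eq_one_of_pow hcard) ▸ (pow_one p)
  refine sup_le ?_ ?_
  · rw [commutator_def, Subgroup.commutator_le]
    intro a _ b _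
    rw [← QuotientGroup.eq_one_iff]
    rw [commutatorElement_def]
    simp only [QuotientGroup.mk_mul, QuotientGroup.mk_inv]
    rw [hcomm (a : Q ⧸ H) (b : Q ⧸ H)]
    group
  · rw [Subgroup.closure_le]
    rintro _ ⟨y, rfl⟩
    change y ^ p ∈ H
    rw [← QuotientGroup.eq_one_iff, QuotientGroup.mk_pow]
    rw [← hcp]
    exact pow_card_eq_one'

theorem burnside_basis (p : ℕ) [Fact p.Prime] (Q : Type u) [Group Q] [Finite Q]
    (hQ : IsPGroup p Q) (S : Set Q) (h : Subgroup.closure S ⊔ powComm p Q = ⊤) :
    Subgroup.closure S = ⊤ := by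
  rcases eq_top_or_exists_le_coatom (Subgroup.closure S) with h1 | ⟨H, hH, hle⟩
  · exact h1
  · exfalso
    apply hH.1
    rw [eq_top_iff, ← h]
    exact sup_le hle (burnside_coatom p Q hQ H hH)

end Pool.Agent.W_MP_6f8a18_al
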