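import Pool.Agent.W_MP_6f8a18_al.Defs

/-!
Congruence subgroups of a matrix representation over a commutative ring.
-/

namespace Pool.Agent.W_MP_6f8a18_al

universe u v

/-- The congruence subgroup of an ideal. -/
def cong {Γ : Type u} [Group Γ] {n : ℕ} {A : Type v} [CommRing A] (ρ : Γ →* GL (Fin n) A)
    (I : Ideal A) : Subgroup Γ :=
  ((Matrix.GeneralLinearGroup.map (Ideal.Quotient.mk I)).comp ρ).ker

instance cong_normal {Γ : Type u} [Group Γ] {n : ℕ} {A : Type v} [CommRing A]
    (ρ : Γ →* GL (Fin n) A) (I : Ideal A) : (cong ρ I).Normal :=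
  MonoidHom.normal_ker _

theorem mem_cong {Γ : Type u} [Group Γ] {n : ℕ} {A : Type v} [CommRing A]
    (ρ : Γ →* GL (Fin n) A) (I : Ideal A) (g : Γ) :
    g ∈ cong ρ I ↔ ∀ i j, (ρ g).val i j - (1 : Matrix (Fin n) (Fin n) A) i j ∈ I := by
  have h1 : g ∈ cong ρ I ↔
      Matrix.GeneralLinearGroup.map (Ideal.Quotient.mk I) (ρ g) = 1 := Iff.rfl
  rw [h1]
  constructor
  · intro h i j
    have h2 := congrArg (fun z : GL (Fin n) (A ⧸ I) => z.val i j) h
    rw [← Ideal.Quotient.eq]
    have h3 : (Matrix.GeneralLinearGroup.map (Ideal.Quotient.mk I) (ρ g)).val i j =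
        Ideal.Quotient.mk I ((ρ g).val i j) := rfl
    rw [← h3]
    refine h2.trans ?_
    by_cases hij : i = j
    · subst hij; simp
    · simp [Matrix.one_apply_ne hij]
  · intro h
    ext i j
    have h3 : (Matrix.GeneralLinearGroup.map (Ideal.Quotient.mk I) (ρ g)).val i j =
        Ideal.Quotient.mk I ((ρ g).val i j) := rfl
    rw [h3, Ideal.Quotient.eq.2 (h i j)]
    by_cases hij : i = j
    · subst hij; simp
    · simp [Matrix.one_apply_ne hij]

end Pool.Agent.W_MP_6f8a18_al
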