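import Pool.Agent.W_MP_6f8a18_al.Defs

/-!
Small index subgroups of a finitely generated group contain one normal subgroup of finite index.
-/

namespace Pool.Agent.W_MP_6f8a18_al

universe u v

/-- A finitely generated group has finitely many homomorphisms to a finite group. -/
lemma core_finite_hom (Γ : Type u) [Group Γ] [Group.FG Γ] (Q : Type v) [Group Q] [Finite Q] :
    Finite (Γ →* Q) := by
  obtain ⟨S, hS⟩ := (Group.fg_def.1 (inferInstance : Group.FG Γ))
  refine Finite.of_injective (fun (f : Γ →* Q) (s : S) => f s) ?_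
  intro f g hfg
  apply MonoidHom.eq_of_eqOn_top
  rw [← hS]
  apply MonoidHom.eqOn_closure
  intro s hs
  exact congrFun hfg ⟨s, hs⟩

theorem exists_core (Γ : Type u) [Group Γ] [Group.FG Γ] (B : ℕ) :
    ∃ M : Subgroup Γ, M.Normal ∧ M.FiniteIndex ∧
      ∀ H : Subgroup Γ, H.index ≠ 0 → H.index ≤ B → M ≤ H := by
  classical
  haveI : ∀ b : Fin (B + 1), Finite (Γ →* Equiv.Perm (Fin b)) := fun b => core_finite_hom Γ _
  refine ⟨⨅ i : (Σ b : Fin (B + 1), (Γ →* Equiv.Perm (Fin b))), i.2.ker, ?_, ?_, ?_⟩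
  · exact Subgroup.normal_iInf_normal fun i => MonoidHom.normal_ker i.2
  · exact Subgroup.finiteIndex_iInf fun i => inferInstance
  · intro H h0 hB
    haveI : H.FiniteIndex := ⟨h0⟩
    haveI : Finite (Γ ⧸ H) := inferInstance
    have hcard : Nat.card (Γ ⧸ H) = H.index := rfl
    let e : (Γ ⧸ H) ≃ Fin H.index := Finite.equivFinOfCardEq hcard
    let φ : Γ →* Equiv.Perm (Fin H.index) :=
      (e.permCongrHom : Equiv.Perm (Γ ⧸ H) ≃* Equiv.Perm (Fin H.index)).toMonoidHom.comp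
        (MulAction.toPermHom Γ (Γ ⧸ H))
    have hle : (⨅ i : (Σ b : Fin (B + 1), (Γ →* Equiv.Perm (Fin b))), i.2.ker) ≤ φ.ker :=
      iInf_le (fun i : (Σ b : Fin (B + 1), (Γ →* Equiv.Perm (Fin b))) => i.2.ker)
        ⟨⟨H.index, Nat.lt_succ_of_le hB⟩, φ⟩
    refine hle.trans ?_
    intro g hg
    rw [MonoidHom.mem_ker] at hg
    have h1 : MulAction.toPermHom Γ (Γ ⧸ H) g = 1 := by
      apply (e.permCongrHom : Equiv.Perm (Γ ⧸ H) ≃* Equiv.Perm (Fin H.index)).injective
      rw [map_one]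
      exact hg
    have h2 : g • ((1 : Γ) : Γ ⧸ H) = ((1 : Γ) : Γ ⧸ H) := by
      have := congrArg (fun σ : Equiv.Perm (Γ ⧸ H) => σ ((1 : Γ) : Γ ⧸ H)) h1
      simpa using this
    have h3 : ((g : Γ) : Γ ⧸ H) = ((1 : Γ) : Γ ⧸ H) := by
      simpa using h2
    have h4 := QuotientGroup.eq.1 h3
    simpa using h4

end Pool.Agent.W_MP_6f8a18_al
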