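import Pool.Agent.W_MP_6f8a18_al.Defs

/-!
Invariant surjections from a module onto `(Z/p)^C` coming from `C` maximal ideals.
-/

namespace Pool.Agent.W_MP_6f8a18_al

theorem exists_surj_aux (p : ℕ) [Fact p.Prime] (Q : Type*) [AddCommGroup Q] [Module (ZMod p) Q]
    [Nontrivial Q] : ∃ f : Q →+ ZMod p, Function.Surjective f := by
  obtain ⟨v, hv⟩ := exists_ne (0 : Q)
  have : ∃ f : Module.Dual (ZMod p) Q, f v ≠ 0 := by
    by_contra hcon
    push Not at hcon
    exact hv ((Module.forall_dual_apply_eq_zero_iff (ZMod p) v).1 hcon)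
  obtain ⟨f, hf⟩ := this
  refine ⟨f.toAddMonoidHom, fun t => ⟨(t * (f v)⁻¹) • v, ?_⟩⟩
  change f ((t * (f v)⁻¹) • v) = t
  rw [map_smul, smul_eq_mul, mul_assoc, inv_mul_cancel₀ hf, mul_one]

theorem exists_surj (p : ℕ) [Fact p.Prime] (Q : Type*) [AddCommGroup Q] [Nontrivial Q]
    (h : ∀ q : Q, p • q = 0) : ∃ f : Q →+ ZMod p, Function.Surjective f := by
  let I : Module (ZMod p) Q := AddCommGroup.zmodModule h
  exact exists_surj_aux p Q

theorem exists_functionals (R : Type*) [CommRing R] (I : Type*) [AddCommGroup I] [Module R I]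
    (p : ℕ) [Fact p.Prime] (C : ℕ) (m : Fin C → Ideal R) (hm : ∀ i, (m i).IsMaximal)
    (hinj : Function.Injective m) (hp : ∀ i, (p : R) ∈ m i)
    (hI : ∀ i, m i • (⊤ : Submodule R I) ≠ ⊤) :
    ∃ g : I →+ (Fin C → ZMod p), Function.Surjective g ∧
      ∀ (a : R) (x : I), (∀ i, a - 1 ∈ m i) → g (a • x) = g x := by
  classical
  have hf : ∀ i, ∃ f : (I ⧸ m i • (⊤ : Submodule R I)) →+ ZMod p, Function.Surjective f := by
    intro i
    have : Nontrivial (I ⧸ m i • (⊤ : Submodule R I)) := Submodule.Quotient.nontrivial_iff.2 (hI i)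
    refine exists_surj p _ ?_
    intro q
    obtain ⟨x, rfl⟩ := Submodule.Quotient.mk_surjective _ q
    rw [← Submodule.Quotient.mk_smul, Submodule.Quotient.mk_eq_zero, ← Nat.cast_smul_eq_nsmul R]
    exact Submodule.smul_mem_smul (hp i) trivial
  choose f hfs using hf
  have hcop : Pairwise fun i j => IsCoprime (m i) (m j) := by
    intro i j hij
    exact (Ideal.isCoprime_iff_sup_eq).2 ((hm i).coprime_of_ne (hm j) fun h => hij (hinj h))
  have he : ∀ i, ∃ e : R, ∀ j, e - (if i = j then 1 else 0) ∈ m j := by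
    intro i
    obtain ⟨q, hq⟩ := Ideal.quotientInfToPiQuotient_surj hcop
      (fun j => Ideal.Quotient.mk (m j) (if i = j then 1 else 0))
    obtain ⟨e, rfl⟩ := Ideal.Quotient.mk_surjective q
    refine ⟨e, fun j => ?_⟩
    have := congrFun hq j
    rw [Ideal.quotientInfToPiQuotient_mk'] at this
    exact Ideal.Quotient.eq.1 this
  choose e he using he
  refine ⟨{ toFun := fun x i => f i (Submodule.Quotient.mk x)
            map_zero' := by ext i; simp
            map_add' := by intro x y; ext i; simp }, ?_, ?_⟩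
  · intro t
    have hv : ∀ i, ∃ v : I, f i (Submodule.Quotient.mk v) = t i := by
      intro i
      obtain ⟨q, hq⟩ := hfs i (t i)
      obtain ⟨v, rfl⟩ := Submodule.Quotient.mk_surjective _ q
      exact ⟨v, hq⟩
    choose v hv using hv
    refine ⟨∑ i, e i • v i, ?_⟩
    ext j
    change f j (Submodule.Quotient.mk (∑ i, e i • v i)) = t j
    have h1 : (Submodule.Quotient.mk (∑ i, e i • v i) : I ⧸ m j • (⊤ : Submodule R I)) =
        Submodule.Quotient.mk (v j) := by
      rw [Submodule.Quotient.eq]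
      have h2 : ∑ i, e i • v i - v j = ∑ i, (e i - (if i = j then 1 else 0)) • v i := by
        simp only [sub_smul, Finset.sum_sub_distrib]
        congr 1
        simp
      rw [h2]
      refine Submodule.sum_mem _ fun i _ => Submodule.smul_mem_smul ?_ trivial
      exact he i j
    rw [h1, hv]
  · intro a x ha
    ext i
    change f i (Submodule.Quotient.mk (a • x)) = f i (Submodule.Quotient.mk x)
    congr 1
    rw [Submodule.Quotient.eq]
    have : a • x - x = (a - 1) • x := by rw [sub_smul, one_smul]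
    rw [this]
    exact Submodule.smul_mem_smul (ha i) trivial

end Pool.Agent.W_MP_6f8a18_al
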