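import Mathlib

/-!
Basic definitions for the lower normal limits of `d_p`, following the problem file.
-/

namespace Pool.Agent.W_MP_6f8a18_al

/-- The subgroup `[A,A]A^p` of a group `A`: it is generated by the commutator subgroup and all
`p`-th powers. -/
def powComm (p : ℕ) (A : Type*) [Group A] : Subgroup A :=
  commutator A ⊔ Subgroup.closure (Set.range fun y : A => y ^ p)

instance powComm_normal (p : ℕ) (A : Type*) [Group A] : (powComm p A).Normal := by
  have h : (Subgroup.closure (Set.range fun y : A => y ^ p)).Normal := by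
    constructor
    intro n hn g
    refine Subgroup.closure_induction (p := fun n _ => g * n * g⁻¹ ∈
      Subgroup.closure (Set.range fun y : A => y ^ p)) ?_ ?_ ?_ ?_ hn
    · rintro x ⟨y, rfl⟩
      refine Subgroup.subset_closure ⟨g * y * g⁻¹, ?_⟩
      simp [conj_pow]
    · simp [one_mem]
    · intro x y _ _ hx hy
      have : g * (x * y) * g⁻¹ = (g * x * g⁻¹) * (g * y * g⁻¹) := by group
      rw [this]; exact mul_mem hx hy
    · intro x _ hx
      have : g * x⁻¹ * g⁻¹ = (g * x * g⁻¹)⁻¹ := by group
      rw [this]; exact inv_mem hx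
  exact Subgroup.sup_normal _ _

/-- The least number of generators `d(A)` of a group `A`, in `ℕ ∪ {∞}`. -/
noncomputable def minGen (A : Type*) [Group A] : ℕ∞ :=
  ⨅ S : {S : Set A // Subgroup.closure S = ⊤}, (S : Set A).encard

/-- `d_p(A)`, the least number of generators of `A/[A,A]A^p`. -/
noncomputable def dp (p : ℕ) (A : Type*) [Group A] : ℕ∞ := minGen (A ⧸ powComm p A)

/-- The lower normal limit of `d_p`: the supremum over all normal subgroups `M` of finite index
of the infimum of `d_p(N)` over all normal subgroups `N ≤ M` of finite index. -/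
noncomputable def NL (p : ℕ) (Γ : Type*) [Group Γ] : ℕ∞ :=
  ⨆ M : {M : Subgroup Γ // M.Normal ∧ M.FiniteIndex},
    ⨅ N : {N : Subgroup Γ // N.Normal ∧ N.FiniteIndex ∧ N ≤ (M : Subgroup Γ)},
      dp p (N : Subgroup Γ)

/-- An abelian group has finite rank if it has a finitely generated subgroup such that every
element has a nonzero multiple in it. -/
def FinRk (A : Type*) [AddCommGroup A] : Prop :=
  ∃ F : Finset A, ∀ a : A, ∃ n : ℤ, n ≠ 0 ∧ n • a ∈ Submodule.span ℤ (F : Set A)

end Pool.Agent.W_MP_6f8a18_al
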