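import Pool.Agent.W_MP_6f8a18_al.Cong

/-!
The leading terms of a congruence subgroup are derivations.
-/

namespace Pool.Agent.W_MP_6f8a18_al

universe u v

/-- A functional on an ideal `J`, killing `m * J` and non-zero at a given element. -/
theorem deriv_exists_lam {A : Type u} [CommRing A] (m : Ideal A) [m.IsMaximal] (J : Ideal A)
    (w : A) (hw : w ∈ J) (hw' : w ∉ m * J) :
    ∃ lam : A → A ⧸ m, (∀ x ∈ J, ∀ y ∈ J, lam (x + y) = lam x + lam y) ∧
      (∀ r : A, ∀ x ∈ J, lam (r * x) = Ideal.Quotient.mk m r * lam x) ∧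
      (∀ x ∈ m * J, lam x = 0) ∧ lam w ≠ 0 := by
  classical
  let _ : Field (A ⧸ m) := Ideal.Quotient.field m
  let v : J ⧸ (m • (⊤ : Submodule A J)) := Submodule.Quotient.mk ⟨w, hw⟩
  have hv : v ≠ 0 := by
    intro h
    have h1 := (Submodule.Quotient.mk_eq_zero _).1 h
    rw [Submodule.mem_smul_top_iff] at h1
    exact hw' h1
  obtain ⟨f, hf⟩ := Module.Projective.exists_dual_ne_zero (A ⧸ m) hv
  refine ⟨fun x => if h : x ∈ J then f (Submodule.Quotient.mk ⟨x, h⟩) else 0, ?_, ?_, ?_, ?_⟩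
  · intro x hx y hy
    have hxy : x + y ∈ J := J.add_mem hx hy
    simp only [dif_pos hx, dif_pos hy, dif_pos hxy]
    rw [← map_add]
    rfl
  · intro r x hx
    have hrx : r * x ∈ J := J.mul_mem_left r hx
    simp only [dif_pos hx, dif_pos hrx]
    have h1 : (Submodule.Quotient.mk ⟨r * x, hrx⟩ : J ⧸ (m • (⊤ : Submodule A J))) =
        Ideal.Quotient.mk m r • Submodule.Quotient.mk (⟨x, hx⟩ : J) := rfl
    rw [h1, map_smul, smul_eq_mul]
  · intro x hx
    have hxJ : x ∈ J := Ideal.mul_le_right hx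
    simp only [dif_pos hxJ]
    have h1 : (Submodule.Quotient.mk ⟨x, hxJ⟩ : J ⧸ (m • (⊤ : Submodule A J))) = 0 := by
      rw [Submodule.Quotient.mk_eq_zero, Submodule.mem_smul_top_iff]
      exact hx
    rw [h1, map_zero]
  · simp only [dif_pos hw]
    exact hf

theorem exists_derivation (A : Type u) [CommRing A] [IsDomain A] [IsNoetherianRing A]
    (m : Ideal A) [m.IsMaximal] (d : ℕ) (Γ : Type v) [Group Γ] (ρ : Γ →* GL (Fin d) A)
    (T : Fin d → Matrix (Fin d) (Fin d) A)
    (hT : ∀ g i, (ρ g).val * T i = (∑ l, (ρ g).val l i • T l) * (ρ g).val)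
    (N : Subgroup Γ) (hn : ∀ (g x : Γ), x ∈ N → g * x * g⁻¹ ∈ N) (hN : N ≤ cong ρ m)
    (hN1 : ∃ x ∈ N, ρ x ≠ 1) :
    ∃ D : N → Matrix (Fin d) (Fin d) (A ⧸ m),
      (∀ x y : N, D (x * y) = D x + D y) ∧ (∃ x : N, D x ≠ 0) ∧
      (∀ (g : Γ) (x : N), D ⟨g * x * g⁻¹, hn g x x.2⟩ * (ρ g).val.map (Ideal.Quotient.mk m) =
        (ρ g).val.map (Ideal.Quotient.mk m) * D x) ∧
      ∀ (x : N) (i : Fin d), D x * (T i).map (Ideal.Quotient.mk m) -
        (T i).map (Ideal.Quotient.mk m) * D x =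
        ∑ l, (D x) l i • (T l).map (Ideal.Quotient.mk m) := by
  classical
  -- the level
  have hex : ∃ j : ℕ, ¬ N ≤ cong ρ (m ^ (j + 1)) := by
    by_contra hcon
    push Not at hcon
    obtain ⟨x, hx, hx1⟩ := hN1
    apply hx1
    have hbot : (⨅ i : ℕ, m ^ i) = ⊥ :=
      Ideal.iInf_pow_eq_bot_of_isDomain m (Ideal.IsMaximal.ne_top inferInstance)
    ext a b
    have h1 : (ρ x).val a b - (1 : Matrix (Fin d) (Fin d) A) a b ∈ (⨅ i : ℕ, m ^ i) := by
      rw [Ideal.mem_iInf]
      intro i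
      cases i with
      | zero => simp
      | succ i => exact (mem_cong ρ _ x).1 (hcon i hx) a b
    rw [hbot, Ideal.mem_bot, sub_eq_zero] at h1
    exact h1
  set j := Nat.find hex with hj
  have hj1 : ¬ N ≤ cong ρ (m ^ (j + 1)) := Nat.find_spec hex
  have hj0 : j ≠ 0 := by
    intro h0
    rw [h0] at hj1
    apply hj1
    simpa using hN
  have hjN : N ≤ cong ρ (m ^ j) := by
    have h1 : j - 1 < j := by omega
    have h2 := Nat.find_min hex h1
    rw [not_not, Nat.sub_add_cancel (by omega)] at h2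
    exact h2
  -- the deviation
  have hX : ∀ x ∈ N, ∀ a b, (ρ x).val a b - (1 : Matrix (Fin d) (Fin d) A) a b ∈ m ^ j :=
    fun x hx => (mem_cong ρ _ x).1 (hjN hx)
  obtain ⟨x₀, hx₀, hx₀'⟩ := Set.not_subset.1 hj1
  have hx₁ : ∃ a b, (ρ x₀).val a b - (1 : Matrix (Fin d) (Fin d) A) a b ∉ m ^ (j + 1) := by
    by_contra hcon
    push Not at hcon
    exact hx₀' ((mem_cong ρ _ x₀).2 hcon)
  obtain ⟨a₀, b₀, hab⟩ := hx₁
  obtain ⟨lam, hadd, hmul, hzero, hne⟩ := deriv_exists_lam m (m ^ j) _ (hX x₀ hx₀ a₀ b₀)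
    (by rw [← pow_succ']; exact hab)
  have hlam0 : lam 0 = 0 := hzero 0 (Ideal.zero_mem _)
  have hsum : ∀ (f : Fin d → A), (∀ c, f c ∈ m ^ j) → lam (∑ c, f c) = ∑ c, lam (f c) := by
    intro f hf
    have : ∀ s : Finset (Fin d), lam (∑ c ∈ s, f c) = ∑ c ∈ s, lam (f c) := by
      intro s
      induction s using Finset.induction_on with
      | empty => simpa using hlam0
      | insert c s hc ih =>
        rw [Finset.sum_insert hc, Finset.sum_insert hc,
          hadd _ (hf c) _ (Ideal.sum_mem _ fun c _ => hf c), ih]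
    exact this Finset.univ
  have hcongr : ∀ x ∈ m ^ j, ∀ y ∈ m * m ^ j, lam (x + y) = lam x := by
    intro x hx y hy
    rw [hadd x hx y (Ideal.mul_le_right hy), hzero y hy, add_zero]
  have hsq : ∀ x ∈ m ^ j, ∀ y ∈ m ^ j, x * y ∈ m * m ^ j := by
    intro x hx y hy
    exact Ideal.mul_mem_mul (Ideal.pow_le_self hj0 hx) hy
  -- matrices
  set X : Γ → Matrix (Fin d) (Fin d) A := fun x => (ρ x).val - 1 with hXdef
  have hXm : ∀ x ∈ N, ∀ a b, X x a b ∈ m ^ j := hX
  have hρX : ∀ x, (ρ x).val = 1 + X x := fun x => by simp [hXdef]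
  have hmapr : ∀ (M G : Matrix (Fin d) (Fin d) A), (∀ a b, M a b ∈ m ^ j) →
      (M * G).map lam = M.map lam * G.map (Ideal.Quotient.mk m) := by
    intro M G hM
    ext a b
    rw [Matrix.map_apply, Matrix.mul_apply, Matrix.mul_apply,
      hsum _ (fun c => Ideal.mul_mem_right _ _ (hM a c))]
    refine Finset.sum_congr rfl fun c _ => ?_
    rw [mul_comm, hmul _ _ (hM a c), mul_comm, Matrix.map_apply, Matrix.map_apply]
  have hmapl : ∀ (M G : Matrix (Fin d) (Fin d) A), (∀ a b, M a b ∈ m ^ j) →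
      (G * M).map lam = G.map (Ideal.Quotient.mk m) * M.map lam := by
    intro M G hM
    ext a b
    rw [Matrix.map_apply, Matrix.mul_apply, Matrix.mul_apply,
      hsum _ (fun c => Ideal.mul_mem_left _ _ (hM c b))]
    refine Finset.sum_congr rfl fun c _ => ?_
    rw [hmul _ _ (hM c b), Matrix.map_apply, Matrix.map_apply]
  have hmapadd : ∀ (M M' : Matrix (Fin d) (Fin d) A), (∀ a b, M a b ∈ m ^ j) →
      (∀ a b, M' a b ∈ m ^ j) → (M + M').map lam = M.map lam + M'.map lam := by
    intro M M' hM hM'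
    ext a b
    simp only [Matrix.map_apply, Matrix.add_apply]
    exact hadd _ (hM a b) _ (hM' a b)
  have hmapcongr : ∀ (M M' : Matrix (Fin d) (Fin d) A), (∀ a b, M a b ∈ m ^ j) →
      (∀ a b, M' a b ∈ m * m ^ j) → (M + M').map lam = M.map lam := by
    intro M M' hM hM'
    ext a b
    simp only [Matrix.map_apply, Matrix.add_apply]
    exact hcongr _ (hM a b) _ (hM' a b)
  have hmulmem : ∀ (M M' : Matrix (Fin d) (Fin d) A), (∀ a b, M a b ∈ m ^ j) →
      (∀ a b, M' a b ∈ m ^ j) → ∀ a b, (M * M') a b ∈ m * m ^ j := by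
    intro M M' hM hM' a b
    rw [Matrix.mul_apply]
    exact Ideal.sum_mem _ fun c _ => hsq _ (hM a c) _ (hM' c b)
  refine ⟨fun x => (X x).map lam, ?_, ?_, ?_, ?_⟩
  · intro x y
    have h1 : X ((x * y : N) : Γ) = (X x + X y) + X x * X y := by
      have h2 : (ρ ((x * y : N) : Γ)).val = (ρ x).val * (ρ y).val := by
        rw [Subgroup.coe_mul, map_mul]; rfl
      simp only [hXdef, h2, sub_mul, mul_sub, one_mul, mul_one]
      abel
    show (X ((x * y : N) : Γ)).map lam = (X x).map lam + (X y).map lam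
    rw [h1, hmapcongr (X x + X y) (X x * X y)
      (fun a b => Ideal.add_mem _ (hXm x x.2 a b) (hXm y y.2 a b))
      (hmulmem _ _ (hXm x x.2) (hXm y y.2)), hmapadd _ _ (hXm x x.2) (hXm y y.2)]
  · refine ⟨⟨x₀, hx₀⟩, fun h => hne ?_⟩
    have h1 := congrFun (congrFun h a₀) b₀
    exact h1
  · intro g x
    show (X (g * x * g⁻¹)).map lam * (ρ g).val.map (Ideal.Quotient.mk m) =
      (ρ g).val.map (Ideal.Quotient.mk m) * (X x).map lam
    have h1 : X (g * x * g⁻¹) * (ρ g).val = (ρ g).val * X x := by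
      have h2 : (ρ (g * x * g⁻¹)).val * (ρ g).val = (ρ g).val * (ρ x).val := by
        have h3 : ρ (g * x * g⁻¹) * ρ g = ρ g * ρ x := by
          rw [← map_mul, ← map_mul]; congr 1; group
        exact congrArg Units.val h3
      simp only [hXdef, sub_mul, mul_sub, h2, one_mul, mul_one]
    rw [← hmapr _ _ (hXm _ (hn g x x.2)), h1, hmapl _ _ (hXm x x.2)]
  · intro x i
    show (X x).map lam * (T i).map (Ideal.Quotient.mk m) -
      (T i).map (Ideal.Quotient.mk m) * (X x).map lam =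
        ∑ l, ((X x).map lam) l i • (T l).map (Ideal.Quotient.mk m)
    -- the sum matrix
    set S : Matrix (Fin d) (Fin d) A := ∑ l, X x l i • T l with hS
    have hSm : ∀ a b, S a b ∈ m ^ j := by
      intro a b
      rw [hS, Matrix.sum_apply]
      exact Ideal.sum_mem _ fun l _ => by
        rw [Matrix.smul_apply, smul_eq_mul]
        exact Ideal.mul_mem_right _ _ (hXm x x.2 l i)
    have hSmap : S.map lam = ∑ l, ((X x).map lam) l i • (T l).map (Ideal.Quotient.mk m) := by
      ext a b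
      rw [Matrix.map_apply, hS, Matrix.sum_apply, Matrix.sum_apply]
      rw [hsum _ (fun l => by
        rw [Matrix.smul_apply, smul_eq_mul]
        exact Ideal.mul_mem_right _ _ (hXm x x.2 l i))]
      refine Finset.sum_congr rfl fun l _ => ?_
      rw [Matrix.smul_apply, Matrix.smul_apply, smul_eq_mul, smul_eq_mul, mul_comm,
        hmul _ _ (hXm x x.2 l i), mul_comm, Matrix.map_apply, Matrix.map_apply]
    have h1 := hT x i
    have h2 : ∑ l, (ρ x).val l i • T l = T i + S := by
      have h3 : ∀ l, (ρ x).val l i • T l = (1 : Matrix (Fin d) (Fin d) A) l i • T l +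
          X x l i • T l := by
        intro l
        rw [← add_smul, hρX x, Matrix.add_apply]
      rw [Finset.sum_congr rfl fun l _ => h3 l, Finset.sum_add_distrib, hS]
      congr 1
      rw [Finset.sum_eq_single i]
      · simp
      · intro l _ hl
        rw [Matrix.one_apply_ne hl, zero_smul]
      · intro h
        exact absurd (Finset.mem_univ i) h
    rw [h2, hρX x] at h1
    have h4 : X x * T i = (T i * X x + S) + S * X x := by
      have h5 : (1 + X x) * T i = T i + X x * T i := by rw [add_mul, one_mul]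
      have h6 : (T i + S) * (1 + X x) = T i + ((T i * X x + S) + S * X x) := by
        rw [add_mul, mul_add, mul_add, mul_one, mul_one]
        abel
      rw [h5, h6] at h1
      exact add_left_cancel h1
    have hTX : ∀ a b, (T i * X x) a b ∈ m ^ j := by
      intro a b
      rw [Matrix.mul_apply]
      exact Ideal.sum_mem _ fun c _ => Ideal.mul_mem_left _ _ (hXm x x.2 c b)
    rw [← hmapr _ _ (hXm x x.2), ← hmapl _ _ (hXm x x.2), h4,
      hmapcongr (T i * X x + S) (S * X x) (fun a b => Ideal.add_mem _ (hTX a b) (hSm a b))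
        (hmulmem _ _ hSm (hXm x x.2)), hmapadd _ _ hTX hSm, add_sub_cancel_left, hSmap]

end Pool.Agent.W_MP_6f8a18_al
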