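import Pool.Agent.W_MP_6f8a18_al.Defs

namespace Pool.Agent.W_MP_6f8a18_al

namespace DomAux

open Polynomial

/-- If all elements are algebraic over `ℤ`, then the additive group has finite rank. -/
theorem finRk_of_algebraic (D : Type*) [CommRing D] [Algebra.FiniteType ℤ D]
    (h : ∀ t : D, IsAlgebraic ℤ t) : FinRk D := by
  classical
  obtain ⟨s, hs⟩ := (inferInstance : Algebra.FiniteType ℤ D).out
  choose y hy0 hyi using fun t : D => (h t).exists_integral_multiple
  set N : ℤ := ∏ x ∈ s, y x with hN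
  have hN0 : N ≠ 0 := Finset.prod_ne_zero_iff.2 fun x _ => hy0 x
  have hNi : ∀ x ∈ s, IsIntegral ℤ (N • x) := by
    intro x hx
    rw [hN, ← Finset.prod_erase_mul _ _ hx, mul_smul]
    exact (hyi x).smul _
  set T : Finset D := s.image (fun x => N • x) with hT
  have hfg : (Algebra.adjoin ℤ (T : Set D)).toSubmodule.FG := by
    apply fg_adjoin_of_finite T.finite_toSet
    intro x hx
    rw [hT, Finset.coe_image] at hx
    obtain ⟨z, hz, rfl⟩ := hx
    exact hNi z hz
  obtain ⟨F, hF⟩ := hfg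
  refine ⟨F, fun a => ?_⟩
  have key : ∃ e : ℕ, (N ^ e) • a ∈ Algebra.adjoin ℤ (T : Set D) := by
    have ha : a ∈ Algebra.adjoin ℤ (s : Set D) := by rw [hs]; trivial
    induction ha using Algebra.adjoin_induction with
    | mem x hx =>
      refine ⟨1, Algebra.subset_adjoin ?_⟩
      rw [pow_one, hT, Finset.coe_image]
      exact ⟨x, hx, rfl⟩
    | algebraMap r => exact ⟨0, by rw [pow_zero, one_smul]; exact Subalgebra.algebraMap_mem _ r⟩
    | add x z _ _ ihx ihz =>
      obtain ⟨e1, h1⟩ := ihx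
      obtain ⟨e2, h2⟩ := ihz
      refine ⟨e1 + e2, ?_⟩
      rw [smul_add]
      apply add_mem
      · rw [add_comm, pow_add, mul_smul]
        exact Subalgebra.smul_mem _ h1 _
      · rw [pow_add, mul_smul]
        exact Subalgebra.smul_mem _ h2 _
    | mul x z _ _ ihx ihz =>
      obtain ⟨e1, h1⟩ := ihx
      obtain ⟨e2, h2⟩ := ihz
      refine ⟨e1 + e2, ?_⟩
      have : (N ^ (e1 + e2)) • (x * z) = ((N ^ e1) • x) * ((N ^ e2) • z) := by
        rw [smul_mul_smul_comm, pow_add]
      rw [this]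
      exact mul_mem h1 h2
  obtain ⟨e, he⟩ := key
  refine ⟨N ^ e, pow_ne_zero _ hN0, ?_⟩
  rw [hF]
  exact he

theorem exists_transcendental (D : Type*) [CommRing D] [Algebra.FiniteType ℤ D]
    (hD : ¬ FinRk D) : ∃ t : D, Transcendental ℤ t := by
  by_contra hcon
  apply hD
  apply finRk_of_algebraic
  intro t
  by_contra h
  exact hcon ⟨t, h⟩

/-- A constructible subset of the spectrum of a domain contains or misses a nonempty basic
open set. -/
theorem constructible_dichotomy (B : Type*) [CommRing B] [IsDomain B]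
    (s : Set (PrimeSpectrum B)) (hs : Topology.IsConstructible s) :
    ∃ f : B, f ≠ 0 ∧ ((PrimeSpectrum.basicOpen f : Set (PrimeSpectrum B)) ⊆ s ∨
      (PrimeSpectrum.basicOpen f : Set (PrimeSpectrum B)) ⊆ sᶜ) := by
  induction hs using Topology.IsConstructible.empty_union_induction with
  | open_retrocompact U hU hU' =>
    rcases U.eq_empty_or_nonempty with rfl | ⟨x, hx⟩
    · exact ⟨1, one_ne_zero, Or.inr (by simp)⟩
    · obtain ⟨V, ⟨f, rfl⟩, hxf, hfU⟩ :=
        PrimeSpectrum.isTopologicalBasis_basic_opens.exists_subset_of_mem_open hx hU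
      refine ⟨f, ?_, Or.inl hfU⟩
      rintro rfl
      simp at hxf
  | union s hs t ht ihs iht =>
    obtain ⟨f, hf, hf'⟩ := ihs
    obtain ⟨g, hg, hg'⟩ := iht
    rcases hf' with hf' | hf'
    · exact ⟨f, hf, Or.inl (hf'.trans Set.subset_union_left)⟩
    rcases hg' with hg' | hg'
    · exact ⟨g, hg, Or.inl (hg'.trans Set.subset_union_right)⟩
    refine ⟨f * g, mul_ne_zero hf hg, Or.inr ?_⟩
    rw [PrimeSpectrum.basicOpen_mul]
    intro x hx
    rw [Set.compl_union]
    exact ⟨hf' hx.1, hg' hx.2⟩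
  | compl s hs ih =>
    obtain ⟨f, hf, hf'⟩ := ih
    refine ⟨f, hf, ?_⟩
    rw [compl_compl]
    exact hf'.symm

/-- Lying over outside a hypersurface. -/
theorem lying_over (D : Type*) [CommRing D] [IsDomain D] [Algebra.FiniteType ℤ D] (t : D)
    (ht : Transcendental ℤ t) :
    ∃ f : ℤ[X], f ≠ 0 ∧ ∀ P : Ideal ℤ[X], P.IsPrime → f ∉ P →
      ∃ Q : Ideal D, Q.IsPrime ∧ Q.comap (aeval t : ℤ[X] →ₐ[ℤ] D).toRingHom = P := by
  set φ : ℤ[X] →+* D := (aeval t : ℤ[X] →ₐ[ℤ] D).toRingHom with hφ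
  have hinj : Function.Injective φ := transcendental_iff_injective.1 ht
  have hft : φ.FiniteType := by
    apply RingHom.FiniteType.of_comp_finiteType (f := algebraMap ℤ ℤ[X])
    have : φ.comp (algebraMap ℤ ℤ[X]) = algebraMap ℤ D := by
      exact RingHom.ext_int _ _
    rw [this]
    rw [RingHom.finiteType_algebraMap]
    infer_instance
  have hfp : φ.FinitePresentation := RingHom.FinitePresentation.of_finiteType.1 hft
  have hcon := PrimeSpectrum.isConstructible_range_comap hfp
  obtain ⟨f, hf, h⟩ := constructible_dichotomy _ _ hcon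
  have hbot : (⟨⊥, Ideal.isPrime_bot⟩ : PrimeSpectrum ℤ[X]) ∈ Set.range (PrimeSpectrum.comap φ) := by
    refine ⟨⟨⊥, Ideal.isPrime_bot⟩, ?_⟩
    ext1
    simp only [PrimeSpectrum.comap_asIdeal]
    exact (RingHom.injective_iff_ker_eq_bot φ).1 hinj
  have hbotf : (⟨⊥, Ideal.isPrime_bot⟩ : PrimeSpectrum ℤ[X]) ∈ PrimeSpectrum.basicOpen f := by
    rw [PrimeSpectrum.mem_basicOpen]
    simpa using hf
  refine ⟨f, hf, fun P hP hfP => ?_⟩
  have hsub : (PrimeSpectrum.basicOpen f : Set (PrimeSpectrum ℤ[X])) ⊆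
      Set.range (PrimeSpectrum.comap φ) := by
    rcases h with h | h
    · exact h
    · exact absurd hbot (h hbotf)
  obtain ⟨Q, hQ⟩ := hsub (show (⟨P, hP⟩ : PrimeSpectrum ℤ[X]) ∈ _ from hfP)
  refine ⟨Q.asIdeal, Q.isPrime, ?_⟩
  have := congrArg PrimeSpectrum.asIdeal hQ
  simpa using this

/-- the evaluation `ℤ[X] → K` at `α` -/
noncomputable def ev (p : ℕ) [Fact p.Prime] (α : AlgebraicClosure (ZMod p)) :
    ℤ[X] →+* AlgebraicClosure (ZMod p) :=
  (aeval α : (ZMod p)[X] →ₐ[ZMod p] AlgebraicClosure (ZMod p)).toRingHom.comp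
    (mapRingHom (Int.castRingHom (ZMod p)))

theorem ev_apply (p : ℕ) [Fact p.Prime] (α : AlgebraicClosure (ZMod p)) (g : ℤ[X]) :
    ev p α g = aeval α (g.map (Int.castRingHom (ZMod p))) := rfl

theorem ker_ev_isMaximal (p : ℕ) [Fact p.Prime] (α : AlgebraicClosure (ZMod p)) :
    (RingHom.ker (ev p α)).IsMaximal := by
  have h1 : RingHom.ker (ev p α) =
      (RingHom.ker (aeval α : (ZMod p)[X] →ₐ[ZMod p] AlgebraicClosure (ZMod p)).toRingHom).comap
        (mapRingHom (Int.castRingHom (ZMod p))) := by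
    rw [ev, RingHom.comap_ker]
  have hsurj : Function.Surjective (mapRingHom (Int.castRingHom (ZMod p))) :=
    map_surjective _ (ZMod.ringHom_surjective _)
  have hint : IsIntegral (ZMod p) α := Algebra.IsIntegral.isIntegral α
  have h2 : (RingHom.ker (aeval α : (ZMod p)[X] →ₐ[ZMod p]
      AlgebraicClosure (ZMod p)).toRingHom).IsMaximal := by
    have h3 : RingHom.ker (aeval α : (ZMod p)[X] →ₐ[ZMod p]
      AlgebraicClosure (ZMod p)).toRingHom = Ideal.span {minpoly (ZMod p) α} :=
      minpoly.ker_aeval_eq_span_minpoly (ZMod p) α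
    rw [h3]
    exact PrincipalIdealRing.isMaximal_of_irreducible (minpoly.irreducible hint)
  rw [h1]
  exact Ideal.comap_isMaximal_of_surjective _ hsurj

theorem root_of_ker_eq (p : ℕ) [Fact p.Prime] (α β : AlgebraicClosure (ZMod p))
    (h : RingHom.ker (ev p β) = RingHom.ker (ev p α)) :
    β ∈ (minpoly (ZMod p) α).rootSet (AlgebraicClosure (ZMod p)) := by
  have hsurj : Function.Surjective (mapRingHom (Int.castRingHom (ZMod p))) :=
    map_surjective _ (ZMod.ringHom_surjective _)
  have hint : IsIntegral (ZMod p) α := Algebra.IsIntegral.isIntegral α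
  obtain ⟨g, hg⟩ := hsurj (minpoly (ZMod p) α)
  rw [coe_mapRingHom] at hg
  have h1 : g ∈ RingHom.ker (ev p α) := by
    rw [RingHom.mem_ker, ev_apply, hg, minpoly.aeval]
  rw [← h, RingHom.mem_ker, ev_apply, hg] at h1
  rw [mem_rootSet]
  exact ⟨minpoly.ne_zero hint, h1⟩

end DomAux

open DomAux Polynomial in
/-- A domain which is a finitely generated ring and whose additive group has infinite rank has,
for almost all primes `p`, infinitely many maximal ideals containing `p`. -/
theorem infinite_maximal_domain (D : Type*) [CommRing D] [IsDomain D]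
    [Algebra.FiniteType ℤ D] (hD : ¬ FinRk D) :
    ∃ S : Finset ℕ, ∀ p : ℕ, p.Prime → p ∉ S →
      {m : Ideal D | m.IsMaximal ∧ (p : D) ∈ m}.Infinite := by
  classical
  obtain ⟨t, ht⟩ := exists_transcendental D hD
  obtain ⟨f, hf, hlo⟩ := lying_over D t ht
  set φ : ℤ[X] →+* D := (aeval t : ℤ[X] →ₐ[ℤ] D).toRingHom with hφ
  refine ⟨f.leadingCoeff.natAbs.primeFactors, fun p hp hpS => ?_⟩
  have : Fact p.Prime := ⟨hp⟩
  let K := AlgebraicClosure (ZMod p)
  have hfp : f.map (Int.castRingHom (ZMod p)) ≠ 0 := by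
    intro h
    apply hpS
    have h1 : (f.map (Int.castRingHom (ZMod p))).coeff f.natDegree = 0 := by rw [h]; simp
    rw [coeff_map, coeff_natDegree] at h1
    have h2 : ((f.leadingCoeff : ℤ) : ZMod p) = 0 := h1
    rw [ZMod.intCast_zmod_eq_zero_iff_dvd] at h2
    rw [Nat.mem_primeFactors]
    refine ⟨hp, ?_, ?_⟩
    · exact Int.natCast_dvd.1 h2
    · rw [Ne, Int.natAbs_eq_zero, leadingCoeff_eq_zero]
      exact hf
  -- the infinite set of parameters
  set A : Set K := {α : K | aeval α (f.map (Int.castRingHom (ZMod p))) ≠ 0} with hA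
  have hAinf : A.Infinite := by
    have h1 : (Aᶜ).Finite := by
      have : Aᶜ ⊆ (f.map (Int.castRingHom (ZMod p))).rootSet K := by
        intro α hα
        rw [hA, Set.mem_compl_iff, Set.mem_ofPred_eq, not_not] at hα
        rw [mem_rootSet]
        exact ⟨hfp, hα⟩
      exact (rootSet_finite _ _).subset this
    intro h2
    have h3 : (Set.univ : Set K).Finite := by
      rw [← Set.union_compl_self A]
      exact h2.union h1
    have : Infinite K := IsAlgClosed.instInfinite
    exact Set.infinite_univ h3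
  have himg : ((fun α : K => RingHom.ker (ev p α)) '' A).Infinite := by
    intro hfin
    apply hAinf
    refine Set.Finite.of_finite_fibers _ hfin ?_
    rintro _ ⟨α, hα, rfl⟩
    apply (rootSet_finite (minpoly (ZMod p) α) K).subset
    rintro β ⟨_, hβ⟩
    exact root_of_ker_eq p α β hβ
  have hsub : ((fun α : K => RingHom.ker (ev p α)) '' A) ⊆
      (fun m : Ideal D => m.comap φ) '' {m : Ideal D | m.IsMaximal ∧ (p : D) ∈ m} := by
    rintro _ ⟨α, hα, rfl⟩
    have hmax := ker_ev_isMaximal p α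
    have hfn : f ∉ RingHom.ker (ev p α) := by
      rw [RingHom.mem_ker, ev_apply]
      exact hα
    obtain ⟨Q, hQ, hQc⟩ := hlo _ hmax.isPrime hfn
    obtain ⟨m, hm, hQm⟩ := Q.exists_le_maximal hQ.ne_top
    have hc : m.comap φ = RingHom.ker (ev p α) := by
      symm
      apply hmax.eq_of_le
      · exact (Ideal.comap_ne_top φ hm.ne_top)
      · rw [← hQc]
        exact Ideal.comap_mono hQm
    refine ⟨m, ⟨hm, ?_⟩, hc⟩
    have hpk : ((p : ℕ) : ℤ[X]) ∈ RingHom.ker (ev p α) := by
      rw [RingHom.mem_ker, map_natCast]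
      exact CharP.cast_eq_zero _ p
    rw [← hc, Ideal.mem_comap, map_natCast] at hpk
    exact hpk
  exact (himg.mono hsub).of_image _

end Pool.Agent.W_MP_6f8a18_al
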