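import Mathlib

namespace Pool.Agent.W_MP_6f8a18_al

universe u v

open scoped commutatorElement

/-- Finite index from a finite valued map. -/
theorem e_finiteIndex_of_map {G X : Type*} [Group G] (H : Subgroup G) (f : G → X)
    (hf : (Set.range f).Finite) (h : ∀ g g', f g = f g' → g⁻¹ * g' ∈ H) : H.FiniteIndex := by
  have : Finite (G ⧸ H) := by
    have := hf.to_subtype
    refine Finite.of_injective
      (fun q : G ⧸ H => (⟨f q.out, Set.mem_range_self _⟩ : Set.range f)) ?_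
    intro q q' hq
    have h1 : f q.out = f q'.out := congrArg Subtype.val hq
    have h2 := h _ _ h1
    rw [← QuotientGroup.out_eq' q, ← QuotientGroup.out_eq' q']
    exact QuotientGroup.eq.mpr h2
  exact Subgroup.finiteIndex_of_finite_quotient

section

variable {K : Type u} [Field K] {V : Type u} [AddCommGroup V] [Module K V]

theorem e_inv_mul {G : Type v} [Group G] (ρ : G →* (V →ₗ[K] V)) (g : G) :
    ρ g⁻¹ * ρ g = 1 := by
  rw [← map_mul, inv_mul_cancel, map_one]

theorem e_mul_inv {G : Type v} [Group G] (ρ : G →* (V →ₗ[K] V)) (g : G) :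
    ρ g * ρ g⁻¹ = 1 := by
  rw [← map_mul, mul_inv_cancel, map_one]

/-- The group elements acting as scalars. -/
def eScal {G : Type v} [Group G] (ρ : G →* (V →ₗ[K] V)) : Subgroup G where
  carrier := {g | ∃ c : K, c ≠ 0 ∧ ρ g = c • 1}
  mul_mem' := by
    rintro a b ⟨c, hc0, hc⟩ ⟨d, hd0, hd⟩
    refine ⟨c * d, mul_ne_zero hc0 hd0, ?_⟩
    rw [map_mul, hc, hd, smul_mul_smul_comm, mul_one]
  one_mem' := ⟨1, one_ne_zero, by simp⟩
  inv_mem' := by
    rintro a ⟨c, hc0, hc⟩
    refine ⟨c⁻¹, inv_ne_zero hc0, ?_⟩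
    have h := e_inv_mul ρ a
    rw [hc, mul_smul_comm, mul_one] at h
    rw [← h, smul_smul, inv_mul_cancel₀ hc0, one_smul]

theorem e_mem_scal {G : Type v} [Group G] (ρ : G →* (V →ₗ[K] V)) (g : G) :
    g ∈ eScal ρ ↔ ∃ c : K, c ≠ 0 ∧ ρ g = c • 1 := Iff.rfl

theorem e_mem_scal' [Nontrivial V] {G : Type v} [Group G] (ρ : G →* (V →ₗ[K] V)) (g : G)
    (c : K) (h : ρ g = c • 1) : g ∈ eScal ρ := by
  refine ⟨c, ?_, h⟩
  rintro rfl
  have h1 := e_inv_mul ρ g
  rw [h, zero_smul, mul_zero] at h1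
  exact zero_ne_one h1

theorem e_scal_normal {G : Type v} [Group G] (ρ : G →* (V →ₗ[K] V)) : (eScal ρ).Normal := by
  refine ⟨?_⟩
  rintro s ⟨c, hc0, hc⟩ g
  refine ⟨c, hc0, ?_⟩
  rw [map_mul, map_mul, hc, mul_smul_comm, mul_one, smul_mul_assoc, e_mul_inv]

theorem e_mem_eigen (f : V →ₗ[K] V) (c : K) (v : V) :
    v ∈ Module.End.eigenspace f c ↔ f v = c • v := Module.End.mem_eigenspace_iff

/-- A commuting family has a common eigenvector. -/
theorem e_common [IsAlgClosed K] [FiniteDimensional K V] [Nontrivial V]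
    (A : Set (V →ₗ[K] V)) (hA : ∀ f ∈ A, ∀ g ∈ A, f * g = g * f) :
    ∃ u : V, u ≠ 0 ∧ ∀ f ∈ A, ∃ c : K, f u = c • u := by
  classical
  have hex : ∃ d : ℕ, ∃ U : Submodule K V, U ≠ ⊥ ∧ Module.finrank K U = d ∧
      ∀ f ∈ A, ∀ u ∈ U, f u ∈ U :=
    ⟨_, ⊤, top_ne_bot, rfl, fun _ _ _ _ => Submodule.mem_top⟩
  obtain ⟨U, hU0, hUd, hUA⟩ := Nat.find_spec hex
  have hmin : ∀ U' : Submodule K V, U' ≠ ⊥ → U' ≤ U → (∀ f ∈ A, ∀ u ∈ U', f u ∈ U') →
      U' = U := by
    intro U' h0 hle hinv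
    refine Submodule.eq_of_le_of_finrank_le hle ?_
    rw [hUd]
    exact Nat.find_min' hex ⟨U', h0, rfl, hinv⟩
  obtain ⟨u, huU, hu0⟩ := Submodule.exists_mem_ne_zero_of_ne_bot hU0
  refine ⟨u, hu0, fun f hf => ?_⟩
  have hnt : Nontrivial U := ⟨⟨⟨u, huU⟩, 0, fun h => hu0 (congrArg Subtype.val h)⟩⟩
  obtain ⟨c, hc⟩ := Module.End.exists_eigenvalue (f.restrict (hUA f hf))
  obtain ⟨w, hw⟩ := hc.exists_hasEigenvector
  have hw1 := hw.apply_eq_smul
  have hw2 := hw.2
  have hEU : U ⊓ Module.End.eigenspace f c = U := by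
    apply hmin _ _ inf_le_left
    · intro g hg x hx
      have hx1 := hx.1
      have hx2 := hx.2
      refine ⟨hUA g hg x hx1, ?_⟩
      have hx3 := (e_mem_eigen f c x).1 hx2
      refine (e_mem_eigen f c _).2 ?_
      have h4 := LinearMap.congr_fun (hA f hf g hg) x
      rw [Module.End.mul_apply, Module.End.mul_apply] at h4
      rw [h4, hx3, map_smul]
    · intro hbot
      apply hw2
      have h5 : (w : V) ∈ U ⊓ Module.End.eigenspace f c := by
        refine ⟨w.2, (e_mem_eigen f c _).2 ?_⟩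
        have h6 := congrArg Subtype.val hw1
        exact h6
      rw [hbot, Submodule.mem_bot] at h5
      exact Subtype.ext h5
  have h7 : u ∈ U ⊓ Module.End.eigenspace f c := by rw [hEU]; exact huU
  exact ⟨c, (e_mem_eigen f c _).1 h7.2⟩

/-- Strong irreducibility: no finite index subgroup has a proper nonzero invariant subspace. -/
def EStrong {G : Type v} [Group G] (ρ : G →* (V →ₗ[K] V)) : Prop :=
  ∀ H : Subgroup G, H.FiniteIndex → ∀ W : Submodule K V,
    (∀ h ∈ H, ∀ w ∈ W, ρ h w ∈ W) → W = ⊥ ∨ W = ⊤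

theorem e_abelian [IsAlgClosed K] [FiniteDimensional K V] [Nontrivial V]
    {G : Type v} [Group G] (ρ : G →* (V →ₗ[K] V)) (hirr : EStrong ρ)
    (A : Subgroup G) [hAn : A.Normal] (hA : ∀ a ∈ A, ∀ b ∈ A, ρ a * ρ b = ρ b * ρ a) :
    A ≤ eScal ρ := by
  classical
  obtain ⟨u, hu0, hu⟩ := e_common (ρ '' (A : Set G)) (by
    rintro _ ⟨a, ha, rfl⟩ _ ⟨b, hb, rfl⟩
    exact hA a ha b hb)
  have hχ : ∀ a : G, ∃ c : K, a ∈ A → ρ a u = c • u := by
    intro a
    by_cases ha : a ∈ A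
    · obtain ⟨c, hc⟩ := hu (ρ a) ⟨a, ha, rfl⟩
      exact ⟨c, fun _ => hc⟩
    · exact ⟨0, fun h => absurd h ha⟩
  choose χ hχ using hχ
  -- simultaneous eigenspaces
  let E : (A → K) → Submodule K V := fun ψ => ⨅ a : A, Module.End.eigenspace (ρ a) (ψ a)
  let F : (A → K) → Submodule K V := fun ψ => ⨅ a : A, Module.End.maxGenEigenspace (ρ a) (ψ a)
  have hE : ∀ (ψ : A → K) (x : V), x ∈ E ψ ↔ ∀ a : A, ρ a x = ψ a • x := by
    intro ψ x
    simp only [E, Submodule.mem_iInf, e_mem_eigen]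
  have hEF : ∀ ψ, E ψ ≤ F ψ := by
    intro ψ
    refine iInf_mono fun a => ?_
    exact Module.End.genEigenspace_le_maximal _ _ _
  have hFind : iSupIndep F := by
    apply Module.End.independent_iInf_maxGenEigenspace_of_forall_mapsTo
    intro a b φ
    apply Module.End.mapsTo_maxGenEigenspace_of_comm
    exact hA b b.2 a a.2
  have hfin : {ψ | E ψ ≠ ⊥}.Finite := by
    refine (WellFoundedGT.finite_ne_bot_of_iSupIndep hFind).subset ?_
    intro ψ hψ h
    exact hψ (le_bot_iff.1 (h ▸ hEF ψ))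
  let cj : G → A → A := fun g a => ⟨g⁻¹ * a * g, by
    have := hAn.conj_mem a a.2 g⁻¹
    simpa using this⟩
  let f : G → (A → K) := fun g a => χ (cj g a)
  have hfne : ∀ g, E (f g) ≠ ⊥ := by
    intro g hbot
    have : ρ g u ∈ E (f g) := by
      rw [hE]
      intro a
      have h1 : ρ (a : G) (ρ g u) = ρ g (ρ (g⁻¹ * a * g) u) := by
        rw [← Module.End.mul_apply, ← Module.End.mul_apply, ← map_mul, ← map_mul]
        congr 2
        group
      rw [h1, hχ _ (cj g a).2, map_smul]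
    rw [hbot, Submodule.mem_bot] at this
    have h2 := LinearMap.congr_fun (e_inv_mul ρ g) u
    rw [Module.End.mul_apply, this, map_zero] at h2
    exact hu0 h2.symm
  let H : Subgroup G :=
    { carrier := {g | ∀ a ∈ A, χ (g⁻¹ * a * g) = χ a}
      mul_mem' := by
        intro g h hg hh a ha
        have h1 : (g * h)⁻¹ * a * (g * h) = h⁻¹ * (g⁻¹ * a * g) * h := by group
        have h2 : g⁻¹ * a * g ∈ A := by simpa using hAn.conj_mem a ha g⁻¹
        rw [h1, hh _ h2, hg _ ha]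
      one_mem' := by
        intro a _
        simp
      inv_mem' := by
        intro g hg a ha
        have h2 : g * a * g⁻¹ ∈ A := hAn.conj_mem a ha g
        have h3 := hg _ h2
        have h4 : g⁻¹ * (g * a * g⁻¹) * g = a := by group
        rw [h4] at h3
        rw [h3, inv_inv] }
  have hHfin : H.FiniteIndex := by
    refine e_finiteIndex_of_map H f (hfin.subset ?_) ?_
    · rintro _ ⟨g, rfl⟩
      exact hfne g
    · intro g g' hgg' a ha
      have h2 : g * a * g⁻¹ ∈ A := hAn.conj_mem a ha g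
      have h3 : χ (g⁻¹ * (g * a * g⁻¹) * g) = χ (g'⁻¹ * (g * a * g⁻¹) * g') :=
        congrFun hgg' ⟨_, h2⟩
      have h4 : g⁻¹ * (g * a * g⁻¹) * g = a := by group
      have h5 : (g⁻¹ * g')⁻¹ * a * (g⁻¹ * g') = g'⁻¹ * (g * a * g⁻¹) * g' := by group
      rw [h4] at h3
      rw [h5, ← h3]
  have hinv : ∀ h ∈ H, ∀ w ∈ E (fun a => χ a), ρ h w ∈ E (fun a => χ a) := by
    intro h hh w hw
    rw [hE] at hw ⊢
    intro a
    have h1 : ρ (a : G) (ρ h w) = ρ h (ρ (h⁻¹ * a * h) w) := by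
      rw [← Module.End.mul_apply, ← Module.End.mul_apply, ← map_mul, ← map_mul]
      congr 2
      group
    have h2 : h⁻¹ * a * h ∈ A := by simpa using hAn.conj_mem a a.2 h⁻¹
    have h3 := hw ⟨_, h2⟩
    simp only at h3
    rw [h1, h3, map_smul, hh a a.2]
  have hne : E (fun a => χ a) ≠ ⊥ := by
    intro hbot
    have : u ∈ E (fun a => χ a) := by
      rw [hE]
      intro a
      exact hχ a a.2
    rw [hbot, Submodule.mem_bot] at this
    exact hu0 this
  have htop : E (fun a => χ a) = ⊤ := (hirr H hHfin _ hinv).resolve_left hne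
  intro a ha
  refine e_mem_scal' ρ a (χ a) ?_
  ext x
  have hx : x ∈ E (fun a => χ a) := by rw [htop]; exact Submodule.mem_top
  rw [hE] at hx
  simpa using hx ⟨a, ha⟩

theorem e_det_conj [FiniteDimensional K V] {G : Type v} [Group G] (ρ : G →* (V →ₗ[K] V))
    (b c : G) : LinearMap.det (ρ (b * c * b⁻¹)) = LinearMap.det (ρ c) := by
  have h1 : LinearMap.det (ρ b) * LinearMap.det (ρ b⁻¹) = 1 := by
    rw [← map_mul, e_mul_inv, map_one]
  rw [map_mul, map_mul, map_mul, map_mul]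
  rw [mul_assoc, mul_comm (LinearMap.det (ρ c)), ← mul_assoc, h1, one_mul]

theorem e_det_ne [FiniteDimensional K V] {G : Type v} [Group G] (ρ : G →* (V →ₗ[K] V))
    (b : G) : LinearMap.det (ρ b) ≠ 0 := by
  intro h
  have h1 : LinearMap.det (ρ b) * LinearMap.det (ρ b⁻¹) = 1 := by
    rw [← map_mul, e_mul_inv, map_one]
  rw [h, zero_mul] at h1
  exact zero_ne_one h1

theorem e_roots_finite (n : ℕ) (hn : 0 < n) (a : K) (ha : a ≠ 0) (b : K) :
    {s : K | s ^ n * a = b}.Finite := by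
  classical
  refine ((Polynomial.nthRoots n (b / a)).toFinset.finite_toSet).subset ?_
  intro s hs
  have hs' : s ^ n * a = b := hs
  simp only [Finset.mem_coe, Multiset.mem_toFinset, Polynomial.mem_nthRoots hn]
  rw [eq_div_iff ha]
  exact hs'

theorem e_step [IsAlgClosed K] [FiniteDimensional K V] [Nontrivial V]
    {G : Type v} [Group G] (ρ : G →* (V →ₗ[K] V)) (hirr : EStrong ρ)
    (B : Subgroup G) [hBn : B.Normal] (hB : ⁅B, B⁆ ≤ eScal ρ) :
    B ≤ eScal ρ := by
  classical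
  have hnpos : 0 < Module.finrank K V := Module.finrank_pos
  -- conjugation by elements of `B`
  have hconj : ∀ b ∈ B, ∀ c ∈ B, ∃ s : K, s ^ Module.finrank K V * 1 = 1 ∧
      ρ (b * c * b⁻¹) = s • ρ c := by
    intro b hb c hc
    obtain ⟨s, hs0, hs⟩ := hB (Subgroup.commutator_mem_commutator hb hc)
    have h1 : ρ (b * c * b⁻¹) = s • ρ c := by
      have h2 : b * c * b⁻¹ = ⁅b, c⁆ * c := by rw [commutatorElement_def]; group
      rw [h2, map_mul, hs, smul_mul_assoc, one_mul]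
    refine ⟨s, ?_, h1⟩
    have h3 := e_det_conj ρ b c
    rw [h1, LinearMap.det_smul] at h3
    have h4 : (s ^ Module.finrank K V - 1) * LinearMap.det (ρ c) = 0 := by
      rw [sub_mul, h3, one_mul, sub_self]
    have h5 := (mul_eq_zero.1 h4).resolve_right (e_det_ne ρ c)
    rw [mul_one]
    exact sub_eq_zero.1 h5
  -- a finite spanning set
  obtain ⟨t, ht, hspan, hli⟩ := exists_linearIndependent K (ρ '' (B : Set G))
  have htfin : t.Finite := hli.setFinite
  -- the centre-like subgroup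
  let Z : Subgroup G :=
    { carrier := {z | z ∈ B ∧ ∀ b ∈ B, ρ z * ρ b = ρ b * ρ z}
      mul_mem' := by
        rintro x y ⟨hx, hx'⟩ ⟨hy, hy'⟩
        refine ⟨B.mul_mem hx hy, fun b hb => ?_⟩
        rw [map_mul, mul_assoc, hy' b hb, ← mul_assoc, hx' b hb, mul_assoc]
      one_mem' := ⟨B.one_mem, fun b _ => by rw [map_one, one_mul, mul_one]⟩
      inv_mem' := by
        rintro x ⟨hx, hx'⟩
        refine ⟨B.inv_mem hx, fun b hb => ?_⟩
        calc ρ x⁻¹ * ρ b = ρ x⁻¹ * ρ b * (ρ x * ρ x⁻¹) := by rw [e_mul_inv, mul_one]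
          _ = ρ x⁻¹ * (ρ b * ρ x) * ρ x⁻¹ := by simp only [mul_assoc]
          _ = ρ x⁻¹ * (ρ x * ρ b) * ρ x⁻¹ := by rw [hx' b hb]
          _ = (ρ x⁻¹ * ρ x) * ρ b * ρ x⁻¹ := by simp only [mul_assoc]
          _ = ρ b * ρ x⁻¹ := by rw [e_inv_mul, one_mul] }
  have hZB : Z ≤ B := fun z hz => hz.1
  have hZn : Z.Normal := by
    refine ⟨?_⟩
    rintro z ⟨hz, hz'⟩ g
    refine ⟨hBn.conj_mem z hz g, fun b hb => ?_⟩
    have h1 := hz' (g⁻¹ * b * g) (by simpa using hBn.conj_mem b hb g⁻¹)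
    rw [← map_mul, ← map_mul] at h1
    rw [← map_mul, ← map_mul]
    have h2 : g * z * g⁻¹ * b = g * (z * (g⁻¹ * b * g)) * g⁻¹ := by group
    have h3 : b * (g * z * g⁻¹) = g * ((g⁻¹ * b * g) * z) * g⁻¹ := by group
    rw [h2, h3, map_mul ρ _ g⁻¹, map_mul ρ g, h1, map_mul ρ _ g⁻¹, map_mul ρ g]
  have hZS : Z ≤ eScal ρ := e_abelian ρ hirr Z (fun a ha b hb => ha.2 b hb.1)
  -- `Z` has finite index in `B`
  have hZfin : (Z.subgroupOf B).FiniteIndex := by
    have hex : ∀ (z : B) (x : t), ∃ s : K, s ^ Module.finrank K V * 1 = 1 ∧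
        ρ z * x * ρ (z : G)⁻¹ = s • (x : V →ₗ[K] V) := by
      rintro z ⟨x, hx⟩
      obtain ⟨c, hc, rfl⟩ := ht hx
      obtain ⟨s, hs, hs'⟩ := hconj z z.2 c hc
      exact ⟨s, hs, by rw [← hs', map_mul, map_mul]⟩
    choose f hf1 hf2 using hex
    have : Finite t := htfin.to_subtype
    refine e_finiteIndex_of_map _ f ?_ ?_
    · refine (Set.Finite.pi' (fun _ : t => e_roots_finite (Module.finrank K V) hnpos 1
        one_ne_zero 1)).subset ?_
      rintro _ ⟨z, rfl⟩ x
      exact hf1 z x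
    · intro z z' hzz'
      rw [Subgroup.mem_subgroupOf]
      refine ⟨(z⁻¹ * z').2, ?_⟩
      have hcomm : ∀ x ∈ Submodule.span K t,
          ρ ((z⁻¹ * z' : B) : G) * x = x * ρ ((z⁻¹ * z' : B) : G) := by
        intro x hx
        induction hx using Submodule.span_induction with
        | mem x hx =>
          have h1 := hf2 z ⟨x, hx⟩
          have h2 := hf2 z' ⟨x, hx⟩
          rw [← hzz', ← h1] at h2
          simp only at h2
          have h3 : ρ ((z⁻¹ * z' : B) : G) = ρ (z : G)⁻¹ * ρ z' := by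
            rw [← map_mul]; rfl
          rw [h3]
          calc ρ (z : G)⁻¹ * ρ z' * x
              = ρ (z : G)⁻¹ * (ρ z' * x * ρ (z' : G)⁻¹) * ρ z' := by
                simp only [mul_assoc]; rw [e_inv_mul, mul_one]
            _ = ρ (z : G)⁻¹ * (ρ z * x * ρ (z : G)⁻¹) * ρ z' := by rw [h2]
            _ = (ρ (z : G)⁻¹ * ρ z) * x * (ρ (z : G)⁻¹ * ρ z') := by simp only [mul_assoc]
            _ = x * (ρ (z : G)⁻¹ * ρ z') := by rw [e_inv_mul, one_mul]
        | zero => rw [mul_zero, zero_mul]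
        | add x y _ _ hx hy => rw [mul_add, hx, hy, add_mul]
        | smul c x _ hx => rw [mul_smul_comm, hx, smul_mul_assoc]
      intro b hb
      apply hcomm
      rw [hspan]
      exact Submodule.subset_span ⟨b, hb, rfl⟩
  have := hZfin
  have hQ : Finite (B ⧸ Z.subgroupOf B) := inferInstance
  -- main argument
  intro b hb
  let C : Subgroup G :=
    { carrier := {z | ρ z * ρ b = ρ b * ρ z}
      mul_mem' := by
        intro x y hx hy
        have hx' : ρ x * ρ b = ρ b * ρ x := hx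
        have hy' : ρ y * ρ b = ρ b * ρ y := hy
        show ρ (x * y) * ρ b = ρ b * ρ (x * y)
        rw [map_mul, mul_assoc, hy', ← mul_assoc, hx', mul_assoc]
      one_mem' := by
        show ρ 1 * ρ b = ρ b * ρ 1
        rw [map_one, one_mul, mul_one]
      inv_mem' := by
        intro x hx
        have hx' : ρ x * ρ b = ρ b * ρ x := hx
        show ρ x⁻¹ * ρ b = ρ b * ρ x⁻¹
        calc ρ x⁻¹ * ρ b = ρ x⁻¹ * ρ b * (ρ x * ρ x⁻¹) := by rw [e_mul_inv, mul_one]
          _ = ρ x⁻¹ * (ρ b * ρ x) * ρ x⁻¹ := by simp only [mul_assoc]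
          _ = ρ x⁻¹ * (ρ x * ρ b) * ρ x⁻¹ := by rw [hx']
          _ = (ρ x⁻¹ * ρ x) * ρ b * ρ x⁻¹ := by simp only [mul_assoc]
          _ = ρ b * ρ x⁻¹ := by rw [e_inv_mul, one_mul] }
  have hCfin : C.FiniteIndex := by
    refine e_finiteIndex_of_map C (fun g => ρ (g * b * g⁻¹)) ?_ ?_
    · have hbig : (⋃ q : B ⧸ Z.subgroupOf B,
          (fun s : K => s • ρ ((q.out : B) : G)) ''
            {s : K | s ^ Module.finrank K V * LinearMap.det (ρ ((q.out : B) : G)) =
              LinearMap.det (ρ b)}).Finite := by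
        refine Set.finite_iUnion fun q => Set.Finite.image _ ?_
        exact e_roots_finite _ hnpos _ (e_det_ne ρ _) _
      refine hbig.subset ?_
      rintro _ ⟨g, rfl⟩
      have hgb : g * b * g⁻¹ ∈ B := hBn.conj_mem b hb g
      refine Set.mem_iUnion.2 ⟨QuotientGroup.mk (⟨g * b * g⁻¹, hgb⟩ : B), ?_⟩
      obtain ⟨z, hz⟩ := QuotientGroup.mk_out_eq_mul (Z.subgroupOf B) (⟨g * b * g⁻¹, hgb⟩ : B)
      have hz1 : ((z : B) : G) ∈ Z := z.2
      obtain ⟨s, hs0, hs⟩ := hZS hz1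
      have hz2 : ((QuotientGroup.mk (s := Z.subgroupOf B)
          (⟨g * b * g⁻¹, hgb⟩ : B)).out : G) = g * b * g⁻¹ * z := by
        rw [hz]; rfl
      have hz3 : ρ ((QuotientGroup.mk (s := Z.subgroupOf B)
          (⟨g * b * g⁻¹, hgb⟩ : B)).out : G) = s • ρ (g * b * g⁻¹) := by
        rw [hz2, map_mul, hs, mul_smul_comm, mul_one]
      refine ⟨s⁻¹, ?_, ?_⟩
      · show s⁻¹ ^ Module.finrank K V * _ = _
        rw [hz3, LinearMap.det_smul, ← mul_assoc, ← mul_pow, inv_mul_cancel₀ hs0, one_pow,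
          one_mul, e_det_conj]
      · show s⁻¹ • _ = _
        rw [hz3, smul_smul, inv_mul_cancel₀ hs0, one_smul]
    · intro g g' hgg'
      have h1 : ρ (g * b * g⁻¹) = ρ (g' * b * g'⁻¹) := hgg'
      show ρ (g⁻¹ * g') * ρ b = ρ b * ρ (g⁻¹ * g')
      rw [← map_mul, ← map_mul]
      have h2 : g⁻¹ * g' * b = g⁻¹ * (g' * b * g'⁻¹) * g' := by group
      have h3 : b * (g⁻¹ * g') = g⁻¹ * (g * b * g⁻¹) * g' := by group
      rw [h2, h3, map_mul, map_mul ρ g⁻¹, ← h1, map_mul ρ _ g', map_mul ρ g⁻¹]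
  obtain ⟨c, hc⟩ := Module.End.exists_eigenvalue (ρ b)
  obtain ⟨w, hw⟩ := hc.exists_hasEigenvector
  have hinv : ∀ h ∈ C, ∀ w ∈ Module.End.eigenspace (ρ b) c,
      ρ h w ∈ Module.End.eigenspace (ρ b) c := by
    intro h hh x hx
    rw [e_mem_eigen] at hx ⊢
    have h1 : ρ h * ρ b = ρ b * ρ h := hh
    have h2 := LinearMap.congr_fun h1 x
    rw [Module.End.mul_apply, Module.End.mul_apply] at h2
    rw [← h2, hx, map_smul]
  have htop : Module.End.eigenspace (ρ b) c = ⊤ :=
    (hirr C hCfin _ hinv).resolve_left hc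
  refine e_mem_scal' ρ b c ?_
  ext x
  have hx : x ∈ Module.End.eigenspace (ρ b) c := by rw [htop]; exact Submodule.mem_top
  rw [e_mem_eigen] at hx
  simpa using hx

theorem e_scalar [IsAlgClosed K] [FiniteDimensional K V] [Nontrivial V]
    {G : Type v} [Group G] (hG : Group.IsSolvable G) (ρ : G →* (V →ₗ[K] V))
    (hirr : EStrong ρ) : ∀ g : G, g ∈ eScal ρ := by
  obtain ⟨n, hn⟩ := (Group.isSolvable_def G).1 hG
  have key : ∀ k ≤ n, derivedSeries G (n - k) ≤ eScal ρ := by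
    intro k
    induction k with
    | zero =>
      intro _
      rw [Nat.sub_zero, hn]
      exact bot_le
    | succ k ih =>
      intro hk
      have h1 := ih (by omega)
      have h2 : n - k = (n - (k + 1)) + 1 := by omega
      rw [h2, derivedSeries_succ] at h1
      exact e_step ρ hirr _ h1
  have h := key n le_rfl
  rw [Nat.sub_self, derivedSeries_zero] at h
  intro g
  exact h (Subgroup.mem_top g)

end

/-- Mal'cev: a solvable group acting linearly on a nonzero finite dimensional space over an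
algebraically closed field has a subgroup of finite index with a common eigenvector. -/
theorem exists_eigenvector (K : Type u) [Field K] [IsAlgClosed K] (V : Type u) [AddCommGroup V]
    [Module K V] [FiniteDimensional K V] [Nontrivial V] (G : Type v) [Group G]
    (hG : Group.IsSolvable G) (ρ : G →* (V →ₗ[K] V)) :
    ∃ H : Subgroup G, H.FiniteIndex ∧ ∃ v : V, v ≠ 0 ∧ ∀ h ∈ H, ∃ c : K, ρ h v = c • v := by
  classical
  have hex : ∃ d : ℕ, ∃ (H : Subgroup G) (W : Submodule K V), H.FiniteIndex ∧ W ≠ ⊥ ∧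
      (∀ h ∈ H, ∀ w ∈ W, ρ h w ∈ W) ∧ Module.finrank K W = d :=
    ⟨_, ⊤, ⊤, inferInstance, top_ne_bot, fun _ _ _ _ => Submodule.mem_top, rfl⟩
  obtain ⟨H, W, hHfin, hW0, hinv, hd⟩ := Nat.find_spec hex
  obtain ⟨u, huW, hu0⟩ := Submodule.exists_mem_ne_zero_of_ne_bot hW0
  have hnt : Nontrivial W := ⟨⟨⟨u, huW⟩, 0, fun h => hu0 (congrArg Subtype.val h)⟩⟩
  let σ : H →* (W →ₗ[K] W) :=
    { toFun := fun h => (ρ h).restrict (hinv h h.2)
      map_one' := by
        ext x
        simp [LinearMap.restrict_apply]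
      map_mul' := by
        intro x y
        ext w
        simp [LinearMap.restrict_apply] }
  have hσ : ∀ (h : H) (w : W), ((σ h w : W) : V) = ρ h w := fun h w => rfl
  have hirr : EStrong σ := by
    intro H' hH' W' hW'
    by_contra hcon
    rw [not_or] at hcon
    have h1 : (Submodule.map W.subtype W') ≠ ⊥ := by
      intro h
      apply hcon.1
      rw [eq_bot_iff]
      intro x hx
      have h5 : W.subtype x ∈ Submodule.map W.subtype W' := ⟨x, hx, rfl⟩
      rw [h, Submodule.mem_bot] at h5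
      exact (Submodule.mem_bot K).2 (Subtype.ext h5)
    have h2 : Nat.find hex ≤ Module.finrank K (Submodule.map W.subtype W') := by
      refine Nat.find_min' hex ⟨H'.map H.subtype, _, ?_, h1, ?_, rfl⟩
      · rw [Subgroup.finiteIndex_iff, Subgroup.index_map_subtype]
        exact mul_ne_zero hH'.index_ne_zero hHfin.index_ne_zero
      · rintro _ ⟨h, hh, rfl⟩ _ ⟨w, hw, rfl⟩
        exact ⟨σ h w, hW' h hh w hw, rfl⟩
    rw [Submodule.finrank_map_subtype_eq, ← hd] at h2
    exact hcon.2 (Submodule.eq_top_of_finrank_eq (le_antisymm (Submodule.finrank_le _) h2))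
  have := hG
  have hsc := e_scalar (G := H) (inferInstance : Group.IsSolvable H) σ hirr
  refine ⟨H, hHfin, u, hu0, fun h hh => ?_⟩
  obtain ⟨c, -, hc⟩ := hsc ⟨h, hh⟩
  refine ⟨c, ?_⟩
  have := LinearMap.congr_fun hc ⟨u, huW⟩
  exact congrArg Subtype.val this

end Pool.Agent.W_MP_6f8a18_al
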