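import Pool.Agent.W_MP_6f8a18_al.Defs

/-! From domains to modules: maximal ideals acting nontrivially on finite index submodules. -/

namespace Pool.Agent.W_MP_6f8a18_al

/-- Finite rank for a submodule, with the witnesses taken in the ambient group. -/
def MIFinRk {R A : Type*} [CommRing R] [AddCommGroup A] [Module R A] (B : Submodule R A) : Prop :=
  ∃ F : Finset A, ∀ a ∈ B, ∃ n : ℤ, n ≠ 0 ∧ n • a ∈ Submodule.span ℤ (F : Set A)

theorem mi_top {R A : Type*} [CommRing R] [AddCommGroup A] [Module R A]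
    (h : MIFinRk (⊤ : Submodule R A)) : FinRk A := by
  obtain ⟨F, hF⟩ := h
  exact ⟨F, fun a => hF a trivial⟩

theorem mi_bot {R A : Type*} [CommRing R] [AddCommGroup A] [Module R A] :
    MIFinRk (⊥ : Submodule R A) := by
  refine ⟨∅, fun a ha => ⟨1, one_ne_zero, ?_⟩⟩
  rw [Submodule.mem_bot] at ha
  simp [ha]

theorem mi_finRk_of_finite (A : Type*) [AddCommGroup A] [Finite A] : FinRk A := by
  classical
  have := Fintype.ofFinite A
  exact ⟨Finset.univ, fun a => ⟨1, one_ne_zero, Submodule.subset_span (by simp)⟩⟩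

theorem mi_sup {R A : Type*} [CommRing R] [AddCommGroup A] [Module R A] (B : Submodule R A)
    (hB : MIFinRk B) (P : Ideal R) (a : A) (hP : ∀ r ∈ P, r • a ∈ B) (hR : FinRk (R ⧸ P)) :
    MIFinRk (B ⊔ Submodule.span R {a}) := by
  classical
  obtain ⟨F₀, hF₀⟩ := hB
  obtain ⟨F₁, hF₁⟩ := hR
  choose g hg using Ideal.Quotient.mk_surjective (I := P)
  refine ⟨F₀ ∪ F₁.image (fun f => g f • a), ?_⟩
  intro b hb
  obtain ⟨b₀, hb₀, c, hc, rfl⟩ := Submodule.mem_sup.mp hb
  obtain ⟨r, rfl⟩ := Submodule.mem_span_singleton.mp hc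
  obtain ⟨n, hn, hnr⟩ := hF₁ (Ideal.Quotient.mk P r)
  -- an integer combination of the lifts
  have key : ∀ z ∈ Submodule.span ℤ (F₁ : Set (R ⧸ P)), ∃ s : R, Ideal.Quotient.mk P s = z ∧
      s • a ∈ Submodule.span ℤ ((F₀ ∪ F₁.image (fun f => g f • a) : Finset A) : Set A) := by
    intro z hz
    refine Submodule.span_induction (p := fun z _ => ∃ s : R, Ideal.Quotient.mk P s = z ∧
      s • a ∈ Submodule.span ℤ ((F₀ ∪ F₁.image (fun f => g f • a) : Finset A) : Set A))
      ?_ ?_ ?_ ?_ hz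
    · intro f hf
      refine ⟨g f, hg f, Submodule.subset_span ?_⟩
      simp only [Finset.coe_union, Finset.coe_image, Set.mem_union, Set.mem_image]
      exact Or.inr ⟨f, hf, rfl⟩
    · exact ⟨0, map_zero _, by simp⟩
    · rintro x y _ _ ⟨s, hs, hs'⟩ ⟨t, ht, ht'⟩
      exact ⟨s + t, by rw [map_add, hs, ht], by rw [add_smul]; exact add_mem hs' ht'⟩
    · rintro k x _ ⟨s, hs, hs'⟩
      exact ⟨k • s, by rw [map_zsmul, hs], by rw [smul_assoc]; exact Submodule.smul_mem _ _ hs'⟩
  obtain ⟨s, hs, hs'⟩ := key _ hnr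
  have hmem : (n • r - s) ∈ P := by
    rw [← Ideal.Quotient.eq_zero_iff_mem, map_sub, map_zsmul, hs, sub_self]
  have h1 : n • b₀ + (n • r - s) • a ∈ B :=
    add_mem (by rw [← Int.cast_smul_eq_zsmul R]; exact Submodule.smul_mem _ _ hb₀) (hP _ hmem)
  obtain ⟨m, hm, hm'⟩ := hF₀ _ h1
  refine ⟨m * n, mul_ne_zero hm hn, ?_⟩
  have h2 : (m * n) • (b₀ + r • a) = m • (n • b₀ + (n • r - s) • a) + m • (s • a) := by
    rw [mul_smul, smul_add n, ← smul_assoc n r a, sub_smul, ← smul_add]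
    congr 1
    abel
  rw [h2]
  refine add_mem ?_ (Submodule.smul_mem _ _ hs')
  refine Submodule.span_mono ?_ hm'
  intro x hx
  simp only [Finset.coe_union, Set.mem_union]
  exact Or.inl hx

theorem infinite_maximal (R : Type*) [CommRing R] [Algebra.FiniteType ℤ R] (A : Type*)
    [AddCommGroup A] [Module R A] [Module.Finite R A] (hA : ¬ FinRk A)
    (dom : ∀ (P : Ideal R) [P.IsPrime], ¬ FinRk (R ⧸ P) → ∃ S : Finset ℕ, ∀ p : ℕ, p.Prime → p ∉ S →
      {m : Ideal (R ⧸ P) | m.IsMaximal ∧ (p : R ⧸ P) ∈ m}.Infinite) :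
    ∃ S : Finset ℕ, ∀ p : ℕ, p.Prime → p ∉ S →
      {m : Ideal R | m.IsMaximal ∧ (p : R) ∈ m ∧
        ∀ I : Submodule R A, Finite (A ⧸ I) → m • I ≠ I}.Infinite := by
  classical
  have : IsNoetherianRing R := Algebra.FiniteType.isNoetherianRing ℤ R
  have : IsNoetherian R A := isNoetherian_of_isNoetherianRing_of_finite R A
  obtain ⟨A₀, hA₀, hmax⟩ := set_has_maximal_iff_noetherian.mpr ‹IsNoetherian R A›
    {B : Submodule R A | MIFinRk B} ⟨⊥, mi_bot⟩
  have hne : A₀ ≠ ⊤ := by
    rintro rfl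
    exact hA (mi_top hA₀)
  have : Nontrivial (A ⧸ A₀) := Submodule.Quotient.nontrivial_iff.mpr hne
  obtain ⟨P, hPass⟩ := associatedPrimes.nonempty R (A ⧸ A₀)
  have hPass' : IsAssociatedPrime P (A ⧸ A₀) := hPass
  rw [isAssociatedPrime_iff] at hPass'
  obtain ⟨hPprime, x, hx⟩ := hPass'
  obtain ⟨a, rfl⟩ := Submodule.Quotient.mk_surjective A₀ x
  have hPmem : ∀ r : R, r ∈ P ↔ r • a ∈ A₀ := by
    intro r
    rw [hx]
    simp [Submodule.mem_colon_singleton, ← Submodule.Quotient.mk_smul,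
      Submodule.Quotient.mk_eq_zero]
  have := hPprime
  have hRP : ¬ FinRk (R ⧸ P) := by
    intro h
    have h1 := mi_sup A₀ hA₀ P a (fun r hr => (hPmem r).mp hr) h
    refine hmax _ h1 ?_
    refine lt_of_le_of_ne le_sup_left ?_
    intro heq
    have ha : a ∈ A₀ := by
      rw [heq]
      exact Submodule.mem_sup_right (Submodule.mem_span_singleton_self a)
    apply hPprime.ne_top
    rw [Ideal.eq_top_iff_one, hPmem, one_smul]
    exact ha
  obtain ⟨S, hS⟩ := dom P hRP
  refine ⟨S, fun p hp hpS => ?_⟩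
  have hinf := hS p hp hpS
  have hinj : Function.Injective (Ideal.comap (Ideal.Quotient.mk P)) :=
    Ideal.comap_injective_of_surjective _ Ideal.Quotient.mk_surjective
  refine (hinf.image (hinj.injOn)).mono ?_
  rintro _ ⟨mb, ⟨hmb, hpm⟩, rfl⟩
  set m := Ideal.comap (Ideal.Quotient.mk P) mb with hm
  have := hmb
  have hmmax : m.IsMaximal := Ideal.comap_isMaximal_of_surjective _ Ideal.Quotient.mk_surjective
  have hPm : P ≤ m := by
    intro r hr
    rw [hm, Ideal.mem_comap, Ideal.Quotient.eq_zero_iff_mem.mpr hr]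
    exact zero_mem _
  refine ⟨hmmax, ?_, ?_⟩
  · rw [hm, Ideal.mem_comap, map_natCast]; exact hpm
  · intro I hI hmI
    obtain ⟨r, hr1, hr2⟩ := Submodule.exists_sub_one_mem_and_smul_eq_zero_of_fg_of_le_smul m I
      (IsNoetherian.noetherian I) hmI.ge
    have hrm : r ∉ m := by
      intro h
      apply hmmax.ne_top
      rw [Ideal.eq_top_iff_one]
      have := sub_mem h hr1
      simpa using this
    -- the map d ↦ d • a modulo I ⊔ A₀
    let g : R →ₗ[R] (A ⧸ (I ⊔ A₀)) := (Submodule.mkQ (I ⊔ A₀)).comp (LinearMap.toSpanSingleton R A a)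
    have hker : LinearMap.ker g ≤ P := by
      intro d hd
      have hd1 : d • a ∈ I ⊔ A₀ := by
        have h0 : Submodule.Quotient.mk (d • a) = (0 : A ⧸ (I ⊔ A₀)) := hd
        exact (Submodule.Quotient.mk_eq_zero _).mp h0
      obtain ⟨i, hi, a₀, ha₀, hia⟩ := Submodule.mem_sup.mp hd1
      have h3 : (r * d) • a ∈ A₀ := by
        rw [mul_smul, ← hia, smul_add, hr2 i hi, zero_add]
        exact Submodule.smul_mem _ _ ha₀
      have h4 : r * d ∈ P := (hPmem _).mpr h3
      rcases hPprime.mem_or_mem h4 with h | h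
      · exact absurd (hPm h) hrm
      · exact h
    have : Finite (A ⧸ (I ⊔ A₀)) := by
      refine Finite.of_surjective (Submodule.factor (le_sup_left : I ≤ I ⊔ A₀)) ?_
      exact Submodule.factor_surjective _
    have : Finite (R ⧸ LinearMap.ker g) :=
      Finite.of_injective _ (LinearMap.quotKerEquivRange g).injective
    have : Finite (R ⧸ P) := by
      refine Finite.of_surjective (Submodule.factor hker) ?_
      exact Submodule.factor_surjective _
    exact hRP (mi_finRk_of_finite _)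

end Pool.Agent.W_MP_6f8a18_al
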