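import Pool.Agent.W_MP_6f8a18_al.LowerMain
import Pool.Agent.W_MP_6f8a18_al.Domain
import Pool.Agent.W_MP_6f8a18_al.MaxIdeals

/-!
The lower normal limit: passage to a finite index subgroup.
-/

namespace Pool.Agent.W_MP_6f8a18_al

universe u

theorem minGen_le_of_surjective {A B : Type*} [Group A] [Group B] (f : A →* B)
    (hf : Function.Surjective f) : minGen B ≤ minGen A := by
  refine le_iInf fun S => ?_
  have h : Subgroup.closure (f '' (S : Set A)) = ⊤ := by
    rw [← MonoidHom.map_closure, S.2, ← MonoidHom.range_eq_map, MonoidHom.range_eq_top.2 hf]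
  exact (iInf_le _ (⟨f '' (S : Set A), h⟩ : {S : Set B // Subgroup.closure S = ⊤})).trans
    (Set.encard_image_le _ _)

theorem map_powComm_le (p : ℕ) {A B : Type*} [Group A] [Group B] (f : A →* B) :
    powComm p A ≤ (powComm p B).comap f := by
  refine sup_le ?_ ?_
  · rw [commutator_def, Subgroup.commutator_le]
    intro a _ b _
    rw [Subgroup.mem_comap, map_commutatorElement]
    exact Subgroup.mem_sup_left (Subgroup.commutator_mem_commutator (Subgroup.mem_top _)
      (Subgroup.mem_top _))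
  · rw [Subgroup.closure_le]
    rintro _ ⟨y, rfl⟩
    change f (y ^ p) ∈ powComm p B
    rw [map_pow]
    exact Subgroup.mem_sup_right (Subgroup.subset_closure ⟨f y, rfl⟩)

theorem dp_le_of_surjective (p : ℕ) {A B : Type*} [Group A] [Group B] (f : A →* B)
    (hf : Function.Surjective f) : dp p B ≤ dp p A := by
  refine minGen_le_of_surjective (QuotientGroup.map _ _ f (map_powComm_le p f)) ?_
  intro b
  obtain ⟨b, rfl⟩ := QuotientGroup.mk_surjective b
  obtain ⟨a, rfl⟩ := hf b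
  exact ⟨QuotientGroup.mk a, rfl⟩

theorem maximal_quotient (R : Type u) [CommRing R] [Algebra.FiniteType ℤ R] (P : Ideal R)
    [P.IsPrime] (hP : ¬ FinRk (R ⧸ P)) : ∃ S : Finset ℕ, ∀ p : ℕ, p.Prime → p ∉ S →
      {m : Ideal (R ⧸ P) | m.IsMaximal ∧ (p : R ⧸ P) ∈ m}.Infinite := by
  have h1 : @Algebra.FiniteType ℤ (R ⧸ P) _ _ (Ring.toIntAlgebra (R ⧸ P)) := by
    have h3 : Algebra.FiniteType ℤ (R ⧸ P) :=
      Algebra.FiniteType.of_surjective (Ideal.Quotient.mkₐ ℤ P)
        (Ideal.Quotient.mkₐ_surjective ℤ P)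
    have h4 : ∀ I J : Algebra ℤ (R ⧸ P), I = J := fun I J => Subsingleton.elim I J
    rw [h4 (Ring.toIntAlgebra (R ⧸ P))]
    exact h3
  exact infinite_maximal_domain (R ⧸ P) hP

/-- If some subgroup `H` of finite index of a finitely generated group has `H'/H''` of infinite
rank, then the lower normal limit of `d_p` is infinite for almost all primes. -/
theorem NL_eq_top (Γ : Type u) [Group Γ] [Group.FG Γ] (H : Subgroup Γ) (hH : H.FiniteIndex)
    (hr : ¬ FinRk (Kab H)) :
    ∃ S : Finset ℕ, ∀ p : ℕ, p.Prime → p ∉ S → NL p Γ = ⊤ := by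
  have hfg : Group.FG H := inferInstance
  obtain ⟨S, hS⟩ := lower_subgroup (G := H) (infinite_maximal (RQ H) (Kab H) hr
    (fun P _ hP => maximal_quotient (RQ H) P hP))
  refine ⟨S, fun p hp hpS => ?_⟩
  rw [ENat.eq_top_iff_forall_ge]
  intro C
  obtain ⟨M₀, hM₀, h⟩ := hS p hp hpS C
  have hM₁ : (M₀.map H.subtype).FiniteIndex := by
    refine ⟨?_⟩
    rw [Subgroup.index_map_subtype]
    exact mul_ne_zero hM₀.index_ne_zero hH.index_ne_zero
  let M : {M : Subgroup Γ // M.Normal ∧ M.FiniteIndex} :=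
    ⟨(M₀.map H.subtype).normalCore, inferInstance, inferInstance⟩
  refine le_trans ?_ (le_iSup _ M)
  refine le_iInf fun N => ?_
  obtain ⟨N, hN, hNf, hNM⟩ := N
  have hNle : N ≤ M₀.map H.subtype := hNM.trans (Subgroup.normalCore_le _)
  have hNH : N ≤ H := hNle.trans (Subgroup.map_subtype_le _)
  have h1 : N.subgroupOf H ≤ M₀ := by
    intro x hx
    obtain ⟨y, hy, hyx⟩ := hNle (Subgroup.mem_subgroupOf.1 hx)
    have : y = x := Subtype.ext hyx
    exact this ▸ hy
  have h2 := h (N.subgroupOf H) inferInstance inferInstance h1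
  exact h2.trans (dp_le_of_surjective p (Subgroup.subgroupOfEquivOfLe hNH).symm.toMonoidHom
    (Subgroup.subgroupOfEquivOfLe hNH).symm.surjective)

open scoped TensorProduct in
theorem finite_tensor_of_finRk (A : Type*) [AddCommGroup A] (h : FinRk A) :
    Module.Finite ℚ (ℚ ⊗[ℤ] A) := by
  classical
  obtain ⟨F, hF⟩ := h
  refine ⟨⟨F.image fun a => (1 : ℚ) ⊗ₜ[ℤ] a, ?_⟩⟩
  rw [Submodule.eq_top_iff']
  intro t
  induction t using TensorProduct.induction_on with
  | zero => exact zero_mem _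
  | add x y hx hy => exact add_mem hx hy
  | tmul q a =>
    obtain ⟨n, hn, hna⟩ := hF a
    have h1 : ∀ b ∈ Submodule.span ℤ (F : Set A), (1 : ℚ) ⊗ₜ[ℤ] b ∈
        Submodule.span ℚ ((F.image fun a => (1 : ℚ) ⊗ₜ[ℤ] a : Finset (ℚ ⊗[ℤ] A)) :
          Set (ℚ ⊗[ℤ] A)) := by
      intro b hb
      refine Submodule.span_induction (p := fun b _ => (1 : ℚ) ⊗ₜ[ℤ] b ∈
        Submodule.span ℚ ((F.image fun a => (1 : ℚ) ⊗ₜ[ℤ] a : Finset (ℚ ⊗[ℤ] A)) :
          Set (ℚ ⊗[ℤ] A))) ?_ ?_ ?_ ?_ hb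
      · intro x hx
        exact Submodule.subset_span (by simpa using ⟨x, hx, rfl⟩)
      · rw [TensorProduct.tmul_zero]; exact zero_mem _
      · intro x y _ _ hx hy
        rw [TensorProduct.tmul_add]; exact add_mem hx hy
      · intro c x _ hx
        rw [← TensorProduct.smul_tmul, zsmul_eq_mul, mul_one]
        have : ((c : ℚ) ⊗ₜ[ℤ] x : ℚ ⊗[ℤ] A) = (c : ℚ) • ((1 : ℚ) ⊗ₜ[ℤ] x) := by
          rw [TensorProduct.smul_tmul', smul_eq_mul, mul_one]
        rw [this]
        exact Submodule.smul_mem _ _ hx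
    have h2 : (q ⊗ₜ[ℤ] a : ℚ ⊗[ℤ] A) = (q / n) • ((1 : ℚ) ⊗ₜ[ℤ] (n • a)) := by
      rw [← TensorProduct.smul_tmul, TensorProduct.smul_tmul', smul_eq_mul, zsmul_eq_mul, mul_one]
      congr 1
      have : (n : ℚ) ≠ 0 := by exact_mod_cast hn
      field_simp
    rw [h2]
    exact Submodule.smul_mem _ _ (h1 _ hna)

end Pool.Agent.W_MP_6f8a18_al
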