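import Pool.Agent.W_MP_6f8a18_al.Defs

/-!
The abelianization of the commutator subgroup `K` of `G` as a module over the integral group ring
of the abelianization of `G`.
-/

namespace Pool.Agent.W_MP_6f8a18_al

open scoped commutatorElement

universe u

variable (G : Type u) [Group G]

/-- The abelianization of the commutator subgroup, written additively. -/
abbrev Kab : Type u := Additive (Abelianization (commutator G))

/-- The integral group ring of the abelianization. -/
abbrev RQ : Type u := MonoidAlgebra ℤ (Abelianization G)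

variable {G}

/-- The class of an element of the commutator subgroup. -/
def cls (x : commutator G) : Kab G := Additive.ofMul (Abelianization.of x)

theorem cls_mul (x y : commutator G) : cls (x * y) = cls x + cls y := rfl

theorem cls_inv (x : commutator G) : cls x⁻¹ = - cls x := rfl

theorem cls_one : cls (1 : commutator G) = 0 := rfl

theorem cls_surj : Function.Surjective (cls : commutator G → Kab G) := by
  intro a
  obtain ⟨x, hx⟩ := QuotientGroup.mk_surjective (s := commutator (commutator G)) (Additive.toMul a)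
  exact ⟨x, hx⟩

/-- Conjugation by `g` on the commutator subgroup. -/
def conjK (g : G) : commutator G →* commutator G := (MulAut.conjNormal g).toMonoidHom

theorem conjK_coe (g : G) (x : commutator G) : (conjK g x : G) = g * x * g⁻¹ := by
  exact MulAut.conjNormal_apply g x

theorem cls_conj_K (g : G) (hg : g ∈ commutator G) (x : commutator G) :
    cls (conjK g x) = cls x := by
  have h : conjK g x = (⟨g, hg⟩ : commutator G) * x * (⟨g, hg⟩ : commutator G)⁻¹ := by
    apply Subtype.ext
    rw [conjK_coe]; rfl
  rw [h, cls_mul, cls_mul, cls_inv]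
  abel

/-- The action of `G` on `Kab G`. -/
def act : G →* AddMonoid.End (Kab G) where
  toFun g := MonoidHom.toAdditive (Abelianization.map (conjK g))
  map_one' := by
    ext a
    obtain ⟨x, rfl⟩ := cls_surj a
    change cls (conjK 1 x) = cls x
    congr 1
    apply Subtype.ext
    rw [conjK_coe]; simp
  map_mul' g h := by
    ext a
    obtain ⟨x, rfl⟩ := cls_surj a
    change cls (conjK (g * h) x) = cls (conjK g (conjK h x))
    congr 1
    apply Subtype.ext
    rw [conjK_coe, conjK_coe, conjK_coe]; group

theorem act_cls (g : G) (x : commutator G) : act g (cls x) = cls (conjK g x) := rfl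

/-- The action of the abelianization. -/
def actQ : Abelianization G →* AddMonoid.End (Kab G) :=
  QuotientGroup.lift (commutator G) act (by
    intro g hg
    rw [MonoidHom.mem_ker]
    ext a
    obtain ⟨x, rfl⟩ := cls_surj a
    exact cls_conj_K g hg x)

theorem actQ_of (g : G) : actQ (Abelianization.of g) = act g := rfl

/-- The ring action. -/
noncomputable def actR : RQ G →ₐ[ℤ] AddMonoid.End (Kab G) :=
  MonoidAlgebra.lift ℤ (AddMonoid.End (Kab G)) (Abelianization G) actQ

noncomputable instance : Module (RQ G) (Kab G) := Module.compHom (Kab G) (actR (G := G)).toRingHom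

theorem single_smul_cls (g : G) (x : commutator G) :
    (MonoidAlgebra.single (Abelianization.of g) (1 : ℤ) : RQ G) • cls x = cls (conjK g x) := by
  change (actR (MonoidAlgebra.single (Abelianization.of g) (1 : ℤ))) (cls x) = _
  unfold actR
  rw [MonoidAlgebra.lift_single, one_smul, actQ_of]
  rfl

instance rq_finiteType [Group.FG G] :
    @Algebra.FiniteType ℤ (RQ G) _ _ (Ring.toIntAlgebra (RQ G)) := by
  have h1 : Group.FG (Abelianization G) := QuotientGroup.fg (commutator G)
  have h2 : Monoid.FG (Abelianization G) := Group.fg_iff_monoid_fg.1 h1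
  have h3 : Algebra.FiniteType ℤ (RQ G) := MonoidAlgebra.finiteType_of_fg
  have h4 : ∀ I J : Algebra ℤ (RQ G), I = J := fun I J => Subsingleton.elim I J
  rw [h4 (Ring.toIntAlgebra (RQ G))]
  exact h3

theorem smul_cls_mem (W : Submodule (RQ G) (Kab G)) (g : G) (x : commutator G) (hx : cls x ∈ W) :
    cls (conjK g x) ∈ W := by
  rw [← single_smul_cls]
  exact W.smul_mem _ hx

/-- The subgroup of the elements of the commutator subgroup with class in `W`. -/
def subOf (W : Submodule (RQ G) (Kab G)) : Subgroup G where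
  carrier := {g | ∃ h : g ∈ commutator G, cls ⟨g, h⟩ ∈ W}
  one_mem' := ⟨one_mem _, by
    have : (⟨1, one_mem _⟩ : commutator G) = 1 := rfl
    rw [this, cls_one]; exact W.zero_mem⟩
  mul_mem' := by
    rintro a b ⟨ha, ha'⟩ ⟨hb, hb'⟩
    refine ⟨mul_mem ha hb, ?_⟩
    have : (⟨a * b, mul_mem ha hb⟩ : commutator G) = ⟨a, ha⟩ * ⟨b, hb⟩ := rfl
    rw [this, cls_mul]
    exact W.add_mem ha' hb'
  inv_mem' := by
    rintro a ⟨ha, ha'⟩
    refine ⟨inv_mem ha, ?_⟩
    have : (⟨a⁻¹, inv_mem ha⟩ : commutator G) = ⟨a, ha⟩⁻¹ := rfl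
    rw [this, cls_inv]
    exact W.neg_mem ha'

instance subOf_normal (W : Submodule (RQ G) (Kab G)) : (subOf W).Normal := by
  constructor
  rintro a ⟨ha, ha'⟩ g
  have h1 : g * a * g⁻¹ ∈ commutator G := (inferInstance : (commutator G).Normal).conj_mem a ha g
  refine ⟨h1, ?_⟩
  have : (⟨g * a * g⁻¹, h1⟩ : commutator G) = conjK g ⟨a, ha⟩ := by
    apply Subtype.ext
    rw [conjK_coe]
  rw [this]
  exact smul_cls_mem W g _ ha'

theorem commutator_le_of_gens (L : Subgroup G) [L.Normal] (S : Set G)
    (hS : Subgroup.closure S = ⊤) (h : ∀ s ∈ S, ∀ t ∈ S, ⁅s, t⁆ ∈ L) : commutator G ≤ L := by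
  have hn : L.Normal := inferInstance
  have gen : ∀ b : G, (∀ s ∈ S, ⁅s, b⁆ ∈ L) → ∀ a : G, ⁅a, b⁆ ∈ L := by
    intro b hb a
    have ha : a ∈ Subgroup.closure S := by rw [hS]; trivial
    refine Subgroup.closure_induction (p := fun a _ => ⁅a, b⁆ ∈ L) ?_ ?_ ?_ ?_ ha
    · intro x hx
      exact hb x hx
    · simp [one_mem]
    · intro x y _ _ hx hy
      have : ⁅x * y, b⁆ = x * ⁅y, b⁆ * x⁻¹ * ⁅x, b⁆ := by
        simp only [commutatorElement_def]; group
      rw [this]
      exact mul_mem (hn.conj_mem _ hy x) hx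
    · intro x _ hx
      have : ⁅x⁻¹, b⁆ = x⁻¹ * ⁅x, b⁆⁻¹ * (x⁻¹)⁻¹ := by
        simp only [commutatorElement_def]; group
      rw [this]
      exact hn.conj_mem _ (inv_mem hx) _
  rw [commutator_def, Subgroup.commutator_le]
  intro a _ b _
  refine gen b (fun s hs => ?_) a
  have h2 := gen s (fun t ht => h t ht s hs) b
  rw [← commutatorElement_inv]
  exact inv_mem h2

instance kab_finite [hG : Group.FG G] : Module.Finite (RQ G) (Kab G) := by
  classical
  obtain ⟨S, hS⟩ := hG.out
  let T : Finset (Kab G) := (S ×ˢ S).image fun st =>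
    cls ⟨⁅st.1, st.2⁆, Subgroup.commutator_mem_commutator (Subgroup.mem_top _)
      (Subgroup.mem_top _)⟩
  refine ⟨⟨T, ?_⟩⟩
  rw [Submodule.eq_top_iff']
  intro a
  obtain ⟨x, rfl⟩ := cls_surj a
  have hx : (x : G) ∈ subOf (Submodule.span (RQ G) (T : Set (Kab G))) := by
    refine commutator_le_of_gens _ (S : Set G) hS ?_ x.2
    intro s hs t ht
    refine ⟨Subgroup.commutator_mem_commutator (Subgroup.mem_top _) (Subgroup.mem_top _), ?_⟩
    refine Submodule.subset_span ?_
    simp only [T, Finset.coe_image, Set.mem_image, Finset.mem_coe, Finset.mem_product]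
    exact ⟨(s, t), ⟨hs, ht⟩, rfl⟩
  obtain ⟨h1, h2⟩ := hx
  exact h2

end Pool.Agent.W_MP_6f8a18_al
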