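import Pool.Agent.W_MP_6f8a18_al.Cong

/-!
Infinitely many congruence layers make the lower normal limit infinite.
-/

namespace Pool.Agent.W_MP_6f8a18_al

universe u v

theorem layers_one_add_pow {A : Type v} [CommRing A] {n : ℕ} (Y : Matrix (Fin n) (Fin n) A)
    (t : ℕ) : ∃ Z : Matrix (Fin n) (Fin n) A, (1 + Y) ^ t = 1 + (t : A) • Y + Y * Y * Z := by
  induction t with
  | zero => exact ⟨0, by simp⟩
  | succ t ih =>
    obtain ⟨Z, hZ⟩ := ih
    refine ⟨(t : A) • 1 + Z + Z * Y, ?_⟩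
    rw [pow_succ, hZ]
    simp only [Nat.cast_add, Nat.cast_one, add_smul, one_smul, mul_add, add_mul, mul_one,
      one_mul, smul_mul_assoc, mul_smul_comm, mul_assoc]
    abel

theorem layers_mul_mem {A : Type v} [CommRing A] {n : ℕ} (Y Z : Matrix (Fin n) (Fin n) A)
    (J : Ideal A) (hY : ∀ i j, Y i j ∈ J) (i j : Fin n) : (Y * Y * Z) i j ∈ J * J := by
  rw [Matrix.mul_apply]
  refine Ideal.sum_mem _ fun l _ => ?_
  refine Ideal.mul_mem_right _ _ ?_
  rw [Matrix.mul_apply]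
  exact Ideal.sum_mem _ fun m _ => Ideal.mul_mem_mul (hY _ _) (hY _ _)

/-- Expansion of a power of an element of a congruence subgroup. -/
theorem layers_pow {Γ : Type u} [Group Γ] {A : Type v} [CommRing A] {n : ℕ}
    (ρ : Γ →* GL (Fin n) A) (J : Ideal A) (g : Γ) (hg : g ∈ cong ρ J) (t : ℕ) (i j : Fin n) :
    ((ρ (g ^ t)).val i j - (1 : Matrix (Fin n) (Fin n) A) i j) -
      (t : A) * ((ρ g).val i j - (1 : Matrix (Fin n) (Fin n) A) i j) ∈ J * J := by
  rw [mem_cong] at hg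
  obtain ⟨Z, hZ⟩ := layers_one_add_pow ((ρ g).val - 1) t
  have h1 : (ρ (g ^ t)).val = (1 + ((ρ g).val - 1)) ^ t := by
    rw [map_pow, Units.val_pow_eq_pow_val]
    congr 1
    abel
  rw [h1, hZ]
  have h2 := layers_mul_mem ((ρ g).val - 1) Z J (fun a b => by simpa using hg a b) i j
  simp only [Matrix.add_apply, Matrix.smul_apply, Matrix.sub_apply, smul_eq_mul] at h2 ⊢
  convert h2 using 1
  ring

theorem layers_finiteIndex {Γ : Type u} [Group Γ] {A : Type v} [CommRing A] {n : ℕ}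
    (ρ : Γ →* GL (Fin n) A) (J : Ideal A) (hJ : Finite (A ⧸ J)) : (cong ρ J).FiniteIndex := by
  unfold cong
  have : Finite (Matrix (Fin n) (Fin n) (A ⧸ J)) := inferInstance
  have : Finite (GL (Fin n) (A ⧸ J)) := inferInstance
  infer_instance

theorem cong_mono {Γ : Type u} [Group Γ] {A : Type v} [CommRing A] {n : ℕ}
    (ρ : Γ →* GL (Fin n) A) {J J' : Ideal A} (h : J ≤ J') : cong ρ J ≤ cong ρ J' := by
  intro g hg
  rw [mem_cong] at hg ⊢
  exact fun i j => h (hg i j)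

/-- `p`-th powers go deeper into the congruence filtration. -/
theorem layers_pow_p {Γ : Type u} [Group Γ] {A : Type v} [CommRing A] {n : ℕ}
    (ρ : Γ →* GL (Fin n) A) (I : Ideal A) (p : ℕ) (i : ℕ) (hi : 1 ≤ i) (x : Γ)
    (hx : x ∈ cong ρ (I ⊔ Ideal.span {(p : A) ^ i})) :
    x ^ p ∈ cong ρ (I ⊔ Ideal.span {(p : A) ^ (i + 1)}) := by
  have h1 := layers_pow ρ _ x hx p
  rw [mem_cong] at hx ⊢
  intro a b
  have h2 : (I ⊔ Ideal.span {(p : A) ^ i}) * (I ⊔ Ideal.span {(p : A) ^ i}) ≤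
      I ⊔ Ideal.span {(p : A) ^ (i + 1)} := by
    rw [Ideal.mul_le]
    intro r hr s hs
    obtain ⟨y1, hy1, z1, hz1, rfl⟩ := Submodule.mem_sup.mp hr
    obtain ⟨w1, rfl⟩ := Ideal.mem_span_singleton.mp hz1
    obtain ⟨y2, hy2, z2, hz2, rfl⟩ := Submodule.mem_sup.mp hs
    obtain ⟨w2, rfl⟩ := Ideal.mem_span_singleton.mp hz2
    have h5 : (y1 + (p : A) ^ i * w1) * (y2 + (p : A) ^ i * w2) =
        ((y2 + (p : A) ^ i * w2) * y1 + (p : A) ^ i * w1 * y2) +
          (p : A) ^ (i + 1) * ((p : A) ^ (i - 1) * w1 * w2) := by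
      have h6 : (p : A) ^ i * (p : A) ^ i = (p : A) ^ (i + 1) * (p : A) ^ (i - 1) := by
        rw [← pow_add, ← pow_add]
        congr 1
        omega
      linear_combination (w1 * w2) * h6
    rw [h5]
    refine Ideal.add_mem _ (Ideal.mem_sup_left (Ideal.add_mem _ (Ideal.mul_mem_left _ _ hy1)
      (Ideal.mul_mem_left _ _ hy2))) (Ideal.mem_sup_right ?_)
    exact Ideal.mem_span_singleton.mpr ⟨_, rfl⟩
  have h3 : (p : A) * ((ρ x).val a b - (1 : Matrix (Fin n) (Fin n) A) a b) ∈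
      I ⊔ Ideal.span {(p : A) ^ (i + 1)} := by
    obtain ⟨y, hy, z, hz, hyz⟩ := Submodule.mem_sup.mp (hx a b)
    obtain ⟨w, rfl⟩ := Ideal.mem_span_singleton.mp hz
    rw [← hyz, mul_add]
    refine Ideal.add_mem _ (Ideal.mem_sup_left (Ideal.mul_mem_left _ _ hy))
      (Ideal.mem_sup_right ?_)
    rw [Ideal.mem_span_singleton]
    exact ⟨w, by ring⟩
  have h4 := Ideal.add_mem _ (h2 (h1 a b)) h3
  simpa using h4

theorem layers_pow_pow {Γ : Type u} [Group Γ] {A : Type v} [CommRing A] {n : ℕ}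
    (ρ : Γ →* GL (Fin n) A) (I : Ideal A) (p : ℕ) (x : Γ)
    (hx : x ∈ cong ρ (I ⊔ Ideal.span {(p : A)})) (i : ℕ) :
    x ^ p ^ i ∈ cong ρ (I ⊔ Ideal.span {(p : A) ^ (i + 1)}) := by
  induction i with
  | zero => simpa using hx
  | succ i ih =>
    rw [pow_succ p i, pow_mul]
    exact layers_pow_p ρ I p (i + 1) (by omega) _ ih

/-- The order of an element outside the next layer grows with the modulus. -/
theorem layers_order {Γ : Type u} [Group Γ] {A : Type v} [CommRing A] {n : ℕ}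
    (ρ : Γ →* GL (Fin n) A) (J J' : Ideal A) (hJ : J * J ≤ J') (p : ℕ) [hp : Fact p.Prime]
    (htf : ∀ (e : ℤ) (x : A), e ≠ 0 → (e : A) * x ∈ J' → x ∈ J')
    (h : Γ) (hh : h ∈ cong ρ J) (a b : Fin n) (c j t : ℕ)
    (hx : (ρ h).val a b - (1 : Matrix (Fin n) (Fin n) A) a b ∉ J' ⊔ Ideal.span {(p : A) ^ c})
    (ht : t ≠ 0) (hmem : h ^ t ∈ cong ρ (J' ⊔ Ideal.span {(p : A) ^ j})) :
    p ^ (j - c) ≤ t := by
  by_contra hlt
  rw [not_le] at hlt
  set x := (ρ h).val a b - (1 : Matrix (Fin n) (Fin n) A) a b with hxdef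
  have h1 : (t : A) * x ∈ J' ⊔ Ideal.span {(p : A) ^ j} := by
    have h2 := Ideal.mem_sup_left (T := Ideal.span {(p : A) ^ j}) (hJ (layers_pow ρ J h hh t a b))
    have h3 := (mem_cong ρ _ _).mp hmem a b
    have h4 := Ideal.sub_mem _ h3 h2
    simpa using h4
  obtain ⟨v, t', ht', rfl⟩ := Nat.exists_eq_pow_mul_and_not_dvd ht p hp.out.ne_one
  have ht'0 : t' ≠ 0 := by
    rintro rfl
    simp at ht
  have hv : v < j - c := by
    by_contra hv
    rw [not_lt] at hv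
    have : p ^ (j - c) ≤ p ^ v * t' :=
      (Nat.pow_le_pow_right hp.out.pos hv).trans (Nat.le_mul_of_pos_right _ (by omega))
    omega
  obtain ⟨y, hy, z, hz, hyz⟩ := Submodule.mem_sup.mp h1
  obtain ⟨w, rfl⟩ := Ideal.mem_span_singleton.mp hz
  have h5 : (t' : A) * x - (p : A) ^ (j - v) * w ∈ J' := by
    refine htf ((p : ℤ) ^ v) _ (pow_ne_zero _ (by exact_mod_cast hp.out.ne_zero)) ?_
    have h6 : (p : A) ^ j = (p : A) ^ v * (p : A) ^ (j - v) := by
      rw [← pow_add]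
      congr 1
      omega
    have h7 : (((p : ℤ) ^ v : ℤ) : A) * ((t' : A) * x - (p : A) ^ (j - v) * w) = y := by
      push_cast
      push_cast at hyz
      rw [mul_sub, ← mul_assoc, ← hyz, h6]
      ring
    rw [h7]
    exact hy
  have hcop : IsCoprime (t' : ℤ) ((p : ℤ) ^ (j - v)) := by
    apply IsCoprime.pow_right
    rw [Nat.isCoprime_iff_coprime]
    exact ((Nat.Prime.coprime_iff_not_dvd hp.out).mpr ht').symm
  obtain ⟨α, β, hαβ⟩ := hcop
  have h8 : x = (α : A) * ((t' : A) * x - (p : A) ^ (j - v) * w) +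
      (p : A) ^ (j - v) * ((α : A) * w + (β : A) * x) := by
    have h9 : (α : A) * (t' : A) + (β : A) * (p : A) ^ (j - v) = 1 := by
      have := congrArg (fun z : ℤ => (z : A)) hαβ
      push_cast at this
      exact this
    linear_combination (-x) * h9
  apply hx
  rw [h8]
  refine Ideal.add_mem _ (Ideal.mem_sup_left (Ideal.mul_mem_left _ _ h5))
    (Ideal.mem_sup_right ?_)
  rw [Ideal.mem_span_singleton]
  exact Dvd.dvd.mul_right (pow_dvd_pow _ (by omega)) _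

/-- Lower bound for the index of a deep congruence subgroup, going down layer by layer. -/
theorem layers_index {Γ : Type u} [Group Γ] {A : Type v} [CommRing A] {n : ℕ}
    (ρ : Γ →* GL (Fin n) A) (I : ℕ → Ideal A) (hI : Antitone I)
    (hmul : ∀ i, 1 ≤ i → I i * I i ≤ I (i + 1)) (p : ℕ) [hp : Fact p.Prime]
    (htf : ∀ (k : ℕ) (e : ℤ) (x : A), e ≠ 0 → (e : A) * x ∈ I k → x ∈ I k)
    (hfin : ∀ k j : ℕ, Finite (A ⧸ (I k ⊔ Ideal.span {(p : A) ^ j})))
    (N : Subgroup Γ) [N.Normal] [N.FiniteIndex] (S : Finset ℕ) (hS : ∀ i ∈ S, 1 ≤ i)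
    (c : ℕ) (hc : ∀ i ∈ S, ∃ h ∈ N, h ∈ cong ρ (I i) ∧ ∃ a b,
      (ρ h).val a b - (1 : Matrix (Fin n) (Fin n) A) a b ∉ I (i + 1) ⊔ Ideal.span {(p : A) ^ c})
    (j : ℕ) (m : ℕ) :
    (p ^ (j - c)) ^ (S.filter (· < m)).card ≤
      (N ⊓ cong ρ (I m ⊔ Ideal.span {(p : A) ^ j})).relIndex N := by
  have hGfin : ∀ i, (N ⊓ cong ρ (I i ⊔ Ideal.span {(p : A) ^ j})).FiniteIndex := by
    intro i
    have := layers_finiteIndex ρ _ (hfin i j)
    infer_instance
  have hne : ∀ (H K : Subgroup Γ), H.FiniteIndex → H.relIndex K ≠ 0 := by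
    intro H K hH
    have : (H.subgroupOf K).FiniteIndex := inferInstance
    exact this.index_ne_zero
  have hG : ∀ i, N ⊓ cong ρ (I (i + 1) ⊔ Ideal.span {(p : A) ^ j}) ≤
      N ⊓ cong ρ (I i ⊔ Ideal.span {(p : A) ^ j}) := fun i =>
    inf_le_inf_left _ (cong_mono ρ (sup_le_sup_right (hI (Nat.le_succ i)) _))
  induction m with
  | zero =>
    simp only [Nat.not_lt_zero, Finset.filter_false, Finset.card_empty, pow_zero]
    exact Nat.one_le_iff_ne_zero.mpr (hne _ _ (hGfin 0))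
  | succ m ih =>
    rw [← Subgroup.relIndex_mul_relIndex _ _ _ (hG m) inf_le_left]
    by_cases hm : m ∈ S
    · have hcard : (S.filter (· < m + 1)).card = (S.filter (· < m)).card + 1 := by
        have : S.filter (· < m + 1) = insert m (S.filter (· < m)) := by
          ext z
          simp only [Finset.mem_filter, Finset.mem_insert]
          constructor
          · rintro ⟨h1, h2⟩
            rcases Nat.lt_succ_iff_lt_or_eq.mp h2 with h3 | h3
            · exact Or.inr ⟨h1, h3⟩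
            · exact Or.inl h3
          · rintro (h1 | ⟨h1, h2⟩)
            · exact ⟨h1 ▸ hm, by omega⟩
            · exact ⟨h1, by omega⟩
        rw [this, Finset.card_insert_of_notMem (by simp)]
      rw [hcard, pow_succ, mul_comm]
      refine Nat.mul_le_mul ?_ ih
      obtain ⟨h, hhN, hhI, a, b, hab⟩ := hc m hm
      set G := N ⊓ cong ρ (I m ⊔ Ideal.span {(p : A) ^ j}) with hGdef
      set G' := N ⊓ cong ρ (I (m + 1) ⊔ Ideal.span {(p : A) ^ j}) with hGdef'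
      have hhG : h ∈ G := ⟨hhN, cong_mono ρ le_sup_left hhI⟩
      have hG'n : (G'.subgroupOf G).Normal := inferInstance
      have hpow : h ^ (G'.relIndex G) ∈ G' := by
        have := Subgroup.pow_index_mem (G'.subgroupOf G) (⟨h, hhG⟩ : G)
        simpa [Subgroup.mem_subgroupOf, Subgroup.relIndex] using this
      exact layers_order ρ (I m) (I (m + 1)) (hmul m (hS m hm)) p (htf (m + 1)) h hhI a b c j _
        hab (hne _ _ (hGfin (m + 1))) hpow.2
    · have hfilt : S.filter (· < m + 1) = S.filter (· < m) := by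
        ext z
        simp only [Finset.mem_filter]
        constructor
        · rintro ⟨h1, h2⟩
          refine ⟨h1, ?_⟩
          rcases Nat.lt_succ_iff_lt_or_eq.mp h2 with h3 | h3
          · exact h3
          · exact absurd (h3 ▸ h1) hm
        · rintro ⟨h1, h2⟩
          exact ⟨h1, by omega⟩
      rw [hfilt]
      exact ih.trans (Nat.le_mul_of_pos_left _ (Nat.pos_of_ne_zero (hne _ _ (hGfin (m + 1)))))

theorem NL_eq_top_of_layers (Γ : Type u) [Group Γ] (A : Type v) [CommRing A]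
    (n : ℕ) (ρ : Γ →* GL (Fin n) A) (I : ℕ → Ideal A) (hI : Antitone I)
    (hmul : ∀ i, 1 ≤ i → I i * I i ≤ I (i + 1)) (p : ℕ) [Fact p.Prime]
    (htf : ∀ (k : ℕ) (e : ℤ) (x : A), e ≠ 0 → (e : A) * x ∈ I k → x ∈ I k)
    (hfin : ∀ k j : ℕ, Finite (A ⧸ (I k ⊔ Ideal.span {(p : A) ^ j})))
    (hsep : ∀ (k : ℕ) (x : A), x ∉ I k → ∃ c : ℕ, x ∉ I k ⊔ Ideal.span {(p : A) ^ c})
    (hinf : {i | ¬ cong ρ (I i) ≤ cong ρ (I (i + 1))}.Infinite)
    (hpow : ∀ r : ℕ, ∃ M : Subgroup Γ, M.Normal ∧ M.FiniteIndex ∧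
      ∀ N : Subgroup Γ, N.Normal → N ≤ M → dp p N ≤ r →
      ∀ (K : Subgroup Γ) (j : ℕ), K.Normal → K ≤ N → (∀ x ∈ N, x ^ p ^ j ∈ K) →
        K.relIndex N ≠ 0 → K.relIndex N ≤ p ^ (r * j)) : NL p Γ = ⊤ := by
  by_contra hNL
  obtain ⟨r, hr⟩ := ENat.ne_top_iff_exists.mp hNL
  obtain ⟨M, hMn, hMf, hM⟩ := hpow r
  -- choose the indices
  have hinf' : ({i | ¬ cong ρ (I i) ≤ cong ρ (I (i + 1))} \ {0}).Infinite :=
    hinf.sdiff (Set.finite_singleton 0)
  obtain ⟨S, hSsub, hScard⟩ := hinf'.exists_subset_card_eq (r + 1)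
  set k := S.sup id + 1 with hk
  -- the subgroup `M'`
  have hcf := layers_finiteIndex ρ _ (hfin k 1)
  have hM'f : (M ⊓ cong ρ (I k ⊔ Ideal.span {(p : A) ^ 1})).FiniteIndex := inferInstance
  have hM'n : (M ⊓ cong ρ (I k ⊔ Ideal.span {(p : A) ^ 1})).Normal := inferInstance
  -- a normal subgroup with small `d_p`
  obtain ⟨N, hNn, hNf, hNM, hNd⟩ : ∃ N : Subgroup Γ, N.Normal ∧ N.FiniteIndex ∧
      N ≤ M ⊓ cong ρ (I k ⊔ Ideal.span {(p : A) ^ 1}) ∧ dp p N ≤ r := by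
    have h1 : (⨅ N : {N : Subgroup Γ // N.Normal ∧ N.FiniteIndex ∧
        N ≤ M ⊓ cong ρ (I k ⊔ Ideal.span {(p : A) ^ 1})}, dp p (N : Subgroup Γ)) ≤ NL p Γ :=
      le_iSup (fun M' : {M : Subgroup Γ // M.Normal ∧ M.FiniteIndex} =>
        ⨅ N : {N : Subgroup Γ // N.Normal ∧ N.FiniteIndex ∧ N ≤ (M' : Subgroup Γ)},
          dp p (N : Subgroup Γ)) ⟨_, hM'n, hM'f⟩
    rw [← hr] at h1
    have h2 : (⨅ N : {N : Subgroup Γ // N.Normal ∧ N.FiniteIndex ∧
        N ≤ M ⊓ cong ρ (I k ⊔ Ideal.span {(p : A) ^ 1})}, dp p (N : Subgroup Γ)) <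
        ((r + 1 : ℕ) : ℕ∞) := lt_of_le_of_lt h1 (by exact_mod_cast Nat.lt_succ_self r)
    rw [iInf_lt_iff] at h2
    obtain ⟨⟨N, h3, h4, h5⟩, h6⟩ := h2
    refine ⟨N, h3, h4, h5, ?_⟩
    exact Order.le_of_lt_add_one (by exact_mod_cast h6)
  -- elements in the layers
  have helt : ∀ i ∈ S, ∃ h ∈ N, h ∈ cong ρ (I i) ∧ ∃ a b, ∃ c : ℕ,
      (ρ h).val a b - (1 : Matrix (Fin n) (Fin n) A) a b ∉
        I (i + 1) ⊔ Ideal.span {(p : A) ^ c} := by
    intro i hi
    obtain ⟨hi1, hi0⟩ := hSsub hi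
    have hi0' : i ≠ 0 := hi0
    obtain ⟨g, hg, hg'⟩ := Set.not_subset.mp hi1
    have hg2 : g ∈ cong ρ (I i) := hg
    have hg3 : ¬ g ∈ cong ρ (I (i + 1)) := hg'
    rw [mem_cong] at hg3
    push Not at hg3
    obtain ⟨a, b, hab⟩ := hg3
    refine ⟨g ^ N.index, Subgroup.pow_index_mem N g, pow_mem hg2 _, a, b, ?_⟩
    apply hsep
    intro hcon
    have h1 := (hmul i (by omega)) (layers_pow ρ (I i) g hg2 N.index a b)
    have h2 := Ideal.sub_mem _ hcon h1
    rw [sub_sub_cancel] at h2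
    refine hab (htf (i + 1) (N.index : ℤ) _ ?_ (by push_cast; exact h2))
    exact_mod_cast hNf.index_ne_zero
  -- a common separation exponent
  obtain ⟨c, hc⟩ : ∃ c : ℕ, ∀ i ∈ S, ∃ h ∈ N, h ∈ cong ρ (I i) ∧ ∃ a b,
      (ρ h).val a b - (1 : Matrix (Fin n) (Fin n) A) a b ∉
        I (i + 1) ⊔ Ideal.span {(p : A) ^ c} := by
    have helt' : ∀ i ∈ S, ∃ c : ℕ, ∃ h ∈ N, h ∈ cong ρ (I i) ∧ ∃ a b,
        (ρ h).val a b - (1 : Matrix (Fin n) (Fin n) A) a b ∉
          I (i + 1) ⊔ Ideal.span {(p : A) ^ c} := by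
      intro i hi
      obtain ⟨h, h1, h2, a, b, c, h3⟩ := helt i hi
      exact ⟨c, h, h1, h2, a, b, h3⟩
    choose! cc hcc using helt'
    refine ⟨S.sup cc, fun i hi => ?_⟩
    obtain ⟨h, h1, h2, a, b, h3⟩ := hcc i hi
    refine ⟨h, h1, h2, a, b, fun hcon => h3 ?_⟩
    have hle : Ideal.span {(p : A) ^ S.sup cc} ≤ Ideal.span {(p : A) ^ cc i} := by
      rw [Ideal.span_singleton_le_span_singleton]
      exact pow_dvd_pow _ (Finset.le_sup hi)
    exact (sup_le_sup_left hle (I (i + 1))) hcon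
  -- the final count
  set j := (r + 1) * c + 1 with hj
  have hlow := layers_index ρ I hI hmul p htf hfin N S
    (fun i hi => Nat.one_le_iff_ne_zero.mpr (hSsub hi).2) c hc j k
  have hfilt : S.filter (· < k) = S := by
    rw [Finset.filter_true_of_mem]
    intro i hi
    exact Nat.lt_succ_of_le (Finset.le_sup (f := id) hi)
  rw [hfilt, hScard] at hlow
  have hKf := layers_finiteIndex ρ _ (hfin k j)
  have hKf' : (N ⊓ cong ρ (I k ⊔ Ideal.span {(p : A) ^ j})).FiniteIndex := inferInstance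
  have hup := hM N hNn (hNM.trans inf_le_left) hNd (N ⊓ cong ρ (I k ⊔ Ideal.span {(p : A) ^ j})) j
    inferInstance inf_le_left (fun x hx => ⟨pow_mem hx _, ?_⟩) ?_
  · have hp1 : 1 < p := (Fact.out : p.Prime).one_lt
    have h1 := hlow.trans hup
    rw [← pow_mul] at h1
    have h2 := (Nat.pow_le_pow_iff_right hp1).mp h1
    have h3 : (j - c) * (r + 1) = r * j + 1 := by
      have : j - c = r * c + 1 := by
        rw [hj, add_mul, one_mul]
        omega
      rw [this, hj]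
      ring
    omega
  · have h1 : x ∈ cong ρ (I k ⊔ Ideal.span {(p : A)}) := by
      have := (hNM hx).2
      simpa using this
    have h2 := layers_pow_pow ρ (I k) p x h1 j
    have hle : Ideal.span {(p : A) ^ (j + 1)} ≤ Ideal.span {(p : A) ^ j} := by
      rw [Ideal.span_singleton_le_span_singleton]
      exact pow_dvd_pow _ (Nat.le_succ j)
    exact cong_mono ρ (sup_le_sup_left hle (I k)) h2
  · have : ((N ⊓ cong ρ (I k ⊔ Ideal.span {(p : A) ^ j})).subgroupOf N).FiniteIndex :=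
      inferInstance
    exact this.index_ne_zero

end Pool.Agent.W_MP_6f8a18_al
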