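import Pool.Agent.W_MP_6f8a18_al.Defs

namespace Pool.Agent.W_MP_6f8a18_al

universe u v w

/-- The matrix of an endomorphism describes its values on the basis. -/
theorem lieData_apply_basis {K : Type u} [Field K] {L : Type v} [AddCommGroup L] [Module K L]
    {d : ℕ} (b : Module.Basis (Fin d) K L) (f : Module.End K L) (i : Fin d) :
    f (b i) = ∑ l, (LinearMap.toMatrixAlgEquiv b f) l i • b l := by
  have h : ∀ l, (LinearMap.toMatrixAlgEquiv b f) l i = b.repr (f (b i)) l := fun l => by
    rw [LinearMap.toMatrixAlgEquiv_apply]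
  simp_rw [h]
  exact (b.sum_repr (f (b i))).symm

theorem exists_matrix_data (K : Type u) [Field K] [CharZero K] (L : Type v) [LieRing L]
    [LieAlgebra K L] [Module.Finite K L] [LieAlgebra.IsKilling K L] (Γ : Type w) [Group Γ]
    (ρ : Representation K Γ L) (hρ : ∀ g x y, ρ g ⁅x, y⁆ = ⁅ρ g x, ρ g y⁆)
    (hspan : Submodule.span K (Set.range ρ) = ⊤) :
    ∃ (d : ℕ) (ρ' : Γ →* GL (Fin d) K) (T : Fin d → Matrix (Fin d) (Fin d) K),
      (∀ g i, (ρ' g).val * T i = (∑ l, (ρ' g).val l i • T l) * (ρ' g).val) ∧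
      (∀ i j, T i * T j - T j * T i = ∑ l, (T i) l j • T l) ∧
      IsUnit (Matrix.of fun i j => (T i * T j).trace).det ∧
      Submodule.span K (Set.range fun g => (ρ' g).val) = ⊤ ∧
      ∀ g, (ρ' g).val.trace = LinearMap.trace K L (ρ g) := by
  classical
  let b := Module.finBasis K L
  let ψ := LinearMap.toMatrixAlgEquiv b
  let ρ' : Γ →* GL (Fin (Module.finrank K L)) K :=
    (Units.map (ψ : Module.End K L →* Matrix (Fin (Module.finrank K L))
      (Fin (Module.finrank K L)) K)).comp ρ.asGroupHom
  let T : Fin (Module.finrank K L) → Matrix (Fin (Module.finrank K L))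
      (Fin (Module.finrank K L)) K := fun i => ψ (LieAlgebra.ad K L (b i))
  have hρ' : ∀ g, (ρ' g).val = ψ (ρ g) := fun g => by
    show ψ ((ρ.asGroupHom g : (Module.End K L)ˣ) : Module.End K L) = _
    rw [Representation.asGroupHom_apply]
  have hT : ∀ (f : Module.End K L) (i : Fin (Module.finrank K L)),
      (∑ l, (ψ f) l i • T l) = ψ (LieAlgebra.ad K L (f (b i))) := by
    intro f i
    rw [lieData_apply_basis b f i, map_sum, map_sum]
    simp only [T, map_smul]
    rfl
  refine ⟨Module.finrank K L, ρ', T, ?_, ?_, ?_, ?_, ?_⟩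
  · intro g i
    rw [hρ', hT]
    simp only [T]
    rw [← map_mul ψ, ← map_mul ψ]
    congr 1
    ext x
    simp [hρ]
  · intro i j
    have h : (T i) = ψ (LieAlgebra.ad K L (b i)) := rfl
    rw [h, hT]
    have h2 : T j = ψ (LieAlgebra.ad K L (b j)) := rfl
    rw [h2, ← map_mul ψ, ← map_mul ψ, ← map_sub ψ]
    congr 1
    ext x
    simp
  · rw [isUnit_iff_ne_zero]
    have h := LieAlgebra.IsKilling.killingForm_nondegenerate K L
    rw [LinearMap.BilinForm.nondegenerate_iff_det_ne_zero b] at h
    convert h using 2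
    ext i j
    rw [LinearMap.BilinForm.toMatrix_apply, killingForm_apply_apply]
    simp only [Matrix.of_apply, T]
    rw [← map_mul, LinearMap.trace_eq_matrix_trace K b]
    rfl
  · have h1 : (Set.range fun g => (ρ' g).val) = ψ.toLinearMap '' (Set.range ρ) := by
      rw [← Set.range_comp]
      congr 1
    rw [h1, Submodule.span_image, hspan, Submodule.map_top, LinearMap.range_eq_top]
    exact ψ.surjective
  · intro g
    rw [hρ', LinearMap.trace_eq_matrix_trace K b]
    rfl

end Pool.Agent.W_MP_6f8a18_al
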