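import Pool.Agent.W_MP_6f8a18_al.Defs

/-!
An element commuting with a stable set of derivations of a Killing Lie algebra is trivial.
-/

namespace Pool.Agent.W_MP_6f8a18_al

universe u v

section LieLin

variable {k : Type u} [Field k] {d : ℕ}

/-- The linear combination of the matrices `T l` with coefficients `x l`. -/
def lieComb (T : Fin d → Matrix (Fin d) (Fin d) k) (x : Fin d → k) :
    Matrix (Fin d) (Fin d) k := ∑ l, x l • T l

theorem lieComb_mulVec (T : Fin d → Matrix (Fin d) (Fin d) k)
    (M : Matrix (Fin d) (Fin d) k) (x : Fin d → k) :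
    lieComb T (M.mulVec x) = ∑ i, x i • ∑ l, M l i • T l := by
  unfold lieComb
  simp only [Matrix.mulVec, dotProduct, Finset.sum_smul, Finset.smul_sum, smul_smul]
  rw [Finset.sum_comm]
  refine Finset.sum_congr rfl fun i _ => Finset.sum_congr rfl fun l _ => ?_
  rw [mul_comm]

theorem lieComb_single (T : Fin d → Matrix (Fin d) (Fin d) k) (i : Fin d) :
    lieComb T (Pi.single i 1) = T i := by
  unfold lieComb
  rw [Finset.sum_eq_single i]
  · simp
  · intro j _ hj
    simp [hj]
  · simp

theorem lieComb_equiv (T : Fin d → Matrix (Fin d) (Fin d) k)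
    (M : Matrix (Fin d) (Fin d) k)
    (h : ∀ i, M * T i = (∑ l, M l i • T l) * M) (x : Fin d → k) :
    M * lieComb T x = lieComb T (M.mulVec x) * M := by
  rw [lieComb_mulVec]
  unfold lieComb
  rw [Finset.mul_sum, Finset.sum_mul]
  refine Finset.sum_congr rfl fun i _ => ?_
  rw [Matrix.mul_smul, h i, Matrix.smul_mul]

theorem lieComb_der (T : Fin d → Matrix (Fin d) (Fin d) k)
    (D : Matrix (Fin d) (Fin d) k)
    (h : ∀ i, D * T i - T i * D = ∑ l, D l i • T l) (x : Fin d → k) :
    D * lieComb T x - lieComb T x * D = lieComb T (D.mulVec x) := by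
  rw [lieComb_mulVec]
  unfold lieComb
  rw [Finset.mul_sum, Finset.sum_mul, ← Finset.sum_sub_distrib]
  refine Finset.sum_congr rfl fun i _ => ?_
  rw [← h i, Matrix.mul_smul, Matrix.smul_mul, smul_sub]

theorem lieComb_jacobi (T : Fin d → Matrix (Fin d) (Fin d) k)
    (hJ : ∀ i j, T i * T j - T j * T i = ∑ l, (T i) l j • T l) (x y : Fin d → k) :
    lieComb T x * lieComb T y - lieComb T y * lieComb T x
      = lieComb T ((lieComb T x).mulVec y) := by
  refine lieComb_der T (lieComb T x) (fun j => ?_) y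
  have e : lieComb T x = ∑ l, x l • T l := rfl
  rw [e, Finset.sum_mul, Finset.mul_sum, ← Finset.sum_sub_distrib]
  have h1 : ∀ i, x i • T i * T j - T j * (x i • T i) = ∑ l, (x i • T i) l j • T l := by
    intro i
    rw [Matrix.smul_mul, Matrix.mul_smul, ← smul_sub, hJ i j, Finset.smul_sum]
    refine Finset.sum_congr rfl fun l _ => ?_
    rw [Matrix.smul_apply, smul_eq_mul, smul_smul]
  rw [Finset.sum_congr rfl fun i _ => h1 i, Finset.sum_comm]
  refine Finset.sum_congr rfl fun l _ => ?_
  rw [← Finset.sum_smul, Matrix.sum_apply]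

theorem lieKappa_mulVec (T : Fin d → Matrix (Fin d) (Fin d) k) (z : Fin d → k) (i : Fin d) :
    (Matrix.of fun i j => (T i * T j).trace).mulVec z i = (lieComb T z * T i).trace := by
  unfold lieComb
  simp only [Matrix.mulVec, dotProduct, Matrix.of_apply]
  rw [Finset.sum_mul, Matrix.trace_sum]
  refine Finset.sum_congr rfl fun j _ => ?_
  rw [Matrix.smul_mul, Matrix.trace_smul, smul_eq_mul, Matrix.trace_mul_comm, mul_comm]

theorem lieTrace_comb (T : Fin d → Matrix (Fin d) (Fin d) k)
    (M : Matrix (Fin d) (Fin d) k) (y : Fin d → k) :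
    (M * lieComb T y).trace = ∑ i, y i * (M * T i).trace := by
  unfold lieComb
  rw [Finset.mul_sum, Matrix.trace_sum]
  refine Finset.sum_congr rfl fun j _ => ?_
  rw [Matrix.mul_smul, Matrix.trace_smul, smul_eq_mul]

theorem lieExists (T : Fin d → Matrix (Fin d) (Fin d) k)
    (hκ : IsUnit (Matrix.of fun i j => (T i * T j).trace).det)
    (D : Matrix (Fin d) (Fin d) k) :
    ∃ z : Fin d → k, ∀ y, (lieComb T z * lieComb T y).trace = (D * lieComb T y).trace := by
  set K : Matrix (Fin d) (Fin d) k := Matrix.of fun i j => (T i * T j).trace with hK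
  refine ⟨K⁻¹.mulVec fun i => (D * T i).trace, fun y => ?_⟩
  rw [lieTrace_comb, lieTrace_comb]
  refine Finset.sum_congr rfl fun i _ => ?_
  congr 1
  rw [← lieKappa_mulVec, ← hK, Matrix.mulVec_mulVec, Matrix.mul_nonsing_inv K hκ,
    Matrix.one_mulVec]

theorem lieNondeg (T : Fin d → Matrix (Fin d) (Fin d) k)
    (hκ : IsUnit (Matrix.of fun i j => (T i * T j).trace).det)
    (z w : Fin d → k)
    (h : ∀ y, (lieComb T z * lieComb T y).trace = (lieComb T w * lieComb T y).trace) :
    z = w := by
  set K : Matrix (Fin d) (Fin d) k := Matrix.of fun i j => (T i * T j).trace with hK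
  have h1 : K.mulVec z = K.mulVec w := by
    funext i
    rw [hK, lieKappa_mulVec, lieKappa_mulVec]
    have := h (Pi.single i 1)
    rwa [lieComb_single] at this
  have h2 : K⁻¹.mulVec (K.mulVec z) = K⁻¹.mulVec (K.mulVec w) := by rw [h1]
  rwa [Matrix.mulVec_mulVec, Matrix.mulVec_mulVec, Matrix.nonsing_inv_mul K hκ,
    Matrix.one_mulVec, Matrix.one_mulVec] at h2

/-- Transport of the dual vector of a derivation under an automorphism. -/
theorem lieTransport (T : Fin d → Matrix (Fin d) (Fin d) k)
    (hκ : IsUnit (Matrix.of fun i j => (T i * T j).trace).det)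
    (g : GL (Fin d) k)
    (hg : ∀ i, g.val * T i = (∑ l, g.val l i • T l) * g.val)
    (D D' : Matrix (Fin d) (Fin d) k) (hD : D' * g.val = g.val * D)
    (z z' : Fin d → k)
    (hz : ∀ y, (lieComb T z * lieComb T y).trace = (D * lieComb T y).trace)
    (hz' : ∀ y, (lieComb T z' * lieComb T y).trace = (D' * lieComb T y).trace) :
    g.val.mulVec z = z' := by
  have hgg : g.val * g⁻¹.val = 1 := by
    rw [← Units.val_mul, mul_inv_cancel, Units.val_one]
  have hgg' : g⁻¹.val * g.val = 1 := by
    rw [← Units.val_mul, inv_mul_cancel, Units.val_one]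
  -- for every `y`, the matrix of `g y` is the conjugate of the matrix of `y`
  have hconj : ∀ y, lieComb T (g.val.mulVec y) = g.val * lieComb T y * g⁻¹.val := by
    intro y
    rw [lieComb_equiv T g.val hg y, Matrix.mul_assoc, hgg, Matrix.mul_one]
  refine lieNondeg T hκ _ _ fun y => ?_
  -- write `y = g y'`
  obtain ⟨y', rfl⟩ : ∃ y', g.val.mulVec y' = y :=
    ⟨g⁻¹.val.mulVec y, by rw [Matrix.mulVec_mulVec, hgg, Matrix.one_mulVec]⟩
  have e1 : (lieComb T (g.val.mulVec z) * lieComb T (g.val.mulVec y')).trace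
      = (lieComb T z * lieComb T y').trace := by
    rw [hconj, hconj]
    calc (g.val * lieComb T z * g⁻¹.val * (g.val * lieComb T y' * g⁻¹.val)).trace
        = (g.val * (lieComb T z * (g⁻¹.val * g.val) * lieComb T y') * g⁻¹.val).trace := by
          simp only [Matrix.mul_assoc]
      _ = (g⁻¹.val * (g.val * (lieComb T z * (g⁻¹.val * g.val) * lieComb T y'))).trace := by
          rw [Matrix.trace_mul_comm]
      _ = (lieComb T z * lieComb T y').trace := by
          rw [← Matrix.mul_assoc, hgg', Matrix.one_mul, Matrix.mul_one]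
  have hD2 : D' = g.val * D * g⁻¹.val := by
    rw [← hD, Matrix.mul_assoc, hgg, Matrix.mul_one]
  have e2 : (D' * lieComb T (g.val.mulVec y')).trace = (D * lieComb T y').trace := by
    rw [hconj, hD2]
    calc (g.val * D * g⁻¹.val * (g.val * lieComb T y' * g⁻¹.val)).trace
        = (g.val * (D * (g⁻¹.val * g.val) * lieComb T y') * g⁻¹.val).trace := by
          simp only [Matrix.mul_assoc]
      _ = (g⁻¹.val * (g.val * (D * (g⁻¹.val * g.val) * lieComb T y'))).trace := by
          rw [Matrix.trace_mul_comm]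
      _ = (D * lieComb T y').trace := by
          rw [← Matrix.mul_assoc, hgg', Matrix.one_mul, Matrix.mul_one]
  rw [e1, hz, hz', e2]

/-- The dual vector of a nonzero derivation is nonzero. -/
theorem lieDual_ne_zero (T : Fin d → Matrix (Fin d) (Fin d) k)
    (hκ : IsUnit (Matrix.of fun i j => (T i * T j).trace).det)
    (hJ : ∀ i j, T i * T j - T j * T i = ∑ l, (T i) l j • T l)
    (D : Matrix (Fin d) (Fin d) k)
    (hder : ∀ i, D * T i - T i * D = ∑ l, D l i • T l) (hD : D ≠ 0)
    (z : Fin d → k)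
    (hz : ∀ y, (lieComb T z * lieComb T y).trace = (D * lieComb T y).trace) : z ≠ 0 := by
  rintro rfl
  have h0 : lieComb T (0 : Fin d → k) = 0 := by simp [lieComb]
  have hz0 : ∀ y, (D * lieComb T y).trace = 0 := by
    intro y
    rw [← hz y, h0, Matrix.zero_mul, Matrix.trace_zero]
  apply hD
  have hx : ∀ x : Fin d → k, D.mulVec x = 0 := by
    intro x
    refine lieNondeg T hκ _ _ fun y => ?_
    rw [h0, Matrix.zero_mul, Matrix.trace_zero, ← lieComb_der T D hder x]
    have e : ((D * lieComb T x - lieComb T x * D) * lieComb T y).trace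
        = (D * (lieComb T x * lieComb T y - lieComb T y * lieComb T x)).trace := by
      rw [Matrix.sub_mul, Matrix.trace_sub, Matrix.mul_sub, Matrix.trace_sub, Matrix.mul_assoc]
      congr 1
      rw [Matrix.mul_assoc, Matrix.trace_mul_comm, Matrix.mul_assoc]
    rw [e, lieComb_jacobi T hJ, hz0]
  ext i j
  have := congrFun (hx (Pi.single j 1)) i
  simpa using this

end LieLin

theorem eq_one_of_commute (k : Type u) [Field k] (d : ℕ)
    (T : Fin d → Matrix (Fin d) (Fin d) k)
    (hκ : IsUnit (Matrix.of fun i j => (T i * T j).trace).det)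
    (hJ : ∀ i j, T i * T j - T j * T i = ∑ l, (T i) l j • T l)
    (G : Subgroup (GL (Fin d) k))
    (hG : Submodule.span k ((fun g : GL (Fin d) k => g.val) '' (G : Set (GL (Fin d) k))) = ⊤)
    (hT : ∀ g ∈ G, ∀ i, g.val * T i = (∑ l, g.val l i • T l) * g.val)
    (V : Set (Matrix (Fin d) (Fin d) k))
    (hV : ∀ g ∈ G, ∀ D ∈ V, ∃ D' ∈ V, D' * g.val = g.val * D)
    (hder : ∀ D ∈ V, ∀ i, D * T i - T i * D = ∑ l, D l i • T l)
    (D₀ : Matrix (Fin d) (Fin d) k) (hD₀ : D₀ ∈ V) (hD₀' : D₀ ≠ 0)
    (c : GL (Fin d) k) (hcG : c ∈ G) (hc : ∀ D ∈ V, D * c.val = c.val * D) : c = 1 := by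
  obtain ⟨z, hz⟩ := lieExists T hκ D₀
  have hz0 : z ≠ 0 := lieDual_ne_zero T hκ hJ D₀ (hder D₀ hD₀) hD₀' z hz
  -- the subspace of all `M` with `c (M z) = M z`
  have hall : ∀ M : Matrix (Fin d) (Fin d) k, c.val.mulVec (M.mulVec z) = M.mulVec z := by
    intro M
    have hM : M ∈ Submodule.span k
        ((fun g : GL (Fin d) k => g.val) '' (G : Set (GL (Fin d) k))) := by
      rw [hG]; exact Submodule.mem_top
    induction hM using Submodule.span_induction with
    | mem M h =>
      obtain ⟨g, hg, rfl⟩ := h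
      obtain ⟨D', hD', hDg⟩ := hV g hg D₀ hD₀
      obtain ⟨z', hz'⟩ := lieExists T hκ D'
      have h1 : g.val.mulVec z = z' := lieTransport T hκ g (hT g hg) D₀ D' hDg z z' hz hz'
      have h2 : c.val.mulVec z' = z' :=
        lieTransport T hκ c (hT c hcG) D' D' (hc D' hD') z' z' hz' hz'
      show c.val.mulVec (g.val.mulVec z) = g.val.mulVec z
      rw [h1, h2]
    | zero => simp
    | add M N _ _ hM hN => rw [Matrix.add_mulVec, Matrix.mulVec_add, hM, hN]
    | smul a M _ hM => rw [Matrix.smul_mulVec, Matrix.mulVec_smul, hM]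
  obtain ⟨j, hj⟩ : ∃ j, z j ≠ 0 := by
    by_contra h
    push Not at h
    exact hz0 (funext h)
  have hv : ∀ v : Fin d → k, c.val.mulVec v = v := by
    intro v
    have := hall (Matrix.vecMulVec v (Pi.single j (z j)⁻¹))
    have e : (Matrix.vecMulVec v (Pi.single j (z j)⁻¹)).mulVec z = v := by
      funext i
      simp only [Matrix.mulVec, dotProduct, Matrix.vecMulVec_apply]
      rw [Finset.sum_eq_single j]
      · simp [mul_assoc, inv_mul_cancel₀ hj]
      · intro l _ hl
        simp [hl]
      · simp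
    rwa [e] at this
  ext i j
  have := congrFun (hv (Pi.single j 1)) i
  simpa [Matrix.one_apply, Pi.single_apply] using this

end Pool.Agent.W_MP_6f8a18_al
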