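import Pool.Agent.W_MP_6f8a18_al.Defs

/-!
The basic lower bound for `d_p(N)`: an invariant surjection from a normal subgroup `J` onto
`(Z/p)^C` gives `C ≤ d_p(N) + r^2` if `N/J` is abelian, `r`-generated and has no `p`-torsion.
-/

namespace Pool.Agent.W_MP_6f8a18_al

open scoped commutatorElement

theorem exists_of_mem_powComm (p : ℕ) {N : Type*} [Group N] {x : N} (hx : x ∈ powComm p N) :
    ∃ y z : N, z ∈ commutator N ∧ x = y ^ p * z := by
  have h : powComm p N ≤ (MonoidHom.range (powMonoidHom (α := Abelianization N) p)).comap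
      Abelianization.of := by
    refine sup_le ?_ ?_
    · intro c hc
      refine Subgroup.mem_comap.2 ?_
      have : Abelianization.of c = 1 := by
        have : c ∈ (Abelianization.of : N →* Abelianization N).ker := by
          rw [Abelianization.ker_of]; exact hc
        exact this
      rw [this]; exact one_mem _
    · rw [Subgroup.closure_le]
      rintro _ ⟨y, rfl⟩
      refine Subgroup.mem_comap.2 ⟨Abelianization.of y, ?_⟩
      simp
  obtain ⟨w, hw⟩ := Subgroup.mem_comap.1 (h hx)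
  obtain ⟨y, rfl⟩ := QuotientGroup.mk_surjective w
  refine ⟨y, (y ^ p)⁻¹ * x, ?_, by group⟩
  have : (y ^ p)⁻¹ * x ∈ (Abelianization.of : N →* Abelianization N).ker := by
    rw [MonoidHom.mem_ker, map_mul, map_inv, map_pow, ← hw]
    change ((Abelianization.of y) ^ p)⁻¹ * (Abelianization.of y) ^ p = 1
    group
  rwa [Abelianization.ker_of] at this

theorem card_le_of_addClosure_aux (p : ℕ) [Fact p.Prime] (E : Type*) [AddCommGroup E]
    [Module (ZMod p) E] (S : Set E) (c : ℕ) (hSc : S.encard ≤ c)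
    (hS : ∀ a : E, a ∈ AddSubgroup.closure S) : Finite E ∧ Nat.card E ≤ p ^ c := by
  have hSfin : S.Finite := Set.finite_of_encard_le_coe hSc
  have hspan : Submodule.span (ZMod p) S = ⊤ := by
    rw [Submodule.eq_top_iff']
    intro a
    have ha := hS a
    refine AddSubgroup.closure_induction (p := fun x _ => x ∈
      Submodule.span (ZMod p) S) ?_ ?_ ?_ ?_ ha
    · intro x hx
      exact Submodule.subset_span hx
    · exact zero_mem _
    · intro x y _ _ hx hy
      exact add_mem hx hy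
    · intro x _ hx
      exact neg_mem hx
  have : Module.Finite (ZMod p) E := by
    rw [Module.finite_def]
    exact ⟨hSfin.toFinset, by rw [Set.Finite.coe_toFinset]; exact hspan⟩
  have hrank : Module.finrank (ZMod p) E ≤ c := by
    have h1 := finrank_span_finset_le_card (R := ZMod p) hSfin.toFinset
    rw [Set.finrank, Set.Finite.coe_toFinset, hspan, finrank_top] at h1
    refine h1.trans ?_
    have h2 : (hSfin.toFinset.card : ℕ∞) ≤ c := by
      rw [← Set.encard_coe_eq_coe_finsetCard, Set.Finite.coe_toFinset]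
      exact hSc
    exact Nat.cast_le.1 h2
  have hcard : Nat.card E = p ^ Module.finrank (ZMod p) E := by
    have := Module.natCard_eq_pow_finrank (K := ZMod p) (V := E)
    rw [Nat.card_zmod] at this
    exact this
  have hp : 0 < p := (Fact.out : p.Prime).pos
  refine ⟨Module.finite_of_finite (ZMod p), ?_⟩
  rw [hcard]
  exact Nat.pow_le_pow_right hp hrank

theorem card_le_of_addClosure (p : ℕ) [Fact p.Prime] (E : Type*) [AddCommGroup E]
    (hexp : ∀ a : E, p • a = 0) (S : Set E) (c : ℕ) (hSc : S.encard ≤ c)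
    (hS : ∀ a : E, a ∈ AddSubgroup.closure S) : Finite E ∧ Nat.card E ≤ p ^ c := by
  let I : Module (ZMod p) E := AddCommGroup.zmodModule hexp
  exact card_le_of_addClosure_aux p E S c hSc hS

theorem powComm_index_le (p : ℕ) [Fact p.Prime] (N : Type*) [Group N] (c : ℕ)
    (hc : dp p N ≤ c) : (powComm p N).index ≠ 0 ∧ (powComm p N).index ≤ p ^ c := by
  classical
  have hcomm : ∀ a b : N ⧸ powComm p N, a * b = b * a := by
    intro a b
    obtain ⟨a, rfl⟩ := QuotientGroup.mk_surjective a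
    obtain ⟨b, rfl⟩ := QuotientGroup.mk_surjective b
    rw [← QuotientGroup.mk_mul, ← QuotientGroup.mk_mul, QuotientGroup.eq]
    have : (a * b)⁻¹ * (b * a) = ⁅b⁻¹, a⁻¹⁆ := by
      simp only [commutatorElement_def]; group
    rw [this]
    exact Subgroup.mem_sup_left (Subgroup.commutator_mem_commutator (Subgroup.mem_top _)
      (Subgroup.mem_top _))
  let _ : CommGroup (N ⧸ powComm p N) := { (inferInstance : Group (N ⧸ powComm p N)) with
    mul_comm := hcomm }
  have hexp : ∀ a : Additive (N ⧸ powComm p N), p • a = 0 := by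
    intro a
    obtain ⟨a, rfl⟩ := QuotientGroup.mk_surjective (Additive.toMul a)
    change (QuotientGroup.mk a : N ⧸ powComm p N) ^ p = 1
    rw [← QuotientGroup.mk_pow, QuotientGroup.eq_one_iff]
    exact Subgroup.mem_sup_right (Subgroup.subset_closure ⟨a, rfl⟩)
  have hex : ∃ S : {S : Set (N ⧸ powComm p N) // Subgroup.closure S = ⊤},
      (S : Set (N ⧸ powComm p N)).encard ≤ c := by
    by_contra hcon
    push Not at hcon
    have : ((c : ℕ∞) + 1) ≤ minGen (N ⧸ powComm p N) :=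
      le_iInf fun S => Order.add_one_le_of_lt (hcon S)
    have h2 : ((c : ℕ∞) + 1) ≤ c := this.trans hc
    have h3 : ((c + 1 : ℕ) : ℕ∞) ≤ (c : ℕ) := by push_cast; exact h2
    have := Nat.cast_le.1 h3
    omega
  obtain ⟨⟨S, hS⟩, hSc⟩ := hex
  have key := card_le_of_addClosure p (Additive (N ⧸ powComm p N)) hexp
    (Additive.toMul ⁻¹' S) c hSc (by
      intro a
      have ha : Additive.toMul a ∈ Subgroup.closure S := by rw [hS]; trivial
      refine Subgroup.closure_induction (p := fun x _ => Additive.ofMul x ∈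
        AddSubgroup.closure (Additive.toMul ⁻¹' S : Set (Additive (N ⧸ powComm p N))))
        ?_ ?_ ?_ ?_ ha
      · intro x hx
        exact AddSubgroup.subset_closure hx
      · exact zero_mem _
      · intro x y _ _ hx hy
        exact add_mem hx hy
      · intro x _ hx
        exact neg_mem hx)
  have hindex : (powComm p N).index = Nat.card (Additive (N ⧸ powComm p N)) := rfl
  have hfin := key.1
  rw [hindex]
  exact ⟨Nat.card_pos.ne', key.2⟩

section Pairing

variable {p : ℕ} {N : Type*} [Group N] {J : Subgroup N} (hcomm : commutator N ≤ J)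
  {T : Type*} [AddCommGroup T] (F : J → T) (Fmul : ∀ x y : J, F (x * y) = F x + F y)
  (hinv : ∀ (n : N) (x : J) (hx : n * x * n⁻¹ ∈ J), F ⟨n * x * n⁻¹, hx⟩ = F x)

theorem comm_mem (hcomm : commutator N ≤ J) (a b : N) : ⁅a, b⁆ ∈ J :=
  hcomm (Subgroup.commutator_mem_commutator (Subgroup.mem_top _) (Subgroup.mem_top _))

include Fmul in
theorem F_one : F 1 = 0 := by
  have := Fmul 1 1
  simpa using this

include Fmul in
theorem F_inv (x : J) : F x⁻¹ = - F x := by
  have := Fmul x x⁻¹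
  rw [mul_inv_cancel, F_one F Fmul] at this
  exact eq_neg_of_add_eq_zero_right this.symm

include Fmul in
theorem F_pow (x : J) (k : ℕ) : F (x ^ k) = k • F x := by
  induction k with
  | zero => simpa using F_one F Fmul
  | succ k ih => rw [pow_succ, Fmul, ih, succ_nsmul]

include Fmul hinv in
theorem pair_mul (a a' b : N) :
    F ⟨⁅a * a', b⁆, comm_mem hcomm _ _⟩ =
      F ⟨⁅a, b⁆, comm_mem hcomm _ _⟩ + F ⟨⁅a', b⁆, comm_mem hcomm _ _⟩ := by
  have h1 : a * ⁅a', b⁆ * a⁻¹ ∈ J := by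
    have : a * ⁅a', b⁆ * a⁻¹ = ⁅a * a', b⁆ * ⁅a, b⁆⁻¹ := by
      simp only [commutatorElement_def]; group
    rw [this]
    exact mul_mem (comm_mem hcomm _ _) (inv_mem (comm_mem hcomm _ _))
  have h2 : (⟨⁅a * a', b⁆, comm_mem hcomm _ _⟩ : J) =
      ⟨a * ⁅a', b⁆ * a⁻¹, h1⟩ * ⟨⁅a, b⁆, comm_mem hcomm _ _⟩ := by
    apply Subtype.ext
    change ⁅a * a', b⁆ = a * ⁅a', b⁆ * a⁻¹ * ⁅a, b⁆
    simp only [commutatorElement_def]; group
  rw [h2, Fmul, hinv a ⟨⁅a', b⁆, comm_mem hcomm _ _⟩ h1, add_comm]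

include Fmul in
theorem pair_swap (a b : N) :
    F ⟨⁅a, b⁆, comm_mem hcomm _ _⟩ = - F ⟨⁅b, a⁆, comm_mem hcomm _ _⟩ := by
  rw [← F_inv F Fmul]
  congr 1
  apply Subtype.ext
  change ⁅a, b⁆ = ⁅b, a⁆⁻¹
  exact (commutatorElement_inv b a).symm

include Fmul hinv in
theorem pair_mem [J.Normal] (x : N) (hx : x ∈ J) (b : N) :
    F ⟨⁅x, b⁆, comm_mem hcomm _ _⟩ = 0 := by
  have h1 : b * (⟨x, hx⟩⁻¹ : J) * b⁻¹ ∈ J := by
    exact (inferInstance : J.Normal).conj_mem _ (⟨x, hx⟩⁻¹ : J).2 b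
  have h2 : (⟨⁅x, b⁆, comm_mem hcomm _ _⟩ : J) = ⟨x, hx⟩ * ⟨b * (⟨x, hx⟩⁻¹ : J) * b⁻¹, h1⟩ := by
    apply Subtype.ext
    change ⁅x, b⁆ = x * (b * x⁻¹ * b⁻¹)
    simp only [commutatorElement_def]; group
  rw [h2, Fmul, hinv b _ h1, F_inv F Fmul, add_neg_cancel]

include Fmul hinv in
theorem pair_in [J.Normal] (W : AddSubgroup T) {r : ℕ} (h : Fin r → N)
    (hgen : Subgroup.closure (Set.range h) ⊔ J = ⊤)
    (hW : ∀ i j, F ⟨⁅h i, h j⁆, comm_mem hcomm _ _⟩ ∈ W) (a b : N) :
    F ⟨⁅a, b⁆, comm_mem hcomm _ _⟩ ∈ W := by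
  -- a general closure argument
  have gen : ∀ b : N, (∀ i, F ⟨⁅h i, b⁆, comm_mem hcomm _ _⟩ ∈ W) →
      ∀ a : N, F ⟨⁅a, b⁆, comm_mem hcomm _ _⟩ ∈ W := by
    intro b hb a
    have ha : a ∈ Subgroup.closure (Set.range h ∪ J) := by
      rw [Subgroup.closure_union, Subgroup.closure_eq, hgen]; trivial
    refine Subgroup.closure_induction (p := fun a _ =>
      F ⟨⁅a, b⁆, comm_mem hcomm _ _⟩ ∈ W) ?_ ?_ ?_ ?_ ha
    · rintro x (⟨i, rfl⟩ | hx)
      · exact hb i
      · rw [pair_mem hcomm F Fmul hinv x hx b]; exact zero_mem _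
    · have : (⟨⁅(1 : N), b⁆, comm_mem hcomm _ _⟩ : J) = 1 := by
        apply Subtype.ext; simp
      rw [this, F_one F Fmul]; exact zero_mem _
    · intro x y _ _ hx hy
      rw [pair_mul hcomm F Fmul hinv]
      exact add_mem hx hy
    · intro x _ hx
      have h0 : F ⟨⁅x⁻¹ * x, b⁆, comm_mem hcomm _ _⟩ = 0 := by
        have : (⟨⁅x⁻¹ * x, b⁆, comm_mem hcomm _ _⟩ : J) = 1 := by
          apply Subtype.ext; simp
        rw [this, F_one F Fmul]
      rw [pair_mul hcomm F Fmul hinv] at h0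
      rw [eq_neg_of_add_eq_zero_left h0]
      exact neg_mem hx
  refine gen b (fun i => ?_) a
  rw [pair_swap hcomm F Fmul]
  refine neg_mem (gen (h i) (fun j => hW j i) b)

include Fmul hinv in
theorem F_comm_mem [J.Normal] (W : AddSubgroup T) {r : ℕ} (h : Fin r → N)
    (hgen : Subgroup.closure (Set.range h) ⊔ J = ⊤)
    (hW : ∀ i j, F ⟨⁅h i, h j⁆, comm_mem hcomm _ _⟩ ∈ W) (z : N) (hz : z ∈ commutator N) :
    F ⟨z, hcomm hz⟩ ∈ W := by
  have hz' := hz
  rw [commutator_eq_closure] at hz'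
  refine Subgroup.closure_induction (p := fun z hz => ∀ hz2 : z ∈ J, F ⟨z, hz2⟩ ∈ W)
    ?_ ?_ ?_ ?_ hz' (hcomm hz)
  · rintro _ ⟨a, b, rfl⟩ _
    exact pair_in hcomm F Fmul hinv W h hgen hW a b
  · intro h2
    have : (⟨1, h2⟩ : J) = 1 := rfl
    rw [this, F_one F Fmul]; exact zero_mem _
  · intro x y hx' hy' hx hy h2
    have hxJ : x ∈ J := by
      rw [← commutator_eq_closure] at hx'; exact hcomm hx'
    have hyJ : y ∈ J := by
      rw [← commutator_eq_closure] at hy'; exact hcomm hy'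
    have : (⟨x * y, h2⟩ : J) = ⟨x, hxJ⟩ * ⟨y, hyJ⟩ := rfl
    rw [this, Fmul]
    exact add_mem (hx _) (hy _)
  · intro x hx' hx h2
    have hxJ : x ∈ J := by
      rw [← commutator_eq_closure] at hx'; exact hcomm hx'
    have : (⟨x⁻¹, h2⟩ : J) = ⟨x, hxJ⟩⁻¹ := rfl
    rw [this, F_inv F Fmul]
    exact neg_mem (hx _)

include Fmul hinv in
theorem F_mem_of_powComm [J.Normal] (htors : ∀ y : N, y ^ p ∈ J → y ∈ J)
    (hT : ∀ t : T, p • t = 0) (W : AddSubgroup T) {r : ℕ} (h : Fin r → N)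
    (hgen : Subgroup.closure (Set.range h) ⊔ J = ⊤)
    (hW : ∀ i j, F ⟨⁅h i, h j⁆, comm_mem hcomm _ _⟩ ∈ W) (x : J)
    (hx : (x : N) ∈ powComm p N) : F x ∈ W := by
  obtain ⟨y, z, hz, hxyz⟩ := exists_of_mem_powComm p hx
  have hyp : y ^ p ∈ J := by
    have : y ^ p = x * z⁻¹ := by rw [hxyz]; group
    rw [this]; exact mul_mem x.2 (inv_mem (hcomm hz))
  have hy := htors y hyp
  have : x = (⟨y, hy⟩ : J) ^ p * ⟨z, hcomm hz⟩ := by
    apply Subtype.ext
    exact hxyz
  rw [this, Fmul, F_pow F Fmul, hT, zero_add]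
  exact F_comm_mem hcomm F Fmul hinv W h hgen hW z hz

end Pairing

/-- The basic lower bound. -/
theorem le_dp (p : ℕ) [Fact p.Prime] (N : Type*) [Group N] (J : Subgroup N) [J.Normal]
    (hcomm : commutator N ≤ J) (htors : ∀ y : N, y ^ p ∈ J → y ∈ J) (r : ℕ) (h : Fin r → N)
    (hgen : Subgroup.closure (Set.range h) ⊔ J = ⊤) (C : ℕ)
    (F : J → (Fin C → ZMod p)) (Fmul : ∀ x y : J, F (x * y) = F x + F y)
    (hF : Function.Surjective F)
    (hinv : ∀ (n : N) (x : J) (hx : n * x * n⁻¹ ∈ J), F ⟨n * x * n⁻¹, hx⟩ = F x) :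
    (C : ℕ∞) ≤ dp p N + ((r ^ 2 : ℕ) : ℕ∞) := by
  classical
  rcases eq_or_ne (dp p N) ⊤ with htop | htop
  · rw [htop]; simp
  obtain ⟨c, hc⟩ := ENat.ne_top_iff_exists.1 htop
  have hidx := powComm_index_le p N c hc.symm.le
  rw [← hc]
  norm_cast
  set S : Set (Fin C → ZMod p) := Set.range fun ij : Fin r × Fin r =>
    F ⟨⁅h ij.1, h ij.2⁆, comm_mem hcomm _ _⟩ with hS
  set W : AddSubgroup (Fin C → ZMod p) := AddSubgroup.closure S with hWdef
  have hT : ∀ t : Fin C → ZMod p, p • t = 0 := by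
    intro t; ext i; simp
  have hWcard : Nat.card W ≤ p ^ (r ^ 2) := by
    refine (card_le_of_addClosure p W (fun a => Subtype.ext (hT a)) (Subtype.val ⁻¹' S) (r ^ 2)
      ?_ ?_).2
    · have h1 : (Subtype.val ⁻¹' S : Set W).encard ≤ S.encard := by
        rw [← Subtype.val_injective.encard_image]
        exact Set.encard_le_encard (Set.image_preimage_subset _ _)
      refine h1.trans ?_
      have h2 := Set.encard_image_le (fun ij : Fin r × Fin r =>
        F ⟨⁅h ij.1, h ij.2⁆, comm_mem hcomm _ _⟩) Set.univ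
      rw [Set.image_univ, Set.encard_univ] at h2
      refine h2.trans ?_
      simp [sq]
    · intro a
      have h3 := AddSubgroup.closure_preimage_eq_top S
      change a ∈ AddSubgroup.closure (⇑(AddSubgroup.closure S).subtype ⁻¹' S)
      rw [h3]
      trivial
  have hW : ∀ i j, F ⟨⁅h i, h j⁆, comm_mem hcomm _ _⟩ ∈ W := fun i j =>
    AddSubgroup.subset_closure ⟨(i, j), rfl⟩
  let φ : J →* Multiplicative ((Fin C → ZMod p) ⧸ W) :=
    { toFun := fun x => Multiplicative.ofAdd (QuotientAddGroup.mk (F x))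
      map_one' := by rw [F_one F Fmul]; rfl
      map_mul' := fun x y => by rw [Fmul]; rfl }
  have hφsurj : Function.Surjective φ := by
    intro t
    obtain ⟨t', ht'⟩ := QuotientAddGroup.mk_surjective (Multiplicative.toAdd t)
    obtain ⟨x, rfl⟩ := hF t'
    exact ⟨x, by change Multiplicative.ofAdd _ = _; rw [ht']; rfl⟩
  have hker : (powComm p N).subgroupOf J ≤ φ.ker := by
    intro x hx
    rw [MonoidHom.mem_ker]
    have h1 := F_mem_of_powComm hcomm F Fmul hinv htors hT W h hgen hW x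
      (Subgroup.mem_subgroupOf.1 hx)
    change Multiplicative.ofAdd (QuotientAddGroup.mk (F x) : (Fin C → ZMod p) ⧸ W) = 1
    rw [(QuotientAddGroup.eq_zero_iff _).2 h1]; rfl
  have hq : Nat.card ((Fin C → ZMod p) ⧸ W) ≤ p ^ c := by
    have h1 : φ.ker.index = Nat.card ((Fin C → ZMod p) ⧸ W) := by
      rw [Subgroup.index_ker, MonoidHom.range_eq_top.2 hφsurj]
      exact Nat.card_congr (Equiv.Set.univ _)
    have h2 : φ.ker.index ∣ ((powComm p N).subgroupOf J).index := Subgroup.index_dvd_of_le hker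
    have h3 : ((powComm p N).subgroupOf J).index ∣ (powComm p N).index :=
      Subgroup.relIndex_dvd_index_of_normal _ _
    rw [← h1]
    exact (Nat.le_of_dvd (Nat.pos_of_ne_zero hidx.1) (h2.trans h3)).trans hidx.2
  have hcardT : Nat.card (Fin C → ZMod p) = p ^ C := by
    rw [Nat.card_fun, Nat.card_zmod, Nat.card_fin]
  have hmul : Nat.card (Fin C → ZMod p) = Nat.card ((Fin C → ZMod p) ⧸ W) * Nat.card W :=
    AddSubgroup.card_eq_card_quotient_mul_card_addSubgroup W
  have hfinal : p ^ C ≤ p ^ (c + r ^ 2) := by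
    rw [← hcardT, hmul, pow_add]
    exact Nat.mul_le_mul hq hWcard
  exact (Nat.pow_le_pow_iff_right (Fact.out : p.Prime).one_lt).1 hfinal

end Pool.Agent.W_MP_6f8a18_al
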