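import Pool.Agent.W_MP_6f8a18_al.Lower
import Pool.Agent.W_MP_6f8a18_al.Crt
import Pool.Agent.W_MP_6f8a18_al.KMod
import Pool.Agent.W_MP_6f8a18_al.Abel

/-!
The lower bound: if the abelianization of the commutator subgroup of a finitely generated group
has infinite rank then `d_p` of deep normal subgroups of finite index is large, for almost all
primes `p`.
-/

namespace Pool.Agent.W_MP_6f8a18_al

open scoped commutatorElement

universe u

variable {G : Type u} [Group G]

/-- The submodule of the classes of the elements of `N`. -/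
def clsSub (N : Subgroup G) [hN : N.Normal] : Submodule (RQ G) (Kab G) where
  carrier := {a | ∃ x : commutator G, (x : G) ∈ N ∧ cls x = a}
  zero_mem' := ⟨1, one_mem _, cls_one⟩
  add_mem' := by
    rintro _ _ ⟨x, hx, rfl⟩ ⟨y, hy, rfl⟩
    exact ⟨x * y, mul_mem hx hy, cls_mul x y⟩
  smul_mem' := by
    rintro c a ha
    -- additive subgroup stable under the group elements
    let B : AddSubgroup (Kab G) :=
      { carrier := {a | ∃ x : commutator G, (x : G) ∈ N ∧ cls x = a}
        zero_mem' := ⟨1, one_mem _, cls_one⟩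
        add_mem' := by
          rintro _ _ ⟨x, hx, rfl⟩ ⟨y, hy, rfl⟩
          exact ⟨x * y, mul_mem hx hy, cls_mul x y⟩
        neg_mem' := by
          rintro _ ⟨x, hx, rfl⟩
          exact ⟨x⁻¹, inv_mem hx, cls_inv x⟩ }
    have hB : ∀ (q : Abelianization G) (a : Kab G), a ∈ B →
        (MonoidAlgebra.single q (1 : ℤ) : RQ G) • a ∈ B := by
      rintro q _ ⟨x, hx, rfl⟩
      obtain ⟨g, rfl⟩ := QuotientGroup.mk_surjective (s := commutator G) q
      refine ⟨conjK g x, ?_, (single_smul_cls g x).symm⟩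
      rw [conjK_coe]
      exact hN.conj_mem _ hx g
    change c • a ∈ B
    have ha' : a ∈ B := ha
    induction c using MonoidAlgebra.induction_on with
    | of q => exact hB q a ha'
    | add x y hx hy => rw [add_smul]; exact B.add_mem hx hy
    | smul n x hx =>
      rw [smul_assoc]
      exact B.zsmul_mem hx n

theorem mem_clsSub (N : Subgroup G) [N.Normal] (x : commutator G) (hx : (x : G) ∈ N) :
    cls x ∈ clsSub N := ⟨x, hx, rfl⟩

theorem clsSub_finite (N : Subgroup G) [N.Normal] [N.FiniteIndex] :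
    Finite (Kab G ⧸ clsSub N) := by
  let φ : commutator G →* Multiplicative (Kab G ⧸ clsSub N) :=
    { toFun := fun x => Multiplicative.ofAdd (Submodule.Quotient.mk (cls x))
      map_one' := by rw [cls_one]; rfl
      map_mul' := fun x y => by rw [cls_mul]; rfl }
  have hφ : Function.Surjective φ := by
    intro t
    obtain ⟨a, ha⟩ := Submodule.Quotient.mk_surjective _ (Multiplicative.toAdd t)
    obtain ⟨x, rfl⟩ := cls_surj a
    exact ⟨x, ha⟩
  have hker : N.subgroupOf (commutator G) ≤ φ.ker := by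
    intro x hx
    rw [MonoidHom.mem_ker]
    change Multiplicative.ofAdd (Submodule.Quotient.mk (cls x) : Kab G ⧸ clsSub N) = 1
    rw [(Submodule.Quotient.mk_eq_zero _).2 (mem_clsSub N x (Subgroup.mem_subgroupOf.1 hx))]
    rfl
  have h1 : (N.subgroupOf (commutator G)).FiniteIndex := inferInstance
  have h2 : φ.ker.FiniteIndex := Subgroup.finiteIndex_of_le hker
  have h3 : Finite φ.range := by
    refine Nat.finite_of_card_ne_zero ?_
    rw [← Subgroup.index_ker]
    exact h2.index_ne_zero
  have h4 : Finite (Multiplicative (Kab G ⧸ clsSub N)) := by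
    rw [MonoidHom.range_eq_top.2 hφ] at h3
    exact Finite.of_surjective (fun x : (⊤ : Subgroup (Multiplicative (Kab G ⧸ clsSub N))) => x.1)
      (fun t => ⟨⟨t, trivial⟩, rfl⟩)
  exact h4

theorem lower_subgroup [Group.FG G]
    (hmax : ∃ S : Finset ℕ, ∀ p : ℕ, p.Prime → p ∉ S →
      {m : Ideal (RQ G) | m.IsMaximal ∧ (p : RQ G) ∈ m ∧
        ∀ I : Submodule (RQ G) (Kab G), Finite (Kab G ⧸ I) → m • I ≠ I}.Infinite) :
    ∃ S : Finset ℕ, ∀ p : ℕ, p.Prime → p ∉ S → ∀ C : ℕ, ∃ M : Subgroup G, M.FiniteIndex ∧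
      ∀ N : Subgroup G, N.Normal → N.FiniteIndex → N ≤ M → (C : ℕ∞) ≤ dp p N := by
  classical
  have hfgQ : Group.FG (Abelianization G) := QuotientGroup.fg (commutator G)
  obtain ⟨r, hr⟩ := exists_sub_gen (Abelianization G)
  obtain ⟨S₁, hS₁⟩ := hmax
  obtain ⟨S₂, hS₂⟩ := exists_no_torsion (Abelianization G)
  refine ⟨S₁ ∪ S₂, fun p hp hpS C => ?_⟩
  rw [Finset.mem_union, not_or] at hpS
  have : Fact p.Prime := ⟨hp⟩
  obtain ⟨t, ht, htc⟩ := (hS₁ p hp hpS.1).exists_subset_card_eq (C + r ^ 2)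
  let e := t.equivFinOfCardEq htc
  let m : Fin (C + r ^ 2) → Ideal (RQ G) := fun i => (e.symm i : Ideal (RQ G))
  have hm : ∀ i, (m i).IsMaximal ∧ (p : RQ G) ∈ m i ∧
        ∀ I : Submodule (RQ G) (Kab G), Finite (Kab G ⧸ I) → m i • I ≠ I := fun i =>
    ht (e.symm i).2
  have hinj : Function.Injective m := fun i j hij => e.symm.injective (Subtype.ext hij)
  have hfin : ∀ i, Finite (RQ G ⧸ m i) := fun i => by
    have := (hm i).1
    exact finite_residue (RQ G) p (m i) (hm i).2.1
  let ψ : G →* (∀ i, RQ G ⧸ m i) :=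
    { toFun := fun g i => Ideal.Quotient.mk (m i)
        (MonoidAlgebra.single (Abelianization.of g) (1 : ℤ) : RQ G)
      map_one' := by
        funext i
        rw [map_one]
        exact map_one (Ideal.Quotient.mk (m i))
      map_mul' := fun a b => by
        funext i
        change Ideal.Quotient.mk (m i) _ = Ideal.Quotient.mk (m i) _ * Ideal.Quotient.mk (m i) _
        rw [← map_mul (Ideal.Quotient.mk (m i)), MonoidAlgebra.single_mul_single, mul_one,
          ← map_mul Abelianization.of] }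
  let M : Subgroup G := (MonoidHom.toHomUnits ψ).ker
  have hMfin : M.FiniteIndex := by
    have : Finite ((∀ i, RQ G ⧸ m i)ˣ) := inferInstance
    exact Subgroup.finiteIndex_ker _
  have hMmem : ∀ g ∈ M, ∀ i, (MonoidAlgebra.single (Abelianization.of g) (1 : ℤ) : RQ G) - 1 ∈
      m i := by
    intro g hg i
    rw [MonoidHom.mem_ker] at hg
    have h1 : ψ g = 1 := by
      have := congrArg Units.val hg
      simpa using this
    have h2 := congrFun h1 i
    have h3 : Ideal.Quotient.mk (m i)
      (MonoidAlgebra.single (Abelianization.of g) (1 : ℤ) : RQ G) = Ideal.Quotient.mk (m i) 1 := h2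
    exact Ideal.Quotient.eq.1 h3
  refine ⟨M, hMfin, fun N hN hNfin hNM => ?_⟩
  set J : Subgroup N := (commutator G).subgroupOf N with hJ
  have hJn : J.Normal := inferInstance
  have hcomm : commutator N ≤ J := by
    rw [commutator_def, Subgroup.commutator_le]
    intro a _ b _
    rw [hJ, Subgroup.mem_subgroupOf]
    exact Subgroup.commutator_mem_commutator (Subgroup.mem_top (a : G)) (Subgroup.mem_top (b : G))
  have htors : ∀ y : N, y ^ p ∈ J → y ∈ J := by
    intro y hy
    rw [hJ, Subgroup.mem_subgroupOf] at hy ⊢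
    have h1 : Abelianization.of (y : G) ^ p = 1 := by
      rw [← map_pow]
      exact (QuotientGroup.eq_one_iff _).2 hy
    have h2 := hS₂ p hp hpS.2 _ h1
    exact (QuotientGroup.eq_one_iff _).1 h2
  obtain ⟨h', hh'⟩ := hr (N.map Abelianization.of)
  have hh : ∀ i, ∃ x : N, Abelianization.of (x : G) = h' i := by
    intro i
    have : h' i ∈ N.map Abelianization.of := by
      rw [← hh']; exact Subgroup.subset_closure ⟨i, rfl⟩
    obtain ⟨x, hx, hx'⟩ := this
    exact ⟨⟨x, hx⟩, hx'⟩
  choose h hh using hh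
  have hgen : Subgroup.closure (Set.range h) ⊔ J = ⊤ := by
    rw [Subgroup.eq_top_iff']
    intro x
    have h1 : Abelianization.of (x : G) ∈ Subgroup.closure (Set.range h') := by
      rw [hh']; exact ⟨x, x.2, rfl⟩
    have h2 : Set.range h' = (Abelianization.of.comp N.subtype) '' (Set.range h) := by
      ext a
      constructor
      · rintro ⟨i, rfl⟩
        exact ⟨h i, ⟨i, rfl⟩, hh i⟩
      · rintro ⟨_, ⟨i, rfl⟩, rfl⟩
        exact ⟨i, (hh i).symm⟩
    rw [h2, ← MonoidHom.map_closure] at h1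
    obtain ⟨y, hy, hyx⟩ := h1
    have h3 : y⁻¹ * x ∈ J := by
      rw [hJ, Subgroup.mem_subgroupOf]
      have h4 : Abelianization.of (((y⁻¹ * x : N)) : G) = 1 := by
        change Abelianization.of ((y : G)⁻¹ * (x : G)) = 1
        rw [map_mul, map_inv]
        have h5 : Abelianization.of (y : G) = Abelianization.of (x : G) := hyx
        rw [h5, inv_mul_cancel]
      exact (QuotientGroup.eq_one_iff _).1 h4
    have h6 : x = y * (y⁻¹ * x) := by group
    rw [h6]
    exact mul_mem (Subgroup.mem_sup_left hy) (Subgroup.mem_sup_right h3)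
  have hIfin := clsSub_finite N
  have hI : ∀ i, m i • (⊤ : Submodule (RQ G) (clsSub N)) ≠ ⊤ := by
    intro i hcon
    apply (hm i).2.2 (clsSub N) hIfin
    have := congrArg (Submodule.map (clsSub N).subtype) hcon
    rw [Submodule.map_smul'', Submodule.map_subtype_top] at this
    exact this
  obtain ⟨g, hg, hginv⟩ := exists_functionals (RQ G) (clsSub N) p (C + r ^ 2) m
    (fun i => (hm i).1) hinj (fun i => (hm i).2.1) hI
  have key := le_dp p N J hcomm htors r h hgen (C + r ^ 2)
    (fun x => g ⟨cls ⟨(x : N), x.2⟩, mem_clsSub N ⟨(x : N), x.2⟩ (x : N).2⟩) ?_ ?_ ?_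
  · have h7 : ((C + r ^ 2 : ℕ) : ℕ∞) = (C : ℕ∞) + ((r ^ 2 : ℕ) : ℕ∞) := by push_cast; rfl
    rw [h7] at key
    exact (ENat.add_le_add_iff_right (ENat.natCast_ne_top _)).1 key
  · intro x y
    rw [← map_add]
    congr 1
  · intro t
    obtain ⟨⟨a, ha⟩, hat⟩ := hg t
    obtain ⟨x, hx, rfl⟩ := ha
    refine ⟨⟨⟨x, hx⟩, x.2⟩, ?_⟩
    rw [← hat]
  · intro n x hx
    have h8 : (⟨cls ⟨((n * x * n⁻¹ : N) : G), hx⟩, mem_clsSub N ⟨_, hx⟩ (n * x * n⁻¹ : N).2⟩ :
        clsSub N) = (MonoidAlgebra.single (Abelianization.of (n : G)) (1 : ℤ) : RQ G) •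
          (⟨cls ⟨(x : N), x.2⟩, mem_clsSub N ⟨(x : N), x.2⟩ (x : N).2⟩ : clsSub N) := by
      apply Subtype.ext
      change cls _ = (MonoidAlgebra.single (Abelianization.of (n : G)) (1 : ℤ) : RQ G) • cls _
      rw [single_smul_cls]
      congr 1
    change g ⟨cls ⟨((n * x * n⁻¹ : N) : G), hx⟩, _⟩ = g _
    rw [h8]
    exact hginv _ _ (hMmem n (hNM n.2))

end Pool.Agent.W_MP_6f8a18_al
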