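import Mathlib

namespace Pool.Agent.W_MP_6f8a18_al

universe u

/-- A flag of `ρ`: a chain of subspaces on whose steps the group acts by scalars. -/
structure IsMalcevFlag {K V Γ : Type*} [Field K] [AddCommGroup V] [Module K V] [Group Γ]
    (ρ : Γ →* (V →ₗ[K] V)) (F : ℕ → Submodule K V) (m : ℕ) : Prop where
  mono : Monotone F
  bot : F 0 = ⊥
  top : F m = ⊤
  scal : ∀ g i, ∃ c : K, ∀ v ∈ F (i + 1), ρ g v - c • v ∈ F i

section flag

variable {K V Γ : Type*} [Field K] [AddCommGroup V] [Module K V] [Group Γ]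
  {ρ : Γ →* (V →ₗ[K] V)} {F : ℕ → Submodule K V} {m : ℕ}

theorem IsMalcevFlag.stable (h : IsMalcevFlag ρ F m) (g : Γ) (i : ℕ) {v : V} (hv : v ∈ F i) :
    ρ g v ∈ F i := by
  cases i with
  | zero => rw [h.bot, Submodule.mem_bot] at hv; subst hv; simp
  | succ i =>
    obtain ⟨c, hc⟩ := h.scal g i
    have := (F (i + 1)).add_mem (h.mono (Nat.le_succ i) (hc v hv)) ((F (i + 1)).smul_mem c hv)
    simpa using this

/-- The subgroup of all elements which are unipotent of depth `k` with respect to the flag. -/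
def IsMalcevFlag.level (h : IsMalcevFlag ρ F m) (k : ℕ) : Subgroup Γ where
  carrier := {g | ∀ i, ∀ v ∈ F (i + k), ρ g v - v ∈ F i}
  one_mem' := by
    intro i v _
    simp
  mul_mem' := by
    intro a b ha hb i v hv
    have h1 := ha i _ (h.stable b _ hv)
    have h2 := hb i v hv
    have := (F i).add_mem h1 h2
    simpa [map_mul] using this
  inv_mem' := by
    intro a ha i v hv
    have h1 := ha i _ (h.stable a⁻¹ _ hv)
    have h2 : ρ a (ρ a⁻¹ v) = v := by
      rw [← Module.End.mul_apply, ← map_mul]; simp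
    rw [h2] at h1
    have := (F i).neg_mem h1
    simpa using this

theorem IsMalcevFlag.mem_level (h : IsMalcevFlag ρ F m) (k : ℕ) (g : Γ) :
    g ∈ h.level k ↔ ∀ i, ∀ v ∈ F (i + k), ρ g v - v ∈ F i := Iff.rfl

theorem malcev_comm_apply (ρ : Γ →* (V →ₗ[K] V)) (x g : Γ) (c d : K) (v : V) :
    ρ (x * g * x⁻¹ * g⁻¹) v - v =
      (ρ x (ρ g (ρ (g * x)⁻¹ v) - d • ρ (g * x)⁻¹ v) -
          c • (ρ g (ρ (g * x)⁻¹ v) - d • ρ (g * x)⁻¹ v)) -
        (ρ g (ρ x (ρ (g * x)⁻¹ v) - c • ρ (g * x)⁻¹ v) -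
          d • (ρ x (ρ (g * x)⁻¹ v) - c • ρ (g * x)⁻¹ v)) := by
  have h1 : ρ (x * g * x⁻¹ * g⁻¹) v = ρ x (ρ g (ρ (g * x)⁻¹ v)) := by
    rw [← Module.End.mul_apply, ← Module.End.mul_apply, ← map_mul, ← map_mul]
    congr 2
    group
  have h2 : ρ g (ρ x (ρ (g * x)⁻¹ v)) = v := by
    rw [← Module.End.mul_apply, ← Module.End.mul_apply, ← map_mul, ← map_mul]
    simp
  rw [h1]
  simp only [map_sub, map_smul, smul_sub]
  rw [h2, smul_comm c d]
  abel

theorem IsMalcevFlag.comm_mem (h : IsMalcevFlag ρ F m) (k : ℕ) {x g : Γ} (hx : x ∈ h.level k)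
    (hg : g ∈ h.level 1) : x * g * x⁻¹ * g⁻¹ ∈ h.level (k + 1) := by
  intro i v hv
  have e := malcev_comm_apply ρ x g 1 1 v
  simp only [one_smul] at e
  rw [e]
  have hw : ρ (g * x)⁻¹ v ∈ F (i + (k + 1)) := h.stable _ _ hv
  set w := ρ (g * x)⁻¹ v with hwdef
  refine (F i).sub_mem ?_ ?_
  · refine hx i _ ?_
    refine hg (i + k) w ?_
    simpa [add_assoc] using hw
  · refine hg i _ ?_
    refine hx (i + 1) w ?_
    have : i + 1 + k = i + (k + 1) := by ring
    rw [this]; exact hw

theorem IsMalcevFlag.commutator_le (h : IsMalcevFlag ρ F m) : commutator Γ ≤ h.level 1 := by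
  rw [commutator_def, Subgroup.commutator_le]
  intro x _ g _ i v hv
  obtain ⟨c, hc⟩ := h.scal x i
  obtain ⟨d, hd⟩ := h.scal g i
  rw [commutatorElement_def, malcev_comm_apply ρ x g c d v]
  have hw : ρ (g * x)⁻¹ v ∈ F (i + 1) := h.stable _ _ hv
  set w := ρ (g * x)⁻¹ v with hwdef
  refine (F i).sub_mem ?_ ?_
  · exact (F i).sub_mem (h.stable _ _ (hd w hw)) ((F i).smul_mem _ (hd w hw))
  · exact (F i).sub_mem (h.stable _ _ (hc w hw)) ((F i).smul_mem _ (hc w hw))

theorem IsMalcevFlag.nilpotent (h : IsMalcevFlag ρ F m) (hinj : Function.Injective ρ) :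
    Group.IsNilpotent (commutator Γ) := by
  rw [Subgroup.nilpotent_iff_finite_descending_central_series]
  refine ⟨m, fun k => (h.level (k + 1)).comap (commutator Γ).subtype, ⟨?_, ?_⟩, ?_⟩
  · rw [eq_top_iff]
    intro x _
    exact h.commutator_le x.2
  · intro x n hx g
    rw [Subgroup.mem_comap] at hx ⊢
    have := h.comm_mem (n + 1) hx (h.commutator_le g.2)
    simpa [commutatorElement_def] using this
  · rw [eq_bot_iff]
    intro x hx
    rw [Subgroup.mem_comap] at hx
    rw [Subgroup.mem_bot]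
    apply Subtype.ext
    apply hinj
    apply LinearMap.ext
    intro v
    have hv : v ∈ F (0 + (m + 1)) := by
      have : F m ≤ F (0 + (m + 1)) := h.mono (by omega)
      exact this (by rw [h.top]; trivial)
    have := hx 0 v hv
    rw [h.bot, Submodule.mem_bot, sub_eq_zero] at this
    simpa using this

end flag

/-- The representation induced on the quotient by an invariant subspace, restricted to a smaller
subgroup. -/
noncomputable def malcevQuot {K V Γ Δ : Type*} [Field K] [AddCommGroup V] [Module K V] [Group Γ]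
    [Group Δ] (ρ : Γ →* (V →ₗ[K] V)) (j : Δ →* Γ) (W : Submodule K V)
    (hW : ∀ h : Δ, W ≤ W.comap (ρ (j h))) : Δ →* ((V ⧸ W) →ₗ[K] (V ⧸ W)) where
  toFun h := W.mapQ W (ρ (j h)) (hW h)
  map_one' := by
    apply LinearMap.ext
    intro x
    obtain ⟨v, rfl⟩ := W.mkQ_surjective x
    simp
  map_mul' a b := by
    apply LinearMap.ext
    intro x
    obtain ⟨v, rfl⟩ := W.mkQ_surjective x
    simp

/-- Flags for a finite index subgroup, by induction on the dimension. -/
theorem malcev_flag (K : Type u) [Field K] (Γ : Type u) [Group Γ]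
    (eig : ∀ (V : Type u) [AddCommGroup V] [Module K V] [FiniteDimensional K V] [Nontrivial V]
      (H : Subgroup Γ) (ρ : H →* (V →ₗ[K] V)),
      ∃ H' : Subgroup H, H'.FiniteIndex ∧ ∃ v : V, v ≠ 0 ∧ ∀ h ∈ H', ∃ c : K, ρ h v = c • v)
    (d : ℕ) : ∀ (V : Type u) [AddCommGroup V] [Module K V] [FiniteDimensional K V]
      (_ : Module.finrank K V = d) (H : Subgroup Γ) (_ : H.FiniteIndex) (ρ : H →* (V →ₗ[K] V)),
      ∃ (H' : Subgroup Γ) (hle : H' ≤ H) (_ : H'.FiniteIndex) (F : ℕ → Submodule K V),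
        IsMalcevFlag (ρ.comp (Subgroup.inclusion hle)) F d := by
  induction d with
  | zero =>
    intro V _ _ _ hV H hH ρ
    have hsub : Subsingleton V := Module.finrank_zero_iff.mp hV
    refine ⟨H, le_rfl, hH, fun _ => ⊥, fun _ _ _ => le_rfl, rfl, Subsingleton.elim _ _, ?_⟩
    intro g i
    refine ⟨0, ?_⟩
    intro v _
    rw [Submodule.mem_bot]
    exact Subsingleton.elim _ _
  | succ d ih =>
    intro V _ _ _ hV H hH ρ
    have hnt : Nontrivial V := Module.nontrivial_of_finrank_pos (R := K) (by omega)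
    obtain ⟨H1, hH1, v, hv, hc⟩ := eig V H ρ
    have hle : H1.map H.subtype ≤ H := Subgroup.map_subtype_le H1
    have hfi : (H1.map H.subtype).FiniteIndex := by
      rw [Subgroup.finiteIndex_iff]
      rw [Subgroup.index_map_subtype]
      exact mul_ne_zero hH1.index_ne_zero hH.index_ne_zero
    have hmem : ∀ h : H1.map H.subtype, Subgroup.inclusion hle h ∈ H1 := by
      rintro ⟨_, ⟨h, hh, rfl⟩⟩
      exact hh
    set W : Submodule K V := Submodule.span K {v} with hWdef
    have hW : ∀ h : H1.map H.subtype, W ≤ W.comap (ρ (Subgroup.inclusion hle h)) := by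
      intro h
      rw [hWdef, Submodule.span_singleton_le_iff_mem, Submodule.mem_comap]
      obtain ⟨c, hc⟩ := hc _ (hmem h)
      rw [hc]
      exact Submodule.smul_mem _ _ (Submodule.mem_span_singleton_self v)
    have hfr : Module.finrank K (V ⧸ W) = d := by
      have h1 := Submodule.finrank_quotient_add_finrank W
      have h2 : Module.finrank K W = 1 := finrank_span_singleton hv
      omega
    obtain ⟨H2, hle2, hfi2, F, hF⟩ := ih (V ⧸ W) hfr (H1.map H.subtype) hfi
      (malcevQuot ρ (Subgroup.inclusion hle) W hW)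
    refine ⟨H2, hle2.trans hle, hfi2, fun i => Nat.casesOn i ⊥ fun i => (F i).comap W.mkQ,
      ?_, rfl, ?_, ?_⟩
    · refine monotone_nat_of_le_succ ?_
      intro i
      cases i with
      | zero => exact bot_le
      | succ i => exact Submodule.comap_mono (hF.mono (Nat.le_succ i))
    · change (F d).comap W.mkQ = ⊤
      rw [hF.top, Submodule.comap_top]
    · intro g i
      cases i with
      | zero =>
        obtain ⟨c, hc⟩ := hc _ (hmem (Subgroup.inclusion hle2 g))
        refine ⟨c, ?_⟩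
        intro w hw
        change w ∈ (F 0).comap W.mkQ at hw
        rw [hF.bot, Submodule.mem_comap, Submodule.mem_bot, Submodule.mkQ_apply,
          Submodule.Quotient.mk_eq_zero, hWdef, Submodule.mem_span_singleton] at hw
        obtain ⟨a, rfl⟩ := hw
        change _ ∈ (⊥ : Submodule K V)
        rw [Submodule.mem_bot]
        change ρ (Subgroup.inclusion hle (Subgroup.inclusion hle2 g)) (a • v) - c • a • v = 0
        rw [map_smul, hc, smul_comm, sub_self]
      | succ i =>
        obtain ⟨c, hc⟩ := hF.scal g i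
        refine ⟨c, ?_⟩
        intro w hw
        exact hc (W.mkQ w) hw

/-- From common eigenvectors of finite index subgroups to nilpotency of the commutator subgroup
of a finite index subgroup. -/
theorem malcev_of_eigenvector (K : Type u) [Field K] (n : ℕ) (G : Subgroup (GL (Fin n) K))
    (eig : ∀ (V : Type u) [AddCommGroup V] [Module K V] [FiniteDimensional K V] [Nontrivial V]
      (H : Subgroup G) (ρ : H →* (V →ₗ[K] V)),
      ∃ H' : Subgroup H, H'.FiniteIndex ∧ ∃ v : V, v ≠ 0 ∧ ∀ h ∈ H', ∃ c : K, ρ h v = c • v) :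
    ∃ H : Subgroup G, H.FiniteIndex ∧ Group.IsNilpotent (commutator H) := by
  let τ : Matrix (Fin n) (Fin n) K →* ((Fin n → K) →ₗ[K] (Fin n → K)) :=
    (Matrix.toLinAlgEquiv' : Matrix (Fin n) (Fin n) K ≃ₐ[K] _).toAlgHom.toRingHom.toMonoidHom
  have hτ : Function.Injective τ :=
    (Matrix.toLinAlgEquiv' : Matrix (Fin n) (Fin n) K ≃ₐ[K] _).injective
  let ρ : (⊤ : Subgroup G) →* ((Fin n → K) →ₗ[K] (Fin n → K)) :=
    τ.comp ((Units.coeHom _).comp (G.subtype.comp (⊤ : Subgroup G).subtype))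
  have hρ : Function.Injective ρ := by
    intro a b hab
    exact Subtype.ext (Subtype.ext (Units.ext (hτ hab)))
  obtain ⟨H, hle, hfi, F, hF⟩ := malcev_flag K G eig n (Fin n → K) (by simp) ⊤ inferInstance ρ
  refine ⟨H, hfi, hF.nilpotent ?_⟩
  exact hρ.comp (Subgroup.inclusion_injective hle)

end Pool.Agent.W_MP_6f8a18_al
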