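import Pool.Agent.W_MP_6f8a18_al.Final
import Pool.Agent.W_MP_6f8a18_al.Core
import Pool.Agent.W_MP_6f8a18_al.Burnside

/-!
The order of the finite `p`-quotients of deep normal subgroups `N` with `d_p(N) ≤ r`.
-/

namespace Pool.Agent.W_MP_6f8a18_al

universe u v

open scoped commutatorElement

section Phi

variable (p : ℕ) {G : Type u} [Group G]

instance powComm_char (A : Type v) [Group A] : (powComm p A).Characteristic := by
  rw [Subgroup.characteristic_iff_le_comap]
  intro φ
  exact map_powComm_le p φ.toMonoidHom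

/-- The subgroup `[U,U]U^p` of `U`, as a subgroup of `G`. -/
def Phi (U : Subgroup G) : Subgroup G := (powComm p U).map U.subtype

instance Phi_normal (U : Subgroup G) [U.Normal] : (Phi p U).Normal :=
  ConjAct.normal_of_characteristic_of_normal

theorem Phi_le (U : Subgroup G) : Phi p U ≤ U := Subgroup.map_subtype_le _

theorem pow_mem_Phi {U : Subgroup G} {x : G} (hx : x ∈ U) : x ^ p ∈ Phi p U :=
  ⟨(⟨x, hx⟩ : U) ^ p, Subgroup.mem_sup_right (Subgroup.subset_closure ⟨⟨x, hx⟩, rfl⟩), rfl⟩

theorem comm_mem_Phi {U : Subgroup G} {x y : G} (hx : x ∈ U) (hy : y ∈ U) : ⁅x, y⁆ ∈ Phi p U :=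
  ⟨⁅(⟨x, hx⟩ : U), ⟨y, hy⟩⁆, Subgroup.mem_sup_left (Subgroup.commutator_mem_commutator
    (Subgroup.mem_top _) (Subgroup.mem_top _)), rfl⟩

theorem Phi_le_of {U X : Subgroup G} (h1 : ∀ x ∈ U, x ^ p ∈ X)
    (h2 : ∀ x ∈ U, ∀ y ∈ U, ⁅x, y⁆ ∈ X) : Phi p U ≤ X := by
  rw [Phi, Subgroup.map_le_iff_le_comap]
  refine sup_le ?_ ?_
  · rw [commutator_def, Subgroup.commutator_le]
    intro x _ y _
    exact h2 x x.2 y y.2
  · rw [Subgroup.closure_le]
    rintro _ ⟨y, rfl⟩
    exact h1 y y.2

theorem relIndex_Phi (U : Subgroup G) : (Phi p U).relIndex U = (powComm p U).index := by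
  rw [Subgroup.relIndex, Phi, Subgroup.subgroupOf]
  congr 1
  exact Subgroup.comap_map_eq_self_of_injective Subtype.val_injective _

end Phi

/-- In terms of generators: `U` generated by at most `c` elements has `d_p(U) ≤ c`. -/
theorem dp_le_of_closure (p : ℕ) {A : Type u} [Group A] (S : Set A) (c : ℕ) (hS : S.encard ≤ c)
    (h : Subgroup.closure S ⊔ powComm p A = ⊤) : dp p A ≤ c := by
  have h1 : Subgroup.closure ((QuotientGroup.mk' (powComm p A)) '' S) = ⊤ := by
    have h2 := congrArg (Subgroup.map (QuotientGroup.mk' (powComm p A))) h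
    rw [Subgroup.map_sup, MonoidHom.map_closure, QuotientGroup.map_mk'_self, sup_bot_eq,
      ← MonoidHom.range_eq_map, MonoidHom.range_eq_top.2 (QuotientGroup.mk'_surjective _)] at h2
    exact h2
  exact (iInf_le _ (⟨_, h1⟩ : {S : Set (A ⧸ powComm p A) // Subgroup.closure S = ⊤})).trans
    ((Set.encard_image_le _ _).trans hS)

theorem exists_closure_of_dp (p : ℕ) {A : Type u} [Group A] (c : ℕ) (hc : dp p A ≤ c) :
    ∃ S : Set A, S.encard ≤ c ∧ Subgroup.closure S ⊔ powComm p A = ⊤ := by
  have hex : ∃ S : {S : Set (A ⧸ powComm p A) // Subgroup.closure S = ⊤},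
      (S : Set (A ⧸ powComm p A)).encard ≤ c := by
    by_contra hcon
    push Not at hcon
    have : ((c : ℕ∞) + 1) ≤ minGen (A ⧸ powComm p A) :=
      le_iInf fun S => Order.add_one_le_of_lt (hcon S)
    have h2 : ((c : ℕ∞) + 1) ≤ c := this.trans hc
    have h3 : ((c + 1 : ℕ) : ℕ∞) ≤ (c : ℕ) := by push_cast; exact h2
    have := Nat.cast_le.1 h3
    omega
  obtain ⟨⟨S, hS⟩, hSc⟩ := hex
  refine ⟨Quotient.out '' S, (Set.encard_image_le _ _).trans hSc, ?_⟩
  have h1 : (Subgroup.closure (Quotient.out '' S)).map (QuotientGroup.mk' (powComm p A)) = ⊤ := by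
    rw [MonoidHom.map_closure, Set.image_image]
    have : (fun x : A ⧸ powComm p A => (QuotientGroup.mk' (powComm p A)) x.out) '' S = S := by
      refine (Set.image_congr fun x _ => ?_).trans (Set.image_id S)
      exact Quotient.out_eq x
    exact (congrArg Subgroup.closure this).trans hS
  rw [eq_top_iff]
  intro x _
  have hx : (QuotientGroup.mk' (powComm p A)) x ∈
      (Subgroup.closure (Quotient.out '' S)).map (QuotientGroup.mk' (powComm p A)) := by
    rw [h1]; trivial
  obtain ⟨y, hy, hyx⟩ := hx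
  have h2 : y⁻¹ * x ∈ powComm p A := QuotientGroup.eq.1 hyx
  have h3 : x = y * (y⁻¹ * x) := by group
  rw [h3]
  exact mul_mem (Subgroup.mem_sup_left hy) (Subgroup.mem_sup_right h2)

/-- An element of a normal subgroup `U` with at most `B` elements is centralized by every subgroup
contained in all subgroups of index at most `B`. -/
theorem commute_of_card_le {G : Type u} [Group G] (U : Subgroup G) [U.Normal] [Finite U] (B : ℕ)
    (hB : Nat.card U ≤ B) (P : Subgroup G)
    (hM : ∀ H : Subgroup G, H.index ≠ 0 → H.index ≤ B → P ≤ H) (x y : G) (hx : x ∈ U)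
    (hy : y ∈ P) : y * x = x * y := by
  have horb : MulAction.orbit (ConjAct G) x ⊆ (U : Set G) := by
    rintro _ ⟨g, rfl⟩
    exact (inferInstance : U.Normal).conj_mem x hx (ConjAct.ofConjAct g)
  have hfin : (U : Set G).Finite := Set.toFinite _
  have hc : (MulAction.orbit (ConjAct G) x).ncard ≤ B := by
    refine (Set.ncard_le_ncard horb hfin).trans ?_
    exact hB
  have hpos : 0 < (MulAction.orbit (ConjAct G) x).ncard :=
    (Set.ncard_pos (hfin.subset horb)).2 ⟨x, MulAction.mem_orbit_self x⟩
  let H : Subgroup G := (MulAction.stabilizer (ConjAct G) x).comap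
    (ConjAct.toConjAct : G ≃* ConjAct G).toMonoidHom
  have hidx : H.index = (MulAction.orbit (ConjAct G) x).ncard := by
    rw [← MulAction.index_stabilizer]
    exact Subgroup.index_comap_of_surjective _ (ConjAct.toConjAct : G ≃* ConjAct G).surjective
  have h1 := hM H (by rw [hidx]; exact hpos.ne') (by rw [hidx]; exact hc) hy
  have h2 : y * x * y⁻¹ = x := h1
  exact mul_inv_eq_iff_eq_mul.1 h2

theorem closure_preimage {G : Type u} [Group G] (U : Subgroup G) (S : Set G)
    (hSU : Subgroup.closure S = U) :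
    Subgroup.closure (Subtype.val ⁻¹' S : Set U) = ⊤ := by
  apply Subgroup.map_injective U.subtype_injective
  rw [MonoidHom.map_closure, ← MonoidHom.range_eq_map, Subgroup.range_subtype]
  have : (U.subtype : U → G) '' (Subtype.val ⁻¹' S) = S := by
    rw [Subgroup.coe_subtype]
    refine (Subtype.image_preimage_coe (U : Set G) S).trans (Set.inter_eq_right.2 ?_)
    rw [← hSU]
    exact Subgroup.subset_closure
  rw [this, hSU]

theorem dp_le_of_closure_eq (p : ℕ) {G : Type u} [Group G] (U : Subgroup G) (S : Set G) (r : ℕ)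
    (hS : S.encard ≤ r) (hSU : Subgroup.closure S = U) : dp p U ≤ r :=
  dp_le_of_closure p (Subtype.val ⁻¹' S) r
    ((Set.encard_preimage_val_le_encard_right U S).trans hS)
    (by rw [closure_preimage U S hSU, top_sup_eq])

/-- A finite normal `p`-subgroup `U` generated by `r` elements, contained in all subgroups of index
at most `p ^ (r + p ^ r * r)`, satisfies `[U,U] ≤ Φ(Φ(U))`. -/
theorem comm_mem_PhiPhi (p r : ℕ) [Fact p.Prime] {G : Type u} [Group G] (U : Subgroup G)
    [U.Normal] [Finite U] (S : Set G) (hS : S.encard ≤ r) (hSU : Subgroup.closure S = U)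
    (hM : ∀ H : Subgroup G, H.index ≠ 0 → H.index ≤ p ^ (r + p ^ r * r) → U ≤ H) (x y : G)
    (hx : x ∈ U) (hy : y ∈ U) : ⁅x, y⁆ ∈ Phi p (Phi p U) := by
  classical
  -- generators of `U`
  let S' : Set U := Subtype.val ⁻¹' S
  have hS' : Subgroup.closure S' = ⊤ := closure_preimage U S hSU
  have hS'c : S'.encard ≤ r := (Set.encard_preimage_val_le_encard_right U S).trans hS
  have hd : dp p U ≤ r := dp_le_of_closure_eq p U S r hS hSU
  have hidx := (powComm_index_le p U r hd).2
  -- generators of `V = Φ(U)`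
  have hS'fin : S'.Finite := Set.finite_of_encard_le_coe hS'c
  obtain ⟨T, hTc, hT⟩ := Subgroup.exists_finset_card_le_mul (powComm p U)
    (S := hS'fin.toFinset) (by rw [Set.Finite.coe_toFinset]; exact hS')
  have hTc' : T.card ≤ p ^ r * r := by
    refine hTc.trans (Nat.mul_le_mul hidx ?_)
    rw [← Set.ncard_eq_toFinset_card S' hS'fin]
    have := hS'fin.cast_ncard_eq ▸ hS'c
    exact_mod_cast this
  have hdV : dp p (Phi p U) ≤ ((p ^ r * r : ℕ) : ℕ∞) := by
    let e := (powComm p U).equivMapOfInjective U.subtype U.subtype_injective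
    refine (dp_le_of_surjective p e.toMonoidHom e.surjective).trans ?_
    refine dp_le_of_closure p (T : Set (powComm p U)) _ ?_ (by rw [hT, top_sup_eq])
    rw [Set.encard_coe_eq_coe_finsetCard]
    exact_mod_cast hTc'
  have hidxV := (powComm_index_le p (Phi p U) _ hdV).2
  -- the order of `U/Φ(Φ(U))`
  have hrel : (Phi p (Phi p U)).relIndex U ≤ p ^ (r + p ^ r * r) := by
    rw [← Subgroup.relIndex_mul_relIndex _ _ _ (Phi_le p (Phi p U)) (Phi_le p U), relIndex_Phi,
      relIndex_Phi, pow_add, mul_comm (p ^ r)]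
    exact Nat.mul_le_mul hidxV hidx
  let q := QuotientGroup.mk' (Phi p (Phi p U))
  have hcard : Nat.card (U.map q) ≤ p ^ (r + p ^ r * r) := by
    rw [← Subgroup.relIndex_bot_left, ← Subgroup.relIndex_comap, MonoidHom.comap_bot,
      QuotientGroup.ker_mk']
    exact hrel
  have hfinm : Finite (U.map q) := Finite.of_surjective _ (q.subgroupMap_surjective U)
  have hn : (U.map q).Normal := Subgroup.Normal.map inferInstance q (QuotientGroup.mk'_surjective _)
  have hcomm := commute_of_card_le (U.map q) _ hcard (U.map q) (fun H h0 h1 => by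
    rw [Subgroup.map_le_iff_le_comap]
    have h2 := Subgroup.index_comap_of_surjective H (f := q) (QuotientGroup.mk'_surjective _)
    exact hM _ (by rw [h2]; exact h0) (by rw [h2]; exact h1)) (q x) (q y) ⟨x, hx, rfl⟩ ⟨y, hy, rfl⟩
  rw [← QuotientGroup.eq_one_iff]
  change q ⁅x, y⁆ = 1
  rw [map_commutatorElement, commutatorElement_eq_one_iff_mul_comm]
  exact hcomm.symm

/-- The main bound in the case of a finite normal `p`-subgroup `U`. -/
theorem card_le_pow (p r : ℕ) [Fact p.Prime] {G : Type u} [Group G] (N : Subgroup G)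
    (hM : ∀ H : Subgroup G, H.index ≠ 0 → H.index ≤ p ^ (r + p ^ r * r) → N ≤ H) (j : ℕ) :
    ∀ (U : Subgroup G) [U.Normal] [Finite U], U ≤ N → IsPGroup p U → ∀ S : Set G,
      S.encard ≤ r → Subgroup.closure S = U → (∀ s ∈ S, s ^ p ^ j = 1) →
      Nat.card U ≤ p ^ (r * j) := by
  classical
  induction j with
  | zero =>
    intro U _ _ _ _ S _ hSU hS1
    have : U = ⊥ := by
      rw [← hSU, Subgroup.closure_eq_bot_iff]
      intro s hs
      simpa using hS1 s hs
    subst this
    simp
  | succ j ih =>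
    intro U _ _ hUN hpU S hS hSU hS1
    have hSmem : ∀ s ∈ S, s ∈ U := fun s hs => hSU ▸ Subgroup.subset_closure hs
    have hcomm := comm_mem_PhiPhi p r U S hS hSU (fun H h0 h1 => hUN.trans (hM H h0 h1))
    have hVU := Phi_le p U
    have hfV : Finite (Phi p U) := Finite.Set.subset (U : Set G) hVU
    have hpV : IsPGroup p (Phi p U) := hpU.to_le hVU
    let S' : Set G := (fun s => s ^ p) '' S
    have hS'le : Subgroup.closure S' ≤ Phi p U := by
      rw [Subgroup.closure_le]
      rintro _ ⟨s, hs, rfl⟩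
      exact pow_mem_Phi p (hSmem s hs)
    -- the `p`-th powers of the generators generate `Φ(U)` modulo `Φ(Φ(U))`
    have hmod : ∀ x y, x ∈ U → y ∈ U → (x ^ p * y ^ p)⁻¹ * (x * y) ^ p ∈ Phi p (Phi p U) := by
      intro x y hx hy
      have h1 : Commute (x : G ⧸ Phi p (Phi p U)) (y : G ⧸ Phi p (Phi p U)) := by
        have h2 : ((⁅x, y⁆ : G) : G ⧸ Phi p (Phi p U)) = 1 :=
          (QuotientGroup.eq_one_iff _).2 (hcomm x y hx hy)
        have h3 : ⁅(x : G ⧸ Phi p (Phi p U)), (y : G ⧸ Phi p (Phi p U))⁆ = 1 := h2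
        exact commutatorElement_eq_one_iff_mul_comm.1 h3
      rw [← QuotientGroup.eq]
      exact (h1.mul_pow p).symm
    have hgen : Phi p U ≤ Subgroup.closure S' ⊔ Phi p (Phi p U) := by
      refine Phi_le_of p ?_ fun x hx y hy => Subgroup.mem_sup_right (hcomm x y hx hy)
      intro x hx
      rw [← hSU] at hx
      refine Subgroup.closure_induction (p := fun x _ => x ^ p ∈
        Subgroup.closure S' ⊔ Phi p (Phi p U)) ?_ ?_ ?_ ?_ hx
      · intro s hs
        exact Subgroup.mem_sup_left (Subgroup.subset_closure ⟨s, hs, rfl⟩)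
      · rw [one_pow]; exact one_mem _
      · intro x y hx hy hx' hy'
        have h1 := hmod x y (hSU ▸ hx) (hSU ▸ hy)
        have h2 : (x * y) ^ p = (x ^ p * y ^ p) * ((x ^ p * y ^ p)⁻¹ * (x * y) ^ p) := by group
        rw [h2]
        exact mul_mem (mul_mem hx' hy') (Subgroup.mem_sup_right h1)
      · intro x _ hx'
        rw [inv_pow]
        exact inv_mem hx'
    have hS'V : Subgroup.closure S' = Phi p U := by
      have hB : Subgroup.closure (Subtype.val ⁻¹' S' : Set (Phi p U)) = ⊤ := by
        refine burnside_basis p (Phi p U) hpV _ ?_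
        apply Subgroup.map_injective (Phi p U).subtype_injective
        rw [Subgroup.map_sup, MonoidHom.map_closure, ← MonoidHom.range_eq_map,
          Subgroup.range_subtype]
        have h1 : ((Phi p U).subtype : Phi p U → G) '' (Subtype.val ⁻¹' S') = S' := by
          rw [Subgroup.coe_subtype]
          refine (Subtype.image_preimage_coe (Phi p U : Set G) S').trans
            (Set.inter_eq_right.2 ?_)
          exact Subgroup.subset_closure.trans hS'le
        rw [h1]
        exact le_antisymm (sup_le hS'le (Phi_le p _)) hgen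
      have h2 := congrArg (Subgroup.map (Phi p U).subtype) hB
      rw [MonoidHom.map_closure, ← MonoidHom.range_eq_map, Subgroup.range_subtype] at h2
      have h1 : ((Phi p U).subtype : Phi p U → G) '' (Subtype.val ⁻¹' S') = S' := by
        rw [Subgroup.coe_subtype]
        refine (Subtype.image_preimage_coe (Phi p U : Set G) S').trans
          (Set.inter_eq_right.2 ?_)
        exact Subgroup.subset_closure.trans hS'le
      rw [h1] at h2
      exact h2
    have hcV := ih (Phi p U) (hVU.trans hUN) hpV S' ((Set.encard_image_le _ _).trans hS) hS'V (by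
      rintro _ ⟨s, hs, rfl⟩
      rw [← pow_mul, ← pow_succ']
      exact hS1 s hs)
    have hd : dp p U ≤ r := dp_le_of_closure_eq p U S r hS hSU
    have hidx := (powComm_index_le p U r hd).2
    rw [← Subgroup.relIndex_bot_left, ← Subgroup.relIndex_mul_relIndex ⊥ (Phi p U) U bot_le hVU,
      Subgroup.relIndex_bot_left, relIndex_Phi]
    calc Nat.card (Phi p U) * (powComm p U).index ≤ p ^ (r * j) * p ^ r :=
          Nat.mul_le_mul hcV hidx
      _ = p ^ (r * (j + 1)) := by rw [← pow_add, mul_add, mul_one]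

/-- A finitely generated group has, for every `r`, a normal subgroup `M` of finite index such that
for every normal subgroup `N ≤ M` with `d_p(N) ≤ r`, every quotient `N/K` (`K` normal in the whole
group) which is a finite group of exponent dividing `p ^ j` has order at most `p ^ (r j)`. -/
theorem relIndex_le (Γ : Type u) [Group Γ] [Group.FG Γ] (p : ℕ) [Fact p.Prime] (r : ℕ) :
    ∃ M : Subgroup Γ, M.Normal ∧ M.FiniteIndex ∧
      ∀ N : Subgroup Γ, N.Normal → N ≤ M → dp p N ≤ r →
      ∀ (K : Subgroup Γ) (j : ℕ), K.Normal → K ≤ N → (∀ x ∈ N, x ^ p ^ j ∈ K) →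
        K.relIndex N ≠ 0 → K.relIndex N ≤ p ^ (r * j) := by
  classical
  obtain ⟨M, hMn, hMf, hM⟩ := exists_core Γ (p ^ (r + p ^ r * r))
  refine ⟨M, hMn, hMf, ?_⟩
  intro N hN hNM hd K j hK hKN hexp hrel
  let q := QuotientGroup.mk' K
  have hcard : Nat.card (N.map q) = K.relIndex N := by
    rw [← Subgroup.relIndex_bot_left, ← Subgroup.relIndex_comap, MonoidHom.comap_bot,
      QuotientGroup.ker_mk']
  have hfin : Finite (N.map q) := Nat.finite_of_card_ne_zero (by rw [hcard]; exact hrel)
  have hn : (N.map q).Normal := hN.map q (QuotientGroup.mk'_surjective _)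
  have hexp' : ∀ x ∈ N.map q, x ^ p ^ j = 1 := by
    rintro _ ⟨x, hx, rfl⟩
    rw [← map_pow]
    exact (QuotientGroup.eq_one_iff _).2 (hexp x hx)
  have hp : IsPGroup p (N.map q) := fun x => ⟨j, Subtype.ext (hexp' x x.2)⟩
  obtain ⟨S₀, hS₀, hgen⟩ := exists_closure_of_dp p r hd
  let f : N →* N.map q := q.subgroupMap N
  have hf : Function.Surjective f := q.subgroupMap_surjective N
  have h1 : Subgroup.closure (f '' S₀) = ⊤ := by
    refine burnside_basis p _ hp _ ?_
    have h2 := congrArg (Subgroup.map f) hgen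
    rw [Subgroup.map_sup, MonoidHom.map_closure, ← MonoidHom.range_eq_map,
      MonoidHom.range_eq_top.2 hf] at h2
    rw [eq_top_iff, ← h2]
    exact sup_le_sup_left (Subgroup.map_le_iff_le_comap.2 (map_powComm_le p f)) _
  have h3 : Subgroup.closure (Subtype.val '' (f '' S₀)) = N.map q := by
    have h2 := congrArg (Subgroup.map (N.map q).subtype) h1
    rw [MonoidHom.map_closure, ← MonoidHom.range_eq_map, Subgroup.range_subtype] at h2
    exact h2
  rw [← hcard]
  refine card_le_pow p r (N.map q) ?_ j (N.map q) le_rfl hp _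
    ((Set.encard_image_le _ _).trans ((Set.encard_image_le _ _).trans hS₀)) h3 ?_
  · intro H h0 h4
    rw [Subgroup.map_le_iff_le_comap]
    have h5 := Subgroup.index_comap_of_surjective H (f := q) (QuotientGroup.mk'_surjective _)
    exact hNM.trans (hM _ (by rw [h5]; exact h0) (by rw [h5]; exact h4))
  · rintro _ ⟨x, -, rfl⟩
    exact hexp' _ x.2

end Pool.Agent.W_MP_6f8a18_al
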