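import Pool.Agent.W_MP_6f8a18_al.Defs

namespace Pool.Agent.W_MP_6f8a18_al

universe u v

theorem exists_embedding (C : Type u) [CommRing C] [Algebra ℚ C] [Module.Finite ℚ C] (n : ℕ) :
    ∃ (m : ℕ) (f : GL (Fin n) C →* GL (Fin m) ℚ), Function.Injective f := by
  classical
  let b := Module.finBasis ℚ (Fin n → C)
  let g1 : Matrix (Fin n) (Fin n) C →* Module.End C (Fin n → C) :=
    (Matrix.toLinAlgEquiv' (R := C) (n := Fin n) : _ →* _)
  let g2 : Module.End C (Fin n → C) →* Module.End ℚ (Fin n → C) :=
    { toFun := fun f => f.restrictScalars ℚ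
      map_one' := rfl
      map_mul' := fun _ _ => rfl }
  let g3 : Module.End ℚ (Fin n → C) →*
      Matrix (Fin (Module.finrank ℚ (Fin n → C))) (Fin (Module.finrank ℚ (Fin n → C))) ℚ :=
    (LinearMap.toMatrixAlgEquiv b : _ →* _)
  refine ⟨Module.finrank ℚ (Fin n → C), Units.map (g3.comp (g2.comp g1)), ?_⟩
  apply Units.map_injective
  have h1 : Function.Injective g1 := (Matrix.toLinAlgEquiv' (R := C) (n := Fin n)).injective
  have h2 : Function.Injective g2 := fun f g h => by
    refine LinearMap.ext fun x => ?_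
    exact congrArg (fun k : Module.End ℚ (Fin n → C) => k x) h
  have h3 : Function.Injective g3 := (LinearMap.toMatrixAlgEquiv b).injective
  exact h3.comp (h2.comp h1)

end Pool.Agent.W_MP_6f8a18_al
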