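import Pool.Agent.W_MP_6f8a18_al.Defs

namespace Pool.Agent.W_MP_6f8a18_al

universe u v

/-- a finite set of elements that are pairwise distinct modulo `m` is small -/
theorem card_le_of_distinct (R : Type u) [CommRing R] (V : Type v) [AddCommGroup V] [Module ℚ V]
    [Module.Finite ℚ V] (f : R →+ V) (hf : Function.Injective f) (m : ℕ) (hm : m ≠ 0)
    (T : Finset R)
    (hT : ∀ x ∈ T, ∀ y ∈ T, Ideal.Quotient.mk (Ideal.span {(m : R)}) x
      = Ideal.Quotient.mk (Ideal.span {(m : R)}) y → x = y) :
    T.card ≤ m ^ Module.finrank ℚ V := by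
  classical
  have : NeZero m := ⟨hm⟩
  let F : Submodule ℤ R := Submodule.span ℤ (T : Set R)
  have : Module.Finite ℤ F := Module.Finite.iff_fg.mpr ⟨T, rfl⟩
  let fl : R →ₗ[ℤ] V := f.toIntLinearMap
  have hfl : Function.Injective fl := hf
  have : IsAddTorsionFree V := IsAddTorsionFree.of_module_rat V
  have : IsAddTorsionFree R := hf.isAddTorsionFree f
  have : IsAddTorsionFree F :=
    (Submodule.subtype_injective F).isAddTorsionFree F.subtype.toAddMonoidHom
  have : Module.Free ℤ F := inferInstance
  let b := Module.finBasis ℤ F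
  set e := Module.finrank ℤ F with he
  have hli : LinearIndependent ℤ (fun i => fl (b i : R)) := by
    have h1 : LinearIndependent ℤ b := b.linearIndependent
    have h2 := (h1.map' F.subtype (Submodule.ker_subtype F)).map' fl
      (LinearMap.ker_eq_bot.mpr hfl)
    exact h2
  have hliQ : LinearIndependent ℚ (fun i => fl (b i : R)) :=
    (LinearIndependent.iff_fractionRing ℤ ℚ).mp hli
  have hed : e ≤ Module.finrank ℚ V := by
    have := hliQ.fintype_card_le_finrank
    simpa using this
  have hsub : ∀ x ∈ T, x ∈ F := fun x hx => Submodule.subset_span hx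
  let g : T → (Fin e → ZMod m) := fun x i => ((b.repr ⟨x, hsub x x.2⟩ i : ℤ) : ZMod m)
  have hg : Function.Injective g := by
    intro x y hxy
    apply Subtype.ext
    apply hT x x.2 y y.2
    rw [Ideal.Quotient.eq]
    have hc : ∀ i, ∃ c : ℤ, b.repr ⟨x, hsub x x.2⟩ i - b.repr ⟨y, hsub y y.2⟩ i = m * c := by
      intro i
      have := congrFun hxy i
      simp only [g] at this
      rw [ZMod.intCast_eq_intCast_iff_dvd_sub] at this
      obtain ⟨c, hc⟩ := this
      exact ⟨-c, by rw [mul_neg, ← hc]; ring⟩
    choose c hc using hc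
    have hxF : (⟨x, hsub x x.2⟩ : F) - ⟨y, hsub y y.2⟩ = (m:ℤ) • ∑ i, c i • b i := by
      apply b.repr.injective
      ext i
      rw [map_sub, Finsupp.sub_apply, hc i, map_smul, Finsupp.smul_apply, map_sum,
        Finsupp.finsetSum_apply]
      simp [Finsupp.single_apply]
    have h3 : (x:R) - y = (m:R) * ((∑ i, c i • b i : F) : R) := by
      have := congrArg (fun z : F => (z : R)) hxF
      simpa [zsmul_eq_mul] using this
    rw [h3]
    exact Ideal.mul_mem_right _ _ (Ideal.mem_span_singleton_self _)
  have hcard := Fintype.card_le_of_injective g hg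
  have h4 : Fintype.card (Fin e → ZMod m) = m ^ e := by
    rw [Fintype.card_fun, ZMod.card, Fintype.card_fin]
  rw [h4, Fintype.card_coe] at hcard
  exact hcard.trans (Nat.pow_le_pow_right (Nat.pos_of_ne_zero hm) hed)

theorem finite_quot (R : Type u) [CommRing R] (V : Type v) [AddCommGroup V] [Module ℚ V]
    [Module.Finite ℚ V] (f : R →+ V) (hf : Function.Injective f) (m : ℕ) (hm : m ≠ 0) :
    Finite (R ⧸ Ideal.span {(m : R)}) := by
  classical
  by_contra hinf
  rw [not_finite_iff_infinite] at hinf
  obtain ⟨s, hs⟩ := Infinite.exists_subset_card_eq (R ⧸ Ideal.span {(m : R)})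
    (m ^ Module.finrank ℚ V + 1)
  have hmk : ∀ z : R ⧸ Ideal.span {(m : R)},
      Ideal.Quotient.mk (Ideal.span {(m : R)}) (Quotient.out z) = z := fun z => Quotient.out_eq z
  have hinj : Function.Injective (Quotient.out : R ⧸ Ideal.span {(m : R)} → R) := by
    intro x y hxy
    rw [← hmk x, ← hmk y, hxy]
  have h := card_le_of_distinct R V f hf m hm (s.image Quotient.out) (by
    intro x hx y hy hxy
    rw [Finset.mem_image] at hx hy
    obtain ⟨x', -, rfl⟩ := hx
    obtain ⟨y', -, rfl⟩ := hy
    rw [hmk, hmk] at hxy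
    rw [hxy])
  rw [Finset.card_image_of_injective _ hinj, hs] at h
  omega

end Pool.Agent.W_MP_6f8a18_al
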