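import Pool.Agent.W_MP_6f8a18_al.Pow
import Pool.Agent.W_MP_6f8a18_al.Layers
import Pool.Agent.W_MP_6f8a18_al.Units
import Pool.Agent.W_MP_6f8a18_al.ResFin
import Pool.Agent.W_MP_6f8a18_al.QEmb
import Pool.Agent.W_MP_6f8a18_al.Ideals

/-!
Finitely generated linear groups of characteristic zero which do not embed in `GL_m(ℚ)`.
-/

namespace Pool.Agent.W_MP_6f8a18_al

universe u v

theorem GL_map_injective {R : Type u} {R' : Type v} [CommRing R] [CommRing R'] (n : ℕ)
    (f : R →+* R') (hf : Function.Injective f) :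
    Function.Injective (Matrix.GeneralLinearGroup.map (n := Fin n) f) := by
  intro x y hxy
  ext i j
  have h4 := congrArg (fun z : GL (Fin n) R' => z.val i j) hxy
  exact hf h4

/-- A finitely generated linear group is defined over a finitely generated ring. -/
theorem exists_lift (K : Type u) [Field K] (n : ℕ) (Γ : Subgroup (GL (Fin n) K))
    (hΓ : Group.FG Γ) :
    ∃ (s : Finset K) (ρ : Γ →* GL (Fin n) (Algebra.adjoin ℤ (s : Set K))),
      Function.Injective ρ := by
  classical
  obtain ⟨T, hT⟩ := hΓ.out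
  let s : Finset K := T.biUnion fun g =>
    (Finset.univ.image fun ij : Fin n × Fin n => g.1.val ij.1 ij.2) ∪
    (Finset.univ.image fun ij : Fin n × Fin n => (g.1⁻¹).val ij.1 ij.2)
  have hs1 : ∀ g ∈ T, ∀ i j, g.1.val i j ∈ Algebra.adjoin ℤ (s : Set K) := by
    intro g hg i j
    refine Algebra.subset_adjoin ?_
    rw [Finset.mem_coe, Finset.mem_biUnion]
    exact ⟨g, hg, Finset.mem_union_left _ (Finset.mem_image.2 ⟨(i, j), Finset.mem_univ _, rfl⟩)⟩
  have hs2 : ∀ g ∈ T, ∀ i j, (g.1⁻¹).val i j ∈ Algebra.adjoin ℤ (s : Set K) := by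
    intro g hg i j
    refine Algebra.subset_adjoin ?_
    rw [Finset.mem_coe, Finset.mem_biUnion]
    exact ⟨g, hg, Finset.mem_union_right _ (Finset.mem_image.2 ⟨(i, j), Finset.mem_univ _, rfl⟩)⟩
  let A := Algebra.adjoin ℤ (s : Set K)
  have hA : Function.Injective (algebraMap A K) := Subtype.val_injective
  let φ := Matrix.GeneralLinearGroup.map (n := Fin n) (algebraMap A K)
  have hφ : Function.Injective φ := GL_map_injective n _ hA
  let ψ : Matrix (Fin n) (Fin n) A →+* Matrix (Fin n) (Fin n) K := (algebraMap A K).mapMatrix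
  have hψ : Function.Injective ψ := by
    intro x y hxy
    ext i j
    exact congrFun (congrFun hxy i) j
  have hrange : ∀ g : Γ, (g : GL (Fin n) K) ∈ φ.range := by
    intro g
    have h1 : Subgroup.closure (T : Set Γ) ≤ φ.range.comap Γ.subtype := by
      rw [Subgroup.closure_le]
      intro g hg
      let M : Matrix (Fin n) (Fin n) A := fun i j => ⟨g.1.val i j, hs1 g hg i j⟩
      let M' : Matrix (Fin n) (Fin n) A := fun i j => ⟨(g.1⁻¹).val i j, hs2 g hg i j⟩
      have e1 : ψ M = g.1.val := rfl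
      have e2 : ψ M' = (g.1⁻¹).val := rfl
      have h2 : M * M' = 1 := by
        apply hψ
        rw [map_mul, map_one, e1, e2]
        exact Units.mul_inv _
      have h3 : M' * M = 1 := by
        apply hψ
        rw [map_mul, map_one, e1, e2]
        exact Units.inv_mul _
      refine ⟨⟨M, M', h2, h3⟩, ?_⟩
      ext i j
      rfl
    rw [hT] at h1
    exact h1 (Subgroup.mem_top g)
  let ρ : Γ →* GL (Fin n) A :=
    (MonoidHom.ofInjective hφ).symm.toMonoidHom.comp
      (Γ.subtype.codRestrict φ.range hrange)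
  refine ⟨s, ρ, ?_⟩
  refine (MonoidHom.ofInjective hφ).symm.injective.comp ?_
  intro x y hxy
  exact Subtype.ext (congrArg (fun z : φ.range => (z : GL (Fin n) K)) hxy)

/-- Torsion-freeness and finiteness from a faithful map into a finite dimensional `ℚ`-algebra. -/
theorem torsionfree_of_algebra {A : Type u} [CommRing A] (I : Ideal A) (C : Type v) [CommRing C]
    [Algebra ℚ C] (f : A ⧸ I →+* C) (hf : Function.Injective f) (e : ℤ) (x : A) (he : e ≠ 0)
    (hx : (e : A) * x ∈ I) : x ∈ I := by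
  rw [← Ideal.Quotient.eq_zero_iff_mem] at hx ⊢
  apply hf
  rw [map_zero]
  have h1 := congrArg f hx
  rw [map_mul, map_mul, map_zero, map_intCast, map_intCast] at h1
  have h2 : (algebraMap ℚ C ((e : ℚ)⁻¹)) * (e : C) = 1 := by
    have : (e : C) = algebraMap ℚ C (e : ℚ) := by simp
    rw [this, ← map_mul, inv_mul_cancel₀ (by exact_mod_cast he), map_one]
  calc f (Ideal.Quotient.mk I x)
      = (algebraMap ℚ C ((e : ℚ)⁻¹)) * (e : C) * f (Ideal.Quotient.mk I x) := by
        rw [h2, one_mul]
    _ = 0 := by rw [mul_assoc, h1, mul_zero]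

theorem finite_of_algebra {A : Type u} [CommRing A] (I : Ideal A) (C : Type v) [CommRing C]
    [Algebra ℚ C] [Module.Finite ℚ C] (f : A ⧸ I →+* C) (hf : Function.Injective f) (p : ℕ)
    (hp : p ≠ 0) (j : ℕ) : Finite (A ⧸ (I ⊔ Ideal.span {(p : A) ^ j})) := by
  have h1 := finite_quot (A ⧸ I) C f.toAddMonoidHom hf (p ^ j) (pow_ne_zero _ hp)
  have h2 : (Ideal.span {(p : A) ^ j}).map (Ideal.Quotient.mk I) =
      Ideal.span {((p ^ j : ℕ) : A ⧸ I)} := by
    rw [Ideal.map_span, Set.image_singleton]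
    simp
  rw [← h2] at h1
  exact Finite.of_equiv _ (DoubleQuot.quotQuotEquivQuotSup I (Ideal.span {(p : A) ^ j})).toEquiv

/-- Every finitely generated linear group of characteristic zero satisfies (a) or embeds in
`GL_m(ℚ)` for some `m`. -/
theorem ratEmb (K : Type u) [Field K] [CharZero K] (n : ℕ) (Γ : Subgroup (GL (Fin n) K))
    (hΓ : Group.FG Γ) :
    (∃ S : Finset ℕ, ∀ p : ℕ, p.Prime → p ∉ S → NL p Γ = ⊤) ∨
      ∃ (m : ℕ) (f : Γ →* GL (Fin m) ℚ), Function.Injective f := by
  classical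
  obtain ⟨s, ρ, hρ⟩ := exists_lift K n Γ hΓ
  obtain ⟨I, S, hanti, hmul, hbot, hC, hsep⟩ := exists_ideals K s
    (fun F _ _ s hs => exists_not_unit F s hs)
  by_cases hinf : {i | ¬ cong ρ (I i) ≤ cong ρ (I (i + 1))}.Infinite
  · left
    refine ⟨S, fun p hp hpS => ?_⟩
    have : Fact p.Prime := ⟨hp⟩
    refine NL_eq_top_of_layers Γ _ n ρ I hanti hmul p ?_ ?_ (hsep p hp hpS) hinf
      (fun r => relIndex_le Γ p r)
    · intro k e x he hx
      obtain ⟨C, _, _, f, hfin, hf⟩ := hC k
      exact torsionfree_of_algebra (I k) C f hf e x he hx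
    · intro k j
      obtain ⟨C, _, _, f, hfin, hf⟩ := hC k
      exact finite_of_algebra (I k) C f hf p hp.ne_zero j
  · right
    rw [Set.not_infinite] at hinf
    obtain ⟨k₀, hk₀⟩ := hinf.bddAbove
    have hstep : ∀ i, k₀ + 1 ≤ i → cong ρ (I i) ≤ cong ρ (I (i + 1)) := by
      intro i hi
      by_contra h
      have := hk₀ h
      omega
    have hle : ∀ i, cong ρ (I (k₀ + 1)) ≤ cong ρ (I (k₀ + 1 + i)) := by
      intro i
      induction i with
      | zero => exact le_rfl
      | succ i ih => exact ih.trans (hstep _ (by omega))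
    have htriv : ∀ g, g ∈ cong ρ (I (k₀ + 1)) → g = 1 := by
      intro g hg
      apply hρ
      rw [map_one]
      ext i j
      have h1 : (ρ g).val i j - (1 : Matrix (Fin n) (Fin n) _) i j ∈ ⨅ i, I i := by
        rw [Ideal.mem_iInf]
        intro l
        have h2 := (mem_cong ρ _ g).1 (hle l hg) i j
        exact hanti (by omega) h2
      rw [hbot, Ideal.mem_bot, sub_eq_zero] at h1
      exact congrArg Subtype.val h1
    obtain ⟨C, _, _, f, hfin, hf⟩ := hC (k₀ + 1)
    obtain ⟨m, F, hF⟩ := exists_embedding C n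
    refine ⟨m, F.comp ((Matrix.GeneralLinearGroup.map f).comp
      ((Matrix.GeneralLinearGroup.map (Ideal.Quotient.mk (I (k₀ + 1)))).comp ρ)), ?_⟩
    refine hF.comp ((GL_map_injective n f hf).comp ?_)
    rw [injective_iff_map_eq_one]
    intro g hg
    exact htriv g hg

end Pool.Agent.W_MP_6f8a18_al
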