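import Pool.Agent.W_MP_6f8a18_al.Defs

namespace Pool.Agent.W_MP_6f8a18_al

universe u v

theorem trf_root (K : Type u) [Field K] (d : ℕ) (M : Matrix (Fin d) (Fin d) K) (E : ℕ)
    (h : M ^ E = 1) : ∀ l ∈ M.charpoly.roots, l ^ E = 1 := by
  intro l hl
  have h1 : M.charpoly.IsRoot l := Polynomial.isRoot_of_mem_roots hl
  have h2 : l ∈ spectrum K M := Matrix.mem_spectrum_iff_isRoot_charpoly.mpr h1
  have h3 := spectrum.pow_mem_pow M E h2
  rw [h] at h3
  cases subsingleton_or_nontrivial (Matrix (Fin d) (Fin d) K) with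
  | inl hs =>
    rw [spectrum.of_subsingleton] at h3
    simp at h3
  | inr hn =>
    rw [spectrum.one_eq] at h3
    simpa using h3

theorem trf_sum_pow (p : ℕ) [Fact p.Prime] (K : Type u) [Field K] [CharP K p] (n : ℕ)
    (s : Multiset K) : s.sum ^ p ^ n = (s.map fun x => x ^ p ^ n).sum := by
  have h := map_multiset_sum (iterateFrobenius K p n) s
  rw [iterateFrobenius_def] at h
  rw [h]
  rfl

theorem trf_pigeon (p E : ℕ) (hE : E ≠ 0) : ∃ i j : ℕ, 0 < j ∧ i + j ≤ E ∧
    p ^ (i + j) % E = p ^ i % E := by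
  have h1 : ∀ i ∈ Finset.range (E + 1), p ^ i % E ∈ Finset.range E := by
    intro i _
    exact Finset.mem_range.mpr (Nat.mod_lt _ (Nat.pos_of_ne_zero hE))
  obtain ⟨a, ha, b, hb, hab, he⟩ := Finset.exists_ne_map_eq_of_card_lt_of_maps_to
    (s := Finset.range (E + 1)) (t := Finset.range E) (by simp) h1
  rw [Finset.mem_range] at ha hb
  rcases lt_or_gt_of_ne hab with h | h
  · refine ⟨a, b - a, by omega, by omega, ?_⟩
    rw [Nat.add_sub_cancel' h.le]
    exact he.symm
  · refine ⟨b, a - b, by omega, by omega, ?_⟩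
    rw [Nat.add_sub_cancel' h.le]
    exact he

theorem trf_closed (p : ℕ) [Fact p.Prime] (K : Type u) [Field K] [CharP K p] [IsAlgClosed K]
    (d : ℕ) (M : Matrix (Fin d) (Fin d) K) (E : ℕ) (hE : E ≠ 0) (h : M ^ E = 1) :
    M.trace ^ p ^ E.factorial = M.trace := by
  obtain ⟨i, j, hj, hij, hmod⟩ := trf_pigeon p E hE
  have hroot := trf_root K d M E h
  have htr : M.trace = M.charpoly.roots.sum := Matrix.trace_eq_sum_roots_charpoly M
  have h1 : M.trace ^ p ^ (i + j) = M.trace ^ p ^ i := by
    rw [htr, trf_sum_pow, trf_sum_pow]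
    congr 1
    apply Multiset.map_congr rfl
    intro l hl
    have hl' := hroot l hl
    rw [pow_eq_pow_mod _ hl', hmod, ← pow_eq_pow_mod _ hl']
  have h2 : M.trace ^ p ^ j = M.trace := by
    have h3 : iterateFrobenius K p i (M.trace ^ p ^ j) = iterateFrobenius K p i M.trace := by
      rw [iterateFrobenius_def, iterateFrobenius_def, ← pow_mul, ← pow_add, add_comm j i]
      exact h1
    exact iterateFrobenius_inj K p i h3
  obtain ⟨m, hm⟩ : j ∣ E.factorial := Nat.dvd_factorial hj (by omega)
  rw [hm]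
  clear hm
  induction m with
  | zero => simp
  | succ m ih =>
    rw [Nat.mul_succ, pow_add, pow_mul, ih, h2]

theorem trf_map_pow {A : Type u} {B : Type v} [CommRing A] [CommRing B] (f : A →+* B) (d : ℕ)
    (M : Matrix (Fin d) (Fin d) A) (E : ℕ) (h : M ^ E = 1) : (M.map f) ^ E = 1 := by
  have h1 := congrArg (fun N : Matrix (Fin d) (Fin d) A => f.mapMatrix N) h
  simp only [map_pow, map_one] at h1
  exact h1

theorem trf_map_trace {A : Type u} {B : Type v} [CommRing A] [CommRing B] (f : A →+* B) (d : ℕ)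
    (M : Matrix (Fin d) (Fin d) A) : (M.map f).trace = f M.trace := by
  simp [Matrix.trace, map_sum]

theorem trace_pow_of_pow_eq_one (p : ℕ) [Fact p.Prime] (k : Type u) [Field k] [CharP k p]
    (d : ℕ) (M : Matrix (Fin d) (Fin d) k) (E : ℕ) (hE : E ≠ 0) (h : M ^ E = 1) :
    M.trace ^ p ^ E.factorial = M.trace := by
  haveI : CharP (AlgebraicClosure k) p :=
    charP_of_injective_algebraMap (algebraMap k (AlgebraicClosure k)).injective p
  have h1 := trf_closed p (AlgebraicClosure k) d (M.map (algebraMap k (AlgebraicClosure k))) E hE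
    (trf_map_pow _ d M E h)
  rw [trf_map_trace, ← map_pow] at h1
  exact (algebraMap k (AlgebraicClosure k)).injective h1

theorem isAlgebraic_trace_of_pow_eq_one (A : Type u) [CommRing A] [IsDomain A] [CharZero A]
    (d : ℕ) (M : Matrix (Fin d) (Fin d) A) (E : ℕ) (hE : E ≠ 0) (h : M ^ E = 1) :
    IsAlgebraic ℤ M.trace := by
  set K := AlgebraicClosure (FractionRing A) with hK
  have hinj : Function.Injective (algebraMap A K) := by
    rw [IsScalarTower.algebraMap_eq A (FractionRing A) K]
    exact (algebraMap (FractionRing A) K).injective.comp (IsFractionRing.injective A _)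
  have hpow := trf_map_pow (algebraMap A K) d M E h
  have hroot := trf_root K d _ E hpow
  have htr : (M.map (algebraMap A K)).trace = (M.map (algebraMap A K)).charpoly.roots.sum :=
    Matrix.trace_eq_sum_roots_charpoly _
  rw [trf_map_trace] at htr
  have hint : IsIntegral ℤ (algebraMap A K M.trace) := by
    rw [htr]
    apply IsIntegral.multiset_sum
    intro l hl
    have hl' := hroot l hl
    apply IsIntegral.of_pow (Nat.pos_of_ne_zero hE)
    rw [hl']
    exact isIntegral_one
  have h2 : IsIntegral ℤ M.trace := (isIntegral_algebraMap_iff hinj).mp hint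
  exact h2.isAlgebraic

end Pool.Agent.W_MP_6f8a18_al
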