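import Pool.Agent.W_MP_6f8a18_al.RatEmb
import Pool.Agent.W_MP_6f8a18_al.Lower
import Pool.Agent.W_MP_6f8a18_al.Abel
import Pool.Agent.W_MP_6f8a18_al.Final
import Pool.Agent.W_MP_6f8a18_al.TraceFrob
import Pool.Agent.W_MP_6f8a18_al.Avoid
import Pool.Agent.W_MP_6f8a18_al.LieLin
import Pool.Agent.W_MP_6f8a18_al.Deriv
import Pool.Agent.W_MP_6f8a18_al.LieData

/-!
Groups acting absolutely irreducibly on a Killing Lie algebra with a transcendental trace.
-/

namespace Pool.Agent.W_MP_6f8a18_al

universe u v w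

/-- An injective map of a finite set to itself, iterated. -/
theorem conj_pow_fix {G : Type u} [Group G] {X : Type v} (act : G →* Equiv.Perm X) (V : Set X)
    (hV : V.Finite) (n : ℕ) (hn : Nat.card V ≤ n) (g : G) (hg : ∀ x ∈ V, act g x ∈ V) (x : X)
    (hx : x ∈ V) : act (g ^ n.factorial) x = x := by
  classical
  have : Finite V := hV
  have hfin : Fintype V := Fintype.ofFinite V
  let f : V → V := fun v => ⟨act g v, hg v v.2⟩
  have hf : Function.Injective f := by
    intro a b hab
    apply Subtype.ext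
    exact (act g).injective (congrArg Subtype.val hab)
  let e : Equiv.Perm V := Equiv.ofBijective f (Finite.injective_iff_bijective.1 hf)
  have he : ∀ (m : ℕ) (v : V), ((e ^ m) v : X) = act (g ^ m) v := by
    intro m
    induction m with
    | zero => intro v; simp
    | succ m ih =>
      intro v
      rw [pow_succ', pow_succ', Equiv.Perm.mul_apply, map_mul, Equiv.Perm.mul_apply]
      change act g ((e ^ m) v : X) = _
      rw [ih]
  have h1 : e ^ n.factorial = 1 := by
    have h2 : Fintype.card (Equiv.Perm V) ∣ n.factorial := by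
      rw [Fintype.card_perm]
      apply Nat.factorial_dvd_factorial
      rwa [← Nat.card_eq_fintype_card]
    obtain ⟨c, hc⟩ := h2
    rw [hc, pow_mul, pow_card_eq_one, one_pow]
  rw [← he n.factorial ⟨x, hx⟩, h1]
  rfl

/-- Conjugation action of `GL` on matrices. -/
def conjAct (k : Type u) [CommRing k] (d : ℕ) :
    GL (Fin d) k →* Equiv.Perm (Matrix (Fin d) (Fin d) k) where
  toFun g :=
    { toFun := fun X => g.val * X * (g⁻¹).val
      invFun := fun X => (g⁻¹).val * X * g.val
      left_inv := fun X => by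
        change (g⁻¹).val * (g.val * X * (g⁻¹).val) * g.val = X
        rw [← mul_assoc, ← mul_assoc, Units.inv_mul, one_mul, mul_assoc, Units.inv_mul, mul_one]
      right_inv := fun X => by
        change g.val * ((g⁻¹).val * X * g.val) * (g⁻¹).val = X
        rw [← mul_assoc, ← mul_assoc, Units.mul_inv, one_mul, mul_assoc, Units.mul_inv, mul_one] }
  map_one' := by ext X : 1; simp
  map_mul' g h := by
    ext X : 1
    simp [mul_assoc]

theorem map_sum_smul {A : Type u} {k : Type v} [CommRing A] [CommRing k] (π : A →+* k) (d : ℕ)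
    (c : Fin d → A) (T : Fin d → Matrix (Fin d) (Fin d) A) :
    (∑ l, c l • T l).map π = ∑ l, π (c l) • (T l).map π := by
  ext i j
  simp [Matrix.sum_apply]

theorem core_field (A : Type u) [CommRing A] (k : Type u) [Field k] (π : A →+* k)
    (hπ : Function.Surjective π)
    (d : ℕ) (Γ : Type v) [Group Γ]
    (ρ : Γ →* GL (Fin d) A) (T : Fin d → Matrix (Fin d) (Fin d) A)
    (hT : ∀ g i, (ρ g).val * T i = (∑ l, (ρ g).val l i • T l) * (ρ g).val)
    (hJ : ∀ i j, T i * T j - T j * T i = ∑ l, (T i) l j • T l)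
    (hκ : IsUnit (Matrix.of fun i j => (T i * T j).trace).det)
    (hspan : Submodule.span A (Set.range fun g => (ρ g).val) = ⊤)
    (p : ℕ) [Fact p.Prime] [CharP k p] (r : ℕ)
    (N : Subgroup Γ) [N.Normal] (hdp : dp p N ≤ r)
    (D : N → Matrix (Fin d) (Fin d) k)
    (Dadd : ∀ x y : N, D (x * y) = D x + D y) (x₀ : N) (hx₀ : D x₀ ≠ 0)
    (Dconj : ∀ (g : Γ) (x : N), D ⟨g * x * g⁻¹, ‹N.Normal›.conj_mem x x.2 g⟩ * (ρ g).val.map π =
      (ρ g).val.map π * D x)
    (Dder : ∀ (x : N) (i : Fin d), D x * (T i).map π - (T i).map π * D x =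
        ∑ l, (D x) l i • (T l).map π) (g₀ : Γ) :
    π (ρ g₀).val.trace ^ p ^ ((p ^ r).factorial).factorial = π (ρ g₀).val.trace := by
  classical
  set E := (p ^ r).factorial with hE
  have hE0 : E ≠ 0 := Nat.factorial_ne_zero _
  -- the range of `D` is small
  let V : Set (Matrix (Fin d) (Fin d) k) := Set.range D
  let DD : N →* Multiplicative (Matrix (Fin d) (Fin d) k) :=
    { toFun := fun x => Multiplicative.ofAdd (D x)
      map_one' := by
        have h1 := Dadd 1 1
        rw [mul_one] at h1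
        have h2 : D 1 = 0 := by
          have := add_eq_left.1 h1.symm
          exact this
        rw [h2]; rfl
      map_mul' := fun x y => by
        rw [Dadd]; rfl }
  have hker : powComm p N ≤ DD.ker := by
    refine sup_le ?_ ?_
    · exact Abelianization.commutator_subset_ker DD
    · rw [Subgroup.closure_le]
      rintro _ ⟨y, rfl⟩
      change DD (y ^ p) = 1
      rw [map_pow]
      change Multiplicative.ofAdd (p • D y) = 1
      have h1 : p • D y = 0 := by
        ext i j
        rw [Matrix.smul_apply, nsmul_eq_mul, CharP.cast_eq_zero, zero_mul]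
        rfl
      rw [h1]; rfl
  obtain ⟨hidx0, hidx⟩ := powComm_index_le p N r hdp
  have hkidx : DD.ker.index ∣ (powComm p N).index := Subgroup.index_dvd_of_le hker
  have hkle : DD.ker.index ≤ p ^ r :=
    (Nat.le_of_dvd (Nat.pos_of_ne_zero hidx0) hkidx).trans hidx
  have hk0 : DD.ker.index ≠ 0 := fun h => hidx0 (Nat.eq_zero_of_zero_dvd (h ▸ hkidx))
  have hcard : Nat.card V = DD.ker.index := by
    rw [Subgroup.index_ker]
    rfl
  have hVfin : V.Finite := by
    refine Nat.finite_of_card_ne_zero ?_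
    rw [hcard]; exact hk0
  -- reduction of the group
  let ρ' : Γ →* GL (Fin d) k := (Matrix.GeneralLinearGroup.map π).comp ρ
  have hρ' : ∀ g, (ρ' g).val = (ρ g).val.map π := fun g => rfl
  have hVst : ∀ g : Γ, ∀ X ∈ V, conjAct k d (ρ' g) X ∈ V := by
    rintro g _ ⟨x, rfl⟩
    refine ⟨⟨g * x * g⁻¹, ‹N.Normal›.conj_mem x x.2 g⟩, ?_⟩
    have h1 := Dconj g x
    rw [← hρ' g] at h1
    have h2 := congrArg (fun Z => Z * ((ρ' g)⁻¹).val) h1
    beta_reduce at h2
    rw [mul_assoc, Units.mul_inv, mul_one] at h2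
    exact h2
  have hfix : ∀ g : Γ, ∀ X ∈ V, conjAct k d (ρ' g ^ E) X = X := by
    intro g X hX
    exact conj_pow_fix (conjAct k d) V hVfin (p ^ r) (hcard ▸ hkle) (ρ' g)
      (fun x hx => hVst g x hx) X hX
  have hcomm : ∀ g : Γ, ∀ X ∈ V, X * (ρ' g ^ E).val = (ρ' g ^ E).val * X := by
    intro g X hX
    have h1 := hfix g X hX
    have h2 := congrArg (fun Z => Z * (ρ' g ^ E).val) h1
    change (ρ' g ^ E).val * X * ((ρ' g ^ E)⁻¹).val * (ρ' g ^ E).val = _ at h2
    rw [mul_assoc, Units.inv_mul, mul_one] at h2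
    exact h2.symm
  have hone : ρ' g₀ ^ E = 1 := by
    refine eq_one_of_commute k d (fun i => (T i).map π) ?_ ?_ ρ'.range ?_ ?_ V ?_ ?_ (D x₀)
      ⟨x₀, rfl⟩ hx₀ _ (Subgroup.pow_mem _ (MonoidHom.mem_range.2 ⟨g₀, rfl⟩) _) (hcomm g₀)
    · have h1 : (Matrix.of fun i j => ((T i).map π * (T j).map π).trace) =
          (Matrix.of fun i j => (T i * T j).trace).map π := by
        ext i j
        have h0 : (T i).map π * (T j).map π = (T i * T j).map π := by rw [Matrix.map_mul]
        rw [Matrix.map_apply, Matrix.of_apply, Matrix.of_apply, h0]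
        simp only [Matrix.trace, Matrix.diag, map_sum, Matrix.map_apply]
      rw [h1]
      have h2 := hκ.map π
      rwa [RingHom.map_det] at h2
    · intro i j
      have h1 := congrArg (fun Z : Matrix (Fin d) (Fin d) A => Z.map π) (hJ i j)
      beta_reduce at h1
      rw [map_sum_smul, Matrix.map_sub π (map_sub π), Matrix.map_mul, Matrix.map_mul] at h1
      exact h1
    · rw [eq_top_iff]
      intro X _
      obtain ⟨Y, hY⟩ : ∃ Y : Matrix (Fin d) (Fin d) A, Y.map π = X := by
        refine ⟨fun i j => (hπ (X i j)).choose, ?_⟩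
        ext i j
        exact (hπ (X i j)).choose_spec
      have hYs : Y ∈ Submodule.span A (Set.range fun g => (ρ g).val) := by
        rw [hspan]; trivial
      rw [← hY]
      refine Submodule.span_induction (p := fun Y _ => Y.map π ∈ Submodule.span k
        ((fun g : GL (Fin d) k => g.val) '' (ρ'.range : Set (GL (Fin d) k)))) ?_ ?_ ?_ ?_ hYs
      · rintro _ ⟨g, rfl⟩
        exact Submodule.subset_span ⟨ρ' g, ⟨g, rfl⟩, rfl⟩
      · rw [Matrix.map_zero _ (map_zero π)]
        exact zero_mem _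
      · intro x y _ _ hx hy
        rw [Matrix.map_add π (map_add π)]
        exact add_mem hx hy
      · intro a x _ hx
        have : (a • x).map π = π a • x.map π := by
          ext i j
          simp
        rw [this]
        exact Submodule.smul_mem _ _ hx
    · rintro _ ⟨g, rfl⟩ i
      have h1 := congrArg (fun Z : Matrix (Fin d) (Fin d) A => Z.map π) (hT g i)
      beta_reduce at h1
      rw [Matrix.map_mul, Matrix.map_mul, map_sum_smul] at h1
      exact h1
    · rintro _ ⟨g, rfl⟩ _ ⟨x, rfl⟩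
      exact ⟨_, ⟨_, rfl⟩, Dconj g x⟩
    · rintro _ ⟨x, rfl⟩ i
      exact Dder x i
  have h3 : ((ρ g₀).val.map π) ^ E = 1 := by
    rw [← hρ', ← Units.val_pow_eq_pow_val, hone, Units.val_one]
  have h4 := trace_pow_of_pow_eq_one p k d _ E hE0 h3
  have h5 : ((ρ g₀).val.map π).trace = π (ρ g₀).val.trace := by
    simp [Matrix.trace, map_sum]
  rw [h5] at h4
  exact h4

theorem core_step (A : Type u) [CommRing A] [IsDomain A] [CharZero A] 
    [IsNoetherianRing A] (d : ℕ) (Γ : Type v) [Group Γ]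
    (ρ : Γ →* GL (Fin d) A) (T : Fin d → Matrix (Fin d) (Fin d) A)
    (hT : ∀ g i, (ρ g).val * T i = (∑ l, (ρ g).val l i • T l) * (ρ g).val)
    (hJ : ∀ i j, T i * T j - T j * T i = ∑ l, (T i) l j • T l)
    (hκ : IsUnit (Matrix.of fun i j => (T i * T j).trace).det)
    (hspan : Submodule.span A (Set.range fun g => (ρ g).val) = ⊤)
    (p : ℕ) [Fact p.Prime] (r : ℕ) (g₀ : Γ) (ht : Transcendental ℤ (ρ g₀).val.trace)
    (m : Ideal A) [m.IsMaximal] (hpm : (p : A) ∈ m)
    (hm : (ρ g₀).val.trace ^ p ^ ((p ^ r).factorial).factorial - (ρ g₀).val.trace ∉ m)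
    (N : Subgroup Γ) [N.Normal] [N.FiniteIndex] (hN : N ≤ cong ρ m) (hdp : dp p N ≤ r) :
    False := by
  classical
  have hchar : @CharP (A ⧸ m) (Ideal.Quotient.field m).toRing.toAddGroupWithOne.toAddMonoidWithOne p := by
    refine (@CharP.charP_iff_prime_eq_zero (A ⧸ m) _ _ p Fact.out).2 ?_
    have := Ideal.Quotient.eq_zero_iff_mem.2 hpm
    simpa using this
  -- the image of `N` is not trivial
  have hN1 : ∃ x ∈ N, ρ x ≠ 1 := by
    by_contra hcon
    push Not at hcon
    have h1 := hcon _ (N.pow_index_mem g₀)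
    rw [map_pow] at h1
    have h2 : (ρ g₀).val ^ N.index = 1 := by
      rw [← Units.val_pow_eq_pow_val, h1, Units.val_one]
    exact ht (isAlgebraic_trace_of_pow_eq_one A d _ _ Subgroup.FiniteIndex.index_ne_zero h2)
  obtain ⟨D, Dadd, ⟨x₀, hx₀⟩, Dconj, Dder⟩ := exists_derivation A m d Γ ρ T hT N
    (fun g x hx => ‹N.Normal›.conj_mem x hx g) hN hN1
  have key := @core_field A _ (A ⧸ m) (Ideal.Quotient.field m) (Ideal.Quotient.mk m)
    Ideal.Quotient.mk_surjective d Γ _ ρ T hT hJ hκ hspan p _ hchar r N _ hdp D Dadd x₀ hx₀ Dconj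
    Dder g₀
  apply hm
  rw [← Ideal.Quotient.eq, map_pow]
  exact key

/-- The theorem for matrix representations over a finitely generated domain. -/
theorem core_ring (A : Type u) [CommRing A] [IsDomain A] [CharZero A] [Algebra.FiniteType ℤ A]
    (d : ℕ) (Γ : Type v) [Group Γ]
    (ρ : Γ →* GL (Fin d) A) (T : Fin d → Matrix (Fin d) (Fin d) A)
    (hT : ∀ g i, (ρ g).val * T i = (∑ l, (ρ g).val l i • T l) * (ρ g).val)
    (hJ : ∀ i j, T i * T j - T j * T i = ∑ l, (T i) l j • T l)
    (hκ : IsUnit (Matrix.of fun i j => (T i * T j).trace).det)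
    (hspan : Submodule.span A (Set.range fun g => (ρ g).val) = ⊤)
    (g₀ : Γ) (ht : Transcendental ℤ (ρ g₀).val.trace) :
    ∃ S : Finset ℕ, ∀ p : ℕ, p.Prime → p ∉ S → NL p Γ = ⊤ := by
  obtain ⟨S, hS⟩ := exists_maximal_avoiding A _ ht
  have hnoeth : IsNoetherianRing A := Algebra.FiniteType.isNoetherianRing ℤ A
  refine ⟨S, fun p hp hpS => ?_⟩
  have : Fact p.Prime := ⟨hp⟩
  rw [ENat.eq_top_iff_forall_ge]
  intro r
  obtain ⟨m, hmax, hpm, hm⟩ := hS p hp hpS _ (Nat.factorial_ne_zero (p ^ r).factorial)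
  have hfin : Finite (A ⧸ m) := finite_residue A p m hpm
  have hM : (cong ρ m).FiniteIndex := by
    have : Finite (GL (Fin d) (A ⧸ m)) := by
      infer_instance
    have h1 : Finite (((Matrix.GeneralLinearGroup.map (Ideal.Quotient.mk m)).comp ρ).range) :=
      inferInstance
    exact Subgroup.finiteIndex_ker _
  refine le_trans ?_ (le_iSup _ (⟨cong ρ m, cong_normal ρ m, hM⟩ :
    {M : Subgroup Γ // M.Normal ∧ M.FiniteIndex}))
  refine le_iInf fun N => ?_
  by_contra hcon
  push Not at hcon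
  obtain ⟨N, hN1, hN2, hN3⟩ := N
  exact core_step A d Γ ρ T hT hJ hκ hspan p r g₀ ht m hpm hm N hN3 hcon.le


theorem descent (K : Type u) [Field K] (d : ℕ) (Γ : Type v) [Group Γ] [Group.FG Γ]
    (ρ : Γ →* GL (Fin d) K) (T : Fin d → Matrix (Fin d) (Fin d) K)
    (hκ : IsUnit (Matrix.of fun i j => (T i * T j).trace).det)
    (hspan : Submodule.span K (Set.range fun g => (ρ g).val) = ⊤) :
    ∃ (s : Finset K) (ρ' : Γ →* GL (Fin d) (Algebra.adjoin ℤ (s : Set K)))
      (T' : Fin d → Matrix (Fin d) (Fin d) (Algebra.adjoin ℤ (s : Set K))),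
      (∀ g, (ρ' g).val.map (algebraMap (Algebra.adjoin ℤ (s : Set K)) K) = (ρ g).val) ∧
      (∀ i, (T' i).map (algebraMap (Algebra.adjoin ℤ (s : Set K)) K) = T i) ∧
      IsUnit (Matrix.of fun i j => (T' i * T' j).trace).det ∧
      Submodule.span (Algebra.adjoin ℤ (s : Set K)) (Set.range fun g => (ρ' g).val) = ⊤ := by
  classical
  obtain ⟨G, hG⟩ := (‹Group.FG Γ›).out
  have hc : ∀ ij : Fin d × Fin d, ∃ c : Γ →₀ K, (c.sum fun g a => a • (ρ g).val) =
      Matrix.single ij.1 ij.2 (1 : K) := by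
    intro ij
    have h1 : Matrix.single ij.1 ij.2 (1 : K) ∈
        Submodule.span K (Set.range fun g => (ρ g).val) := by
      rw [hspan]; trivial
    obtain ⟨c, hc⟩ := Finsupp.mem_span_range_iff_exists_finsupp.1 h1
    exact ⟨c, hc⟩
  choose c hc using hc
  set dt := (Matrix.of fun i j => (T i * T j).trace).det with hdt
  let s : Finset K :=
    (G.biUnion fun g =>
      (Finset.univ.image fun ij : Fin d × Fin d => (ρ g).val ij.1 ij.2) ∪
      (Finset.univ.image fun ij : Fin d × Fin d => ((ρ g)⁻¹).val ij.1 ij.2)) ∪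
    (Finset.univ.image fun l : Fin d × (Fin d × Fin d) => T l.1 l.2.1 l.2.2) ∪
    {dt⁻¹} ∪
    (Finset.univ.biUnion fun ij : Fin d × Fin d => (c ij).support.image (c ij))
  have hs1 : ∀ g ∈ G, ∀ i j, (ρ g).val i j ∈ Algebra.adjoin ℤ (s : Set K) := by
    intro g hg i j
    refine Algebra.subset_adjoin (Finset.mem_coe.2 ?_)
    refine Finset.mem_union_left _ (Finset.mem_union_left _ (Finset.mem_union_left _ ?_))
    rw [Finset.mem_biUnion]
    exact ⟨g, hg, Finset.mem_union_left _ (Finset.mem_image.2 ⟨(i, j), Finset.mem_univ _, rfl⟩)⟩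
  have hs2 : ∀ g ∈ G, ∀ i j, ((ρ g)⁻¹).val i j ∈ Algebra.adjoin ℤ (s : Set K) := by
    intro g hg i j
    refine Algebra.subset_adjoin (Finset.mem_coe.2 ?_)
    refine Finset.mem_union_left _ (Finset.mem_union_left _ (Finset.mem_union_left _ ?_))
    rw [Finset.mem_biUnion]
    exact ⟨g, hg, Finset.mem_union_right _ (Finset.mem_image.2 ⟨(i, j), Finset.mem_univ _, rfl⟩)⟩
  have hs3 : ∀ l i j, T l i j ∈ Algebra.adjoin ℤ (s : Set K) := by
    intro l i j
    refine Algebra.subset_adjoin (Finset.mem_coe.2 ?_)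
    refine Finset.mem_union_left _ (Finset.mem_union_left _ (Finset.mem_union_right _ ?_))
    exact Finset.mem_image.2 ⟨(l, (i, j)), Finset.mem_univ _, rfl⟩
  have hs4 : dt⁻¹ ∈ Algebra.adjoin ℤ (s : Set K) := by
    refine Algebra.subset_adjoin (Finset.mem_coe.2 ?_)
    exact Finset.mem_union_left _ (Finset.mem_union_right _ (Finset.mem_singleton_self _))
  have hs5 : ∀ ij g, c ij g ∈ Algebra.adjoin ℤ (s : Set K) := by
    intro ij g
    by_cases hg : g ∈ (c ij).support
    · refine Algebra.subset_adjoin (Finset.mem_coe.2 ?_)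
      refine Finset.mem_union_right _ ?_
      rw [Finset.mem_biUnion]
      exact ⟨ij, Finset.mem_univ _, Finset.mem_image_of_mem _ hg⟩
    · rw [Finsupp.notMem_support_iff.1 hg]
      exact zero_mem _
  let A := Algebra.adjoin ℤ (s : Set K)
  have hA : Function.Injective (algebraMap A K) := Subtype.val_injective
  let φ := Matrix.GeneralLinearGroup.map (n := Fin d) (algebraMap A K)
  have hφ : Function.Injective φ := GL_map_injective d _ hA
  let ψ : Matrix (Fin d) (Fin d) A →+* Matrix (Fin d) (Fin d) K := (algebraMap A K).mapMatrix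
  have hψ : Function.Injective ψ := by
    intro x y hxy
    ext i j
    exact congrFun (congrFun hxy i) j
  have hrange : ∀ g : Γ, ρ g ∈ φ.range := by
    intro g
    have h1 : Subgroup.closure (G : Set Γ) ≤ φ.range.comap ρ := by
      rw [Subgroup.closure_le]
      intro g hg
      let M : Matrix (Fin d) (Fin d) A := fun i j => ⟨(ρ g).val i j, hs1 g hg i j⟩
      let M' : Matrix (Fin d) (Fin d) A := fun i j => ⟨((ρ g)⁻¹).val i j, hs2 g hg i j⟩
      have e1 : ψ M = (ρ g).val := rfl
      have e2 : ψ M' = ((ρ g)⁻¹).val := rfl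
      have h2 : M * M' = 1 := by
        apply hψ
        rw [map_mul, map_one, e1, e2]
        exact Units.mul_inv _
      have h3 : M' * M = 1 := by
        apply hψ
        rw [map_mul, map_one, e1, e2]
        exact Units.inv_mul _
      refine ⟨⟨M, M', h2, h3⟩, ?_⟩
      ext i j
      rfl
    rw [hG] at h1
    exact h1 (Subgroup.mem_top g)
  let ρ' : Γ →* GL (Fin d) A :=
    (MonoidHom.ofInjective hφ).symm.toMonoidHom.comp (ρ.codRestrict φ.range hrange)
  have hρ' : ∀ g, φ (ρ' g) = ρ g := by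
    intro g
    have h1 := (MonoidHom.ofInjective hφ).apply_symm_apply (ρ.codRestrict φ.range hrange g)
    exact congrArg Subtype.val h1
  let T' : Fin d → Matrix (Fin d) (Fin d) A := fun l i j => ⟨T l i j, hs3 l i j⟩
  refine ⟨s, ρ', T', ?_, ?_, ?_, ?_⟩
  · intro g
    exact congrArg (fun z : GL (Fin d) K => z.val) (hρ' g)
  · intro i
    rfl
  · have h1 : algebraMap A K (Matrix.of fun i j => (T' i * T' j).trace).det = dt := by
      rw [RingHom.map_det, hdt]
      congr 1
      ext i j
      rw [RingHom.mapMatrix_apply, Matrix.map_apply, Matrix.of_apply, Matrix.of_apply]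
      have h0 : T i * T j = (T' i * T' j).map (algebraMap A K) := by
        rw [Matrix.map_mul]; rfl
      rw [h0]
      simp only [Matrix.trace, Matrix.diag, map_sum, Matrix.map_apply]
    refine IsUnit.of_mul_eq_one (⟨dt⁻¹, hs4⟩ : A) ?_
    apply hA
    rw [map_mul, h1, map_one]
    exact mul_inv_cancel₀ hκ.ne_zero
  · rw [eq_top_iff]
    intro X _
    have h1 : ∀ ij : Fin d × Fin d, Matrix.single ij.1 ij.2 (1 : A) ∈
        Submodule.span A (Set.range fun g => (ρ' g).val) := by
      intro ij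
      have h2 : Matrix.single ij.1 ij.2 (1 : A) =
          ∑ g ∈ (c ij).support, (⟨c ij g, hs5 ij g⟩ : A) • (ρ' g).val := by
        apply hψ
        rw [map_sum]
        have h3 : ψ (Matrix.single ij.1 ij.2 (1 : A)) = Matrix.single ij.1 ij.2 (1 : K) := by
          ext a b
          change algebraMap A K (Matrix.single ij.1 ij.2 (1 : A) a b) = _
          rw [Matrix.single_apply, Matrix.single_apply]
          split_ifs
          · exact map_one _
          · exact map_zero _
        rw [h3, ← hc ij, Finsupp.sum]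
        refine Finset.sum_congr rfl fun g _ => ?_
        have h4 : (ρ g).val = ψ (ρ' g).val :=
          (congrArg (fun z : GL (Fin d) K => z.val) (hρ' g)).symm
        rw [h4]
        ext a b
        rfl
      rw [h2]
      exact Submodule.sum_mem _ fun g _ => Submodule.smul_mem _ _
        (Submodule.subset_span ⟨g, rfl⟩)
    rw [Matrix.matrix_eq_sum_single X]
    refine Submodule.sum_mem _ fun i _ => Submodule.sum_mem _ fun j _ => ?_
    have h5 : Matrix.single i j (X i j) = X i j • Matrix.single i j (1 : A) := by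
      rw [Matrix.smul_single, smul_eq_mul, mul_one]
    rw [h5]
    exact Submodule.smul_mem _ _ (h1 (i, j))

theorem core_matrix (K : Type u) [Field K] [CharZero K] (d : ℕ) (Γ : Type v) [Group Γ]
    [Group.FG Γ] (ρ : Γ →* GL (Fin d) K) (T : Fin d → Matrix (Fin d) (Fin d) K)
    (hT : ∀ g i, (ρ g).val * T i = (∑ l, (ρ g).val l i • T l) * (ρ g).val)
    (hJ : ∀ i j, T i * T j - T j * T i = ∑ l, (T i) l j • T l)
    (hκ : IsUnit (Matrix.of fun i j => (T i * T j).trace).det)
    (hspan : Submodule.span K (Set.range fun g => (ρ g).val) = ⊤)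
    (g₀ : Γ) (ht : Transcendental ℚ (ρ g₀).val.trace) :
    ∃ S : Finset ℕ, ∀ p : ℕ, p.Prime → p ∉ S → NL p Γ = ⊤ := by
  obtain ⟨s, ρ', T', hρ', hT', hκ', hspan'⟩ := descent K d Γ ρ T hκ hspan
  have hA : Function.Injective (algebraMap (Algebra.adjoin ℤ (s : Set K)) K) :=
    Subtype.val_injective
  have hinj : ∀ X Y : Matrix (Fin d) (Fin d) (Algebra.adjoin ℤ (s : Set K)),
      X.map (algebraMap (Algebra.adjoin ℤ (s : Set K)) K) =
      Y.map (algebraMap (Algebra.adjoin ℤ (s : Set K)) K) → X = Y := by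
    intro X Y hXY
    ext i j
    exact congrFun (congrFun hXY i) j
  have hft : Algebra.FiniteType ℤ (Algebra.adjoin ℤ (s : Set K)) :=
    (Subalgebra.fg_iff_finiteType _).1 ⟨s, rfl⟩
  refine core_ring (Algebra.adjoin ℤ (s : Set K)) d Γ ρ' T' ?_ ?_ hκ' hspan' g₀ ?_
  · intro g i
    apply hinj
    rw [Matrix.map_mul, Matrix.map_mul, map_sum_smul, hρ', hT', hT g i]
    congr 1
    refine Finset.sum_congr rfl fun l _ => ?_
    rw [hT', ← hρ' g]
    rfl
  · intro i j
    apply hinj
    rw [Matrix.map_sub _ (map_sub _), Matrix.map_mul, Matrix.map_mul, map_sum_smul, hT', hT',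
      hJ i j]
    refine Finset.sum_congr rfl fun l _ => ?_
    rw [hT', ← hT' i]
    rfl
  · intro halg
    apply ht
    have h1 : algebraMap (Algebra.adjoin ℤ (s : Set K)) K (ρ' g₀).val.trace =
        (ρ g₀).val.trace := by
      rw [← hρ' g₀]
      simp only [Matrix.trace, Matrix.diag, map_sum, Matrix.map_apply]
    have h2 := halg.algebraMap (A := K)
    rw [h1] at h2
    exact (IsFractionRing.isAlgebraic_iff ℤ ℚ K).1 h2

theorem NL_le_of_finiteIndex (p : ℕ) (Γ : Type u) [Group Γ] (H : Subgroup Γ) [H.FiniteIndex] :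
    NL p H ≤ NL p Γ := by
  refine iSup_le fun M₀ => ?_
  obtain ⟨M₀, hM1, hM2⟩ := M₀
  have hM3 : (M₀.map H.subtype).FiniteIndex := by
    constructor
    rw [Subgroup.index_map_subtype]
    exact mul_ne_zero hM2.index_ne_zero ‹H.FiniteIndex›.index_ne_zero
  have hM4 : (M₀.map H.subtype).normalCore.FiniteIndex := inferInstance
  refine le_trans ?_ (le_iSup _ (⟨(M₀.map H.subtype).normalCore, inferInstance, hM4⟩ :
    {M : Subgroup Γ // M.Normal ∧ M.FiniteIndex}))
  refine le_iInf fun N => ?_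
  obtain ⟨N, hN1, hN2, hN3⟩ := N
  have hNM : N ≤ M₀.map H.subtype := hN3.trans (Subgroup.normalCore_le _)
  have hNH : N ≤ H := hNM.trans (Subgroup.map_subtype_le _)
  have h1 : (N.subgroupOf H).Normal := inferInstance
  have h2 : (N.subgroupOf H).FiniteIndex := inferInstance
  have h3 : N.subgroupOf H ≤ M₀ := by
    intro x hx
    obtain ⟨y, hy, hyx⟩ := hNM (Subgroup.mem_subgroupOf.1 hx)
    have : y = x := Subtype.ext hyx
    exact this ▸ hy
  refine (iInf_le _ (⟨N.subgroupOf H, h1, h2, h3⟩ :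
    {N : Subgroup H // N.Normal ∧ N.FiniteIndex ∧ N ≤ M₀})).trans ?_
  let e := Subgroup.subgroupOfEquivOfLe hNH
  exact dp_le_of_surjective p e.symm.toMonoidHom e.symm.surjective

/-- The main theorem on transcendental traces. -/
theorem transcendental_trace (K : Type u) [Field K] [CharZero K] (L : Type v) [LieRing L]
    [LieAlgebra K L] [Module.Finite K L] [LieAlgebra.IsKilling K L] (Γ : Type w) [Group Γ]
    [Group.FG Γ] (H : Subgroup Γ) [H.FiniteIndex]
    (ρ : Representation K H L) (hρ : ∀ g x y, ρ g ⁅x, y⁆ = ⁅ρ g x, ρ g y⁆)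
    (hspan : Submodule.span K (Set.range ρ) = ⊤)
    (g₀ : H) (ht : Transcendental ℚ (LinearMap.trace K L (ρ g₀))) :
    ∃ S : Finset ℕ, ∀ p : ℕ, p.Prime → p ∉ S → NL p Γ = ⊤ := by
  obtain ⟨d, ρ', T, hT, hJ, hκ, hspan', htr⟩ := exists_matrix_data K L H ρ hρ hspan
  obtain ⟨S, hS⟩ := core_matrix K d H ρ' T hT hJ hκ hspan' g₀ (by rw [htr]; exact ht)
  refine ⟨S, fun p hp hpS => ?_⟩
  have := NL_le_of_finiteIndex p Γ H
  rw [hS p hp hpS] at this
  exact top_le_iff.1 this

end Pool.Agent.W_MP_6f8a18_al
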