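import Pool.Agent.W_MP_6f8a18_al.Defs

namespace Pool.Agent.W_MP_6f8a18_al

open scoped commutatorElement

/-- The ambient version of `[Y,Y]Y^p`. -/
def upPw (p : ℕ) {X : Type*} [Group X] (Y : Subgroup X) : Subgroup X :=
  ⁅Y, Y⁆ ⊔ Subgroup.closure ((fun y : X => y ^ p) '' (Y : Set X))

theorem upPw_mono (p : ℕ) {X : Type*} [Group X] {Y Z : Subgroup X} (h : Y ≤ Z) :
    upPw p Y ≤ upPw p Z :=
  sup_le_sup (Subgroup.commutator_mono h h) (Subgroup.closure_mono (Set.image_mono h))

theorem upPw_le (p : ℕ) {X : Type*} [Group X] (Y : Subgroup X) : upPw p Y ≤ Y := by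
  refine sup_le ?_ ?_
  · rw [Subgroup.commutator_le]
    intro a ha b hb
    rw [commutatorElement_def]
    exact mul_mem (mul_mem (mul_mem ha hb) (inv_mem ha)) (inv_mem hb)
  · rw [Subgroup.closure_le]
    rintro _ ⟨y, hy, rfl⟩
    exact pow_mem hy p

theorem upPw_map (p : ℕ) {X Z : Type*} [Group X] [Group Z] (f : X →* Z) (Y : Subgroup X) :
    (upPw p Y).map f = upPw p (Y.map f) := by
  unfold upPw
  rw [Subgroup.map_sup, Subgroup.map_commutator, MonoidHom.map_closure]
  congr 2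
  ext z
  constructor
  · rintro ⟨_, ⟨y, hy, rfl⟩, rfl⟩
    exact ⟨f y, ⟨y, hy, rfl⟩, by simp⟩
  · rintro ⟨_, ⟨y, hy, rfl⟩, rfl⟩
    exact ⟨y ^ p, ⟨y, hy, rfl⟩, by simp⟩

theorem upPw_powComm (p : ℕ) {X : Type*} [Group X] (Y : Subgroup X) :
    (powComm p Y).map Y.subtype = upPw p Y := by
  have h : powComm p Y = upPw p (⊤ : Subgroup Y) := by
    unfold powComm upPw
    rw [commutator_def]
    congr 2
    ext z
    simp
  rw [h, upPw_map, ← MonoidHom.range_eq_map, Subgroup.range_subtype]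

/-- `Y` is generated by `c` elements modulo `[Y,Y]Y^p`. -/
def upHG (p c : ℕ) {X : Type*} [Group X] (Y : Subgroup X) : Prop :=
  ∃ g : Fin c → X, (∀ i, g i ∈ Y) ∧ Y ≤ Subgroup.closure (Set.range g) ⊔ upPw p Y

theorem upHG_dp {p c : ℕ} {X : Type*} [Group X] {Y : Subgroup X} (h : upHG p c Y) :
    dp p Y ≤ c := by
  obtain ⟨g, hg, hY⟩ := h
  let g' : Fin c → Y := fun i => ⟨g i, hg i⟩
  have h1 : (⊤ : Subgroup Y) ≤ Subgroup.closure (Set.range g') ⊔ powComm p Y := by
    intro y _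
    have h2 := hY y.2
    have h3 : Subgroup.closure (Set.range g) ⊔ upPw p Y =
        (Subgroup.closure (Set.range g') ⊔ powComm p Y).map Y.subtype := by
      rw [Subgroup.map_sup, upPw_powComm, MonoidHom.map_closure, ← Set.range_comp]
      rfl
    rw [h3] at h2
    obtain ⟨z, hz, hzy⟩ := h2
    have h4 : z = y := Subtype.ext hzy
    rwa [← h4]
  let S : Set (Y ⧸ powComm p Y) := Set.range fun i => (QuotientGroup.mk (g' i) : Y ⧸ powComm p Y)
  have hS : Subgroup.closure S = ⊤ := by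
    have h5 : Subgroup.closure S = (Subgroup.closure (Set.range g')).map
        (QuotientGroup.mk' (powComm p Y)) := by
      rw [MonoidHom.map_closure, ← Set.range_comp]
      rfl
    have h6 := Subgroup.map_mono (f := QuotientGroup.mk' (powComm p Y)) h1
    rw [Subgroup.map_sup, ← h5, QuotientGroup.map_mk'_self, sup_bot_eq,
      ← MonoidHom.range_eq_map, MonoidHom.range_eq_top.2 (QuotientGroup.mk'_surjective _)] at h6
    exact top_le_iff.1 h6
  refine (iInf_le _ (⟨S, hS⟩ : {S : Set (Y ⧸ powComm p Y) // Subgroup.closure S = ⊤})).trans ?_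
  refine (Set.encard_le_encard (Set.image_univ.ge : S ⊆ _)).trans ?_
  refine (Set.encard_image_le _ _).trans ?_
  rw [Set.encard_univ]
  simp

/-- Extensions. -/
theorem upHG_ext {p a b : ℕ} {X Z : Type*} [Group X] [Group Z] (f : X →* Z) (Y : Subgroup X)
    (h1 : upHG p a (Y ⊓ f.ker)) (h2 : upHG p b (Y.map f)) : upHG p (a + b) Y := by
  obtain ⟨h, hh, hY1⟩ := h1
  obtain ⟨g, hg, hY2⟩ := h2
  choose g' hg' hgg using hg
  refine ⟨Fin.append h g', ?_, ?_⟩
  · intro i
    refine Fin.addCases (fun i => ?_) (fun i => ?_) i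
    · rw [Fin.append_left]
      exact (hh i).1
    · rw [Fin.append_right]
      exact hg' i
  · have hr1 : Subgroup.closure (Set.range h) ≤ Subgroup.closure (Set.range (Fin.append h g')) := by
      rw [Subgroup.closure_le]
      rintro _ ⟨i, rfl⟩
      exact Subgroup.subset_closure ⟨Fin.castAdd b i, by simp⟩
    have hr2 : Subgroup.closure (Set.range g') ≤ Subgroup.closure (Set.range (Fin.append h g')) := by
      rw [Subgroup.closure_le]
      rintro _ ⟨i, rfl⟩
      exact Subgroup.subset_closure ⟨Fin.natAdd a i, by simp⟩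
    intro y hy
    have h3 : f y ∈ (Subgroup.closure (Set.range g') ⊔ upPw p Y).map f := by
      rw [Subgroup.map_sup, upPw_map, MonoidHom.map_closure, ← Set.range_comp]
      have h4 : f ∘ g' = g := funext hgg
      rw [h4]
      exact hY2 ⟨y, hy, rfl⟩
    obtain ⟨w, hw, hwy⟩ := h3
    have hwY : w ∈ Y := by
      have h5 : Subgroup.closure (Set.range g') ⊔ upPw p Y ≤ Y := by
        refine sup_le ?_ (upPw_le p Y)
        rw [Subgroup.closure_le]
        rintro _ ⟨i, rfl⟩
        exact hg' i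
      exact h5 hw
    have h6 : y * w⁻¹ ∈ Y ⊓ f.ker := by
      refine Subgroup.mem_inf.2 ⟨mul_mem hy (inv_mem hwY), ?_⟩
      rw [MonoidHom.mem_ker, map_mul, map_inv, hwy, mul_inv_cancel]
    have h7 := hY1 h6
    have h8 : Subgroup.closure (Set.range h) ⊔ upPw p (Y ⊓ f.ker) ≤
        Subgroup.closure (Set.range (Fin.append h g')) ⊔ upPw p Y :=
      sup_le_sup hr1 (upPw_mono p inf_le_left)
    have h9 : Subgroup.closure (Set.range g') ⊔ upPw p Y ≤
        Subgroup.closure (Set.range (Fin.append h g')) ⊔ upPw p Y :=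
      sup_le_sup hr2 le_rfl
    have h10 := mul_mem (h8 h7) (h9 hw)
    rwa [inv_mul_cancel_right] at h10

/-- Subgroups of abelian groups generated by `c` elements are generated by `c` elements. -/
theorem up_ab_gen {Z : Type*} [CommGroup Z] {c : ℕ} (g : Fin c → Z) (Y : Subgroup Z)
    (hY : Y ≤ Subgroup.closure (Set.range g)) :
    ∃ h : Fin c → Z, (∀ i, h i ∈ Y) ∧ Y ≤ Subgroup.closure (Set.range h) := by
  let φ : (Fin c → ℤ) →ₗ[ℤ] Additive Z :=
    Fintype.linearCombination ℤ (fun i => Additive.ofMul (g i))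
  let N : Submodule ℤ (Fin c → ℤ) := (AddSubgroup.toIntSubmodule (Subgroup.toAddSubgroup Y)).comap φ
  have hmemN : ∀ v, v ∈ N ↔ Additive.toMul (φ v) ∈ Y := fun v => Iff.rfl
  have hfr : Module.finrank ℤ N ≤ c := by
    have := Submodule.finrank_le N
    simpa using this
  let B := Module.finBasis ℤ N
  let h : Fin c → Z := fun i =>
    if hi : (i : ℕ) < Module.finrank ℤ N then Additive.toMul (φ (B ⟨i, hi⟩)) else 1
  have hmem : ∀ i, h i ∈ Y := by
    intro i
    simp only [h]
    split_ifs with hi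
    · exact (hmemN _).1 (B ⟨i, hi⟩).2
    · exact one_mem _
  refine ⟨h, hmem, ?_⟩
  intro y hy
  -- `y` is in the image of `φ`
  have h1 : ∀ z ∈ Subgroup.closure (Set.range g), ∃ v, Additive.toMul (φ v) = z := by
    intro z hz
    induction hz using Subgroup.closure_induction with
    | mem x hx =>
      obtain ⟨i, rfl⟩ := hx
      refine ⟨Pi.single i 1, ?_⟩
      simp [φ, Fintype.linearCombination_apply_single]
    | one => exact ⟨0, by simp⟩
    | mul a b _ _ ha hb =>
      obtain ⟨v, hv⟩ := ha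
      obtain ⟨w, hw⟩ := hb
      exact ⟨v + w, by rw [map_add, toMul_add, hv, hw]⟩
    | inv a _ ha =>
      obtain ⟨v, hv⟩ := ha
      exact ⟨-v, by rw [map_neg, toMul_neg, hv]⟩
  obtain ⟨v, hv⟩ := h1 y (hY hy)
  have hvN : v ∈ N := by
    rw [hmemN, hv]
    exact hy
  have h2 : ∀ w : N, Additive.toMul (φ w) ∈ Subgroup.closure (Set.range h) := by
    intro w
    have h3 := B.sum_repr w
    have h4 : φ w = ∑ i, B.repr w i • φ (B i) := by
      conv_lhs => rw [← h3]
      rw [Submodule.coe_sum, map_sum]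
      refine Finset.sum_congr rfl fun i _ => ?_
      rw [Submodule.coe_smul, map_smul]
    rw [h4, toMul_sum]
    refine prod_mem fun i _ => ?_
    rw [toMul_zsmul]
    have h6 : h ⟨i, i.2.trans_le hfr⟩ = Additive.toMul (φ (B i)) := by
      simp only [h]
      rw [dif_pos i.2]
    rw [← h6]
    exact zpow_mem (Subgroup.subset_closure (Set.mem_range_self _)) _
  have h5 := h2 ⟨v, hvN⟩
  rwa [hv] at h5

/-- The abelian case. -/
theorem upHG_ab {p m c : ℕ} (hp : p.Coprime m) {Z : Type*} [CommGroup Z] (g : Fin c → Z)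
    (Y : Subgroup Z) (hg : ∀ b ∈ Y, ∃ k : ℕ, b ^ (m ^ k) ∈ Subgroup.closure (Set.range g)) :
    upHG p c Y := by
  obtain ⟨h, hh, hY⟩ := up_ab_gen g (Y ⊓ Subgroup.closure (Set.range g)) inf_le_right
  refine ⟨h, fun i => (hh i).1, ?_⟩
  intro y hy
  obtain ⟨k, hk⟩ := hg y hy
  have h1 : y ^ (m ^ k) ∈ Subgroup.closure (Set.range h) := hY ⟨pow_mem hy _, hk⟩
  have h2 : IsCoprime (p : ℤ) ((m ^ k : ℕ) : ℤ) :=
    Nat.isCoprime_iff_coprime.2 (Nat.Coprime.pow_right k hp)
  obtain ⟨u, v, huv⟩ := h2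
  have h3 : y = (y ^ u) ^ p * (y ^ (m ^ k)) ^ v := by
    rw [← zpow_natCast, ← zpow_natCast, ← zpow_mul, ← zpow_mul, ← zpow_add]
    have h4 : u * (p : ℤ) + ((m ^ k : ℕ) : ℤ) * v = 1 := by rw [← huv]; ring
    rw [h4, zpow_one]
  rw [h3]
  refine mul_mem (Subgroup.mem_sup_right ?_) (Subgroup.mem_sup_left (zpow_mem h1 v))
  exact Subgroup.mem_sup_right (Subgroup.subset_closure ⟨y ^ u, zpow_mem hy u, rfl⟩)

theorem upHG_map {p c : ℕ} {X Z : Type*} [Group X] [Group Z] (f : X →* Z) (Y : Subgroup X)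
    (h : upHG p c Y) : upHG p c (Y.map f) := by
  obtain ⟨g, hg, hY⟩ := h
  refine ⟨fun i => f (g i), fun i => ⟨g i, hg i, rfl⟩, ?_⟩
  refine (Subgroup.map_mono hY).trans ?_
  rw [Subgroup.map_sup, upPw_map, MonoidHom.map_closure, ← Set.range_comp]
  exact le_rfl

/-- The abelian case inside a group. -/
theorem upHG_ab' {p m c : ℕ} (hp : p.Coprime m) {Z : Type*} [Group Z] (B : Subgroup Z)
    (hB : ∀ a ∈ B, ∀ b ∈ B, a * b = b * a) (g : Fin c → Z) (hgB : ∀ i, g i ∈ B)
    (hg : ∀ b ∈ B, ∃ k : ℕ, b ^ (m ^ k) ∈ Subgroup.closure (Set.range g))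
    (Y : Subgroup Z) (hY : Y ≤ B) : upHG p c Y := by
  let _ : CommGroup B := { (inferInstance : Group B) with
    mul_comm := fun a b => Subtype.ext (hB a a.2 b b.2) }
  have h1 : upHG p c (Y.subgroupOf B) := by
    refine upHG_ab hp (fun i => (⟨g i, hgB i⟩ : B)) (Y.subgroupOf B) ?_
    intro b _
    obtain ⟨k, hk⟩ := hg b b.2
    refine ⟨k, ?_⟩
    have h2 : Subgroup.closure (Set.range g) =
        (Subgroup.closure (Set.range fun i => (⟨g i, hgB i⟩ : B))).map B.subtype := by
      rw [MonoidHom.map_closure, ← Set.range_comp]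
      rfl
    rw [h2] at hk
    obtain ⟨z, hz, hzb⟩ := hk
    have h3 : z = b ^ (m ^ k) := Subtype.ext hzb
    rwa [← h3]
  have h4 := upHG_map B.subtype _ h1
  rwa [Subgroup.subgroupOf_map_subtype, inf_eq_left.2 hY] at h4


/-- The bilinear step. -/
theorem up_bilin {Q : Type*} [Group Q] {m c c0 : ℕ} (X U Z : Subgroup Q) (hXU : X ≤ U)
    (hZX : Z ≤ X) (hZ : ∀ z ∈ Z, ∀ u ∈ U, z * u = u * z) (hXZ : ⁅X, U⁆ = Z)
    (g : Fin c → Q) (hgX : ∀ i, g i ∈ X)
    (hg : ∀ x ∈ X, ∃ k : ℕ, x ^ (m ^ k) ∈ Subgroup.closure (Set.range g) ⊔ Z)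
    (g0 : Fin c0 → Q) (hgU : ∀ i, g0 i ∈ U)
    (hg0 : ∀ u ∈ U, ∃ k : ℕ, u ^ (m ^ k) ∈ Subgroup.closure (Set.range g0) ⊔ ⁅U, U⁆) :
    ∀ z ∈ Z, ∃ k : ℕ, z ^ (m ^ k) ∈ Subgroup.closure
      (Set.range fun q : Fin (c * c0) =>
        ⁅g (finProdFinEquiv.symm q).1, g0 (finProdFinEquiv.symm q).2⁆) := by
  set E := Subgroup.closure (Set.range fun q : Fin (c * c0) =>
        ⁅g (finProdFinEquiv.symm q).1, g0 (finProdFinEquiv.symm q).2⁆) with hE
  have hcomm : ∀ x ∈ X, ∀ u ∈ U, ⁅x, u⁆ ∈ Z := fun x hx u hu => by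
    rw [← hXZ]
    exact Subgroup.commutator_mem_commutator hx hu
  -- roots of elements of `E`
  let T : Subgroup Q :=
    { carrier := {z | z ∈ Z ∧ ∃ k : ℕ, z ^ (m ^ k) ∈ E}
      mul_mem' := by
        rintro a b ⟨ha, k, hk⟩ ⟨hb, l, hl⟩
        refine ⟨mul_mem ha hb, k + l, ?_⟩
        have h1 : Commute a b := hZ a ha b (hXU (hZX hb))
        rw [h1.mul_pow, pow_add]
        refine mul_mem ?_ ?_
        · rw [pow_mul]
          exact pow_mem hk _
        · rw [mul_comm, pow_mul]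
          exact pow_mem hl _
      one_mem' := ⟨one_mem _, 0, by simp⟩
      inv_mem' := by
        rintro a ⟨ha, k, hk⟩
        refine ⟨inv_mem ha, k, ?_⟩
        rw [inv_pow]
        exact inv_mem hk }
  have hTZ : ∀ z ∈ T, z ∈ Z := fun z hz => hz.1
  have hroot : ∀ z ∈ Z, ∀ k : ℕ, z ^ (m ^ k) ∈ T → z ∈ T := by
    rintro z hz k ⟨-, l, hl⟩
    refine ⟨hz, k + l, ?_⟩
    rw [pow_add, pow_mul]
    exact hl
  let φ : U → (X →* Q) := fun u => MonoidHom.mk' (fun x => ⁅(x : Q), (u : Q)⁆) (by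
    intro x y
    have h1 : ⁅(x : Q) * y, (u : Q)⁆ = x * ⁅(y : Q), (u : Q)⁆ * (x : Q)⁻¹ * ⁅(x : Q), (u : Q)⁆ := by
      simp only [commutatorElement_def]
      group
    have h2 := hZ _ (hcomm y y.2 u u.2) x (hXU x.2)
    have h3 := hZ _ (hcomm y y.2 u u.2) ⁅(x : Q), (u : Q)⁆ (hXU (hZX (hcomm x x.2 u u.2)))
    rw [Subgroup.coe_mul, h1, ← h2, mul_assoc (⁅(y : Q), (u : Q)⁆), mul_inv_cancel, mul_one, h3])
  let ψ : X → (U →* Q) := fun x => MonoidHom.mk' (fun u => ⁅(x : Q), (u : Q)⁆) (by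
    intro u v
    have h1 : ⁅(x : Q), (u : Q) * v⁆ = ⁅(x : Q), (u : Q)⁆ * (u * ⁅(x : Q), (v : Q)⁆ * (u : Q)⁻¹) := by
      simp only [commutatorElement_def]
      group
    have h2 := hZ _ (hcomm x x.2 v v.2) u u.2
    rw [Subgroup.coe_mul, h1, ← h2, mul_assoc (⁅(x : Q), (v : Q)⁆), mul_inv_cancel, mul_one])
  have hφ : ∀ u x, φ u x = ⁅(x : Q), (u : Q)⁆ := fun u x => rfl
  have hψ : ∀ x u, ψ x u = ⁅(x : Q), (u : Q)⁆ := fun x u => rfl
  -- first variable
  have hB : ∀ (x : X) (j : Fin c0), ⁅(x : Q), g0 j⁆ ∈ T := by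
    intro x j
    let u : U := ⟨g0 j, hgU j⟩
    let B : Subgroup Q := (T.comap (φ u)).map X.subtype
    have h1 : Subgroup.closure (Set.range g) ⊔ Z ≤ B := by
      refine sup_le ?_ ?_
      · rw [Subgroup.closure_le]
        rintro _ ⟨i, rfl⟩
        refine ⟨⟨g i, hgX i⟩, ?_, rfl⟩
        rw [SetLike.mem_coe, Subgroup.mem_comap, hφ]
        refine ⟨hcomm _ (hgX i) _ (hgU j), 0, ?_⟩
        rw [pow_zero, pow_one]
        refine Subgroup.subset_closure ⟨finProdFinEquiv (i, j), ?_⟩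
        simp [u]
      · intro z hz
        refine ⟨⟨z, hZX hz⟩, ?_, rfl⟩
        rw [SetLike.mem_coe, Subgroup.mem_comap, hφ]
        have h2 : ⁅z, (u : Q)⁆ = 1 := by
          rw [commutatorElement_eq_one_iff_mul_comm]
          exact hZ z hz u u.2
        rw [h2]
        exact one_mem _
    obtain ⟨k, hk⟩ := hg x x.2
    obtain ⟨y, hy, hyx⟩ := h1 hk
    rw [SetLike.mem_coe, Subgroup.mem_comap] at hy
    have h3 : y = x ^ (m ^ k) := Subtype.ext hyx
    rw [h3, map_pow] at hy
    have h4 := hroot _ (hcomm x x.2 u u.2) k hy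
    exact h4
  -- second variable
  have hC : ∀ (x : X) (u : U), ⁅(x : Q), (u : Q)⁆ ∈ T := by
    intro x u
    let C : Subgroup Q := (T.comap (ψ x)).map U.subtype
    have h1 : Subgroup.closure (Set.range g0) ⊔ ⁅U, U⁆ ≤ C := by
      refine sup_le ?_ ?_
      · rw [Subgroup.closure_le]
        rintro _ ⟨i, rfl⟩
        exact ⟨⟨g0 i, hgU i⟩, hB x i, rfl⟩
      · rw [Subgroup.commutator_le]
        intro a ha b hb
        refine ⟨⁅(⟨a, ha⟩ : U), (⟨b, hb⟩ : U)⁆, ?_, ?_⟩
        · rw [SetLike.mem_coe, Subgroup.mem_comap, map_commutatorElement]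
          have h2 : ⁅ψ x ⟨a, ha⟩, ψ x ⟨b, hb⟩⁆ = 1 := by
            rw [commutatorElement_eq_one_iff_mul_comm]
            exact hZ _ (hcomm x x.2 a ha) _ (hXU (hZX (hcomm x x.2 b hb)))
          rw [h2]
          exact one_mem _
        · rw [map_commutatorElement]
          rfl
    obtain ⟨k, hk⟩ := hg0 u u.2
    obtain ⟨y, hy, hyx⟩ := h1 hk
    rw [SetLike.mem_coe, Subgroup.mem_comap] at hy
    have h3 : y = u ^ (m ^ k) := Subtype.ext hyx
    rw [h3, map_pow] at hy
    exact hroot _ (hcomm x x.2 u u.2) k hy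
  have hZT : Z ≤ T := by
    rw [← hXZ, Subgroup.commutator_le]
    intro x hx u hu
    exact hC ⟨x, hx⟩ ⟨u, hu⟩
  intro z hz
  exact (hZT hz).2

/-- `H / K` has a subgroup generated by `c` elements containing an `m ^ k`-th power of every
element. -/
def upQQ (m c : ℕ) {X : Type*} [Group X] (H K : Subgroup X) : Prop :=
  ∃ g : Fin c → X, (∀ i, g i ∈ H) ∧
    ∀ x ∈ H, ∃ k : ℕ, x ^ (m ^ k) ∈ Subgroup.closure (Set.range g) ⊔ K

theorem upQQ_step {G : Type*} [Group G] (U : Subgroup G) [U.Normal] {m c c0 : ℕ} (n : ℕ)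
    (h0 : upQQ m c0 U (U.lowerCentralSeries 1))
    (hn : upQQ m c (U.lowerCentralSeries n) (U.lowerCentralSeries (n + 1))) :
    upQQ m (c * c0) (U.lowerCentralSeries (n + 1)) (U.lowerCentralSeries (n + 2)) := by
  obtain ⟨g0, hgU, hg0⟩ := h0
  obtain ⟨g, hgX, hg⟩ := hn
  let π := QuotientGroup.mk' (U.lowerCentralSeries (n + 2))
  have hker : π.ker = U.lowerCentralSeries (n + 2) := QuotientGroup.ker_mk' _
  have hcl : ∀ {d : ℕ} (f : Fin d → G), (Subgroup.closure (Set.range f)).map π =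
      Subgroup.closure (Set.range fun i => π (f i)) := by
    intro d f
    rw [MonoidHom.map_closure, ← Set.range_comp]
    rfl
  refine ⟨fun q => ⁅g (finProdFinEquiv.symm q).1, g0 (finProdFinEquiv.symm q).2⁆, ?_, ?_⟩
  · intro i
    rw [Subgroup.lowerCentralSeries_succ]
    exact Subgroup.commutator_mem_commutator (hgX _) (hgU _)
  · intro z hz
    have key := up_bilin (m := m) ((U.lowerCentralSeries n).map π) (U.map π)
      ((U.lowerCentralSeries (n + 1)).map π)
      (Subgroup.map_mono (Subgroup.lowerCentralSeries_le_self U n))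
      (Subgroup.map_mono (Subgroup.lowerCentralSeries_antitone U (Nat.le_succ n)))
      (by
        rintro _ ⟨a, ha, rfl⟩ _ ⟨b, hb, rfl⟩
        rw [← commutatorElement_eq_one_iff_mul_comm, ← map_commutatorElement, ← MonoidHom.mem_ker,
          hker, Subgroup.lowerCentralSeries_succ]
        exact Subgroup.commutator_mem_commutator ha hb)
      (by rw [← Subgroup.map_commutator]; rfl)
      (fun i => π (g i)) (fun i => ⟨g i, hgX i, rfl⟩)
      (by
        rintro _ ⟨a, ha, rfl⟩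
        obtain ⟨k, hk⟩ := hg a ha
        refine ⟨k, ?_⟩
        rw [← map_pow, ← hcl, ← Subgroup.map_sup]
        exact Subgroup.mem_map_of_mem π hk)
      (fun i => π (g0 i)) (fun i => ⟨g0 i, hgU i, rfl⟩)
      (by
        rintro _ ⟨a, ha, rfl⟩
        obtain ⟨k, hk⟩ := hg0 a ha
        refine ⟨k, ?_⟩
        rw [← map_pow, ← hcl, ← Subgroup.map_commutator, ← Subgroup.map_sup]
        exact Subgroup.mem_map_of_mem π hk)
      (π z) ⟨z, hz, rfl⟩
    obtain ⟨k, hk⟩ := key
    refine ⟨k, ?_⟩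
    have h1 : z ^ (m ^ k) ∈ ((Subgroup.closure (Set.range fun q : Fin (c * c0) =>
        ⁅g (finProdFinEquiv.symm q).1, g0 (finProdFinEquiv.symm q).2⁆)).map π).comap π := by
      rw [Subgroup.mem_comap, hcl, map_pow]
      simpa only [map_commutatorElement] using hk
    rwa [Subgroup.comap_map_eq, hker] at h1

/-- One step of the filtration. -/
theorem upHG_step {p m c a : ℕ} (hp : p.Coprime m) {G : Type*} [Group G] (H K : Subgroup G)
    [K.Normal] (hHK : ⁅H, H⁆ ≤ K) (hQ : upQQ m c H K)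
    (hK : ∀ Y : Subgroup G, Y ≤ K → upHG p a Y) (Y : Subgroup G) (hY : Y ≤ H) :
    upHG p (a + c) Y := by
  let π := QuotientGroup.mk' K
  have hker : π.ker = K := QuotientGroup.ker_mk' _
  refine upHG_ext π Y (hK _ (by rw [hker]; exact inf_le_right)) ?_
  obtain ⟨g, hgH, hg⟩ := hQ
  refine upHG_ab' hp (H.map π) ?_ (fun i => π (g i)) (fun i => ⟨g i, hgH i, rfl⟩) ?_ _
    (Subgroup.map_mono hY)
  · rintro _ ⟨x, hx, rfl⟩ _ ⟨y, hy, rfl⟩
    rw [← commutatorElement_eq_one_iff_mul_comm, ← map_commutatorElement, ← MonoidHom.mem_ker,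
      hker]
    exact hHK (Subgroup.commutator_mem_commutator hx hy)
  · rintro _ ⟨x, hx, rfl⟩
    obtain ⟨k, hk⟩ := hg x hx
    refine ⟨k, ?_⟩
    have h1 := Subgroup.mem_map_of_mem π hk
    have h2 : K.map π = ⊥ := by
      rw [Subgroup.map_eq_bot_iff, hker]
    rw [Subgroup.map_sup, h2, sup_bot_eq, MonoidHom.map_closure, ← Set.range_comp, map_pow] at h1
    exact h1


/-- Finitely generated metabelian groups: uniform exponents. -/
theorem up_meta {Q : Type*} [Group Q] {c : ℕ} (S : Finset Q)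
    (hS : Subgroup.closure (S : Set Q) = ⊤)
    (hab : ∀ a ∈ commutator Q, ∀ b ∈ commutator Q, a * b = b * a)
    (g : Fin c → Q) (hg : ∀ i, g i ∈ commutator Q)
    (htor : ∀ z ∈ commutator Q, ∃ n : ℕ, n ≠ 0 ∧ z ^ n ∈ Subgroup.closure (Set.range g)) :
    ∃ m : ℕ, m ≠ 0 ∧ ∀ z ∈ commutator Q, ∃ k : ℕ, z ^ (m ^ k) ∈ Subgroup.closure (Set.range g) := by
  classical
  set B := Subgroup.closure (Set.range g) with hB
  have hBU : B ≤ commutator Q := by
    rw [hB, Subgroup.closure_le]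
    rintro _ ⟨i, rfl⟩
    exact hg i
  choose! N hN0 hN using htor
  let E0 : Finset Q := ((Finset.univ ×ˢ S).image fun q : Fin c × Q => q.2 * g q.1 * q.2⁻¹) ∪
    ((Finset.univ ×ˢ S).image fun q : Fin c × Q => q.2⁻¹ * g q.1 * q.2) ∪
    ((S ×ˢ S).image fun q : Q × Q => ⁅q.1, q.2⁆)
  have hnorm : (commutator Q).Normal := inferInstance
  have hE0 : ∀ x ∈ E0, x ∈ commutator Q := by
    intro x hx
    rw [Finset.mem_union, Finset.mem_union] at hx
    rcases hx with (hx | hx) | hx
    · obtain ⟨q, -, rfl⟩ := Finset.mem_image.1 hx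
      exact hnorm.conj_mem _ (hg _) _
    · obtain ⟨q, -, rfl⟩ := Finset.mem_image.1 hx
      have := hnorm.conj_mem _ (hg q.1) q.2⁻¹
      rwa [inv_inv] at this
    · obtain ⟨q, -, rfl⟩ := Finset.mem_image.1 hx
      exact Subgroup.commutator_mem_commutator (Subgroup.mem_top _) (Subgroup.mem_top _)
  let m := ∏ x ∈ E0, N x
  have hm : m ≠ 0 := Finset.prod_ne_zero_iff.2 fun x hx => hN0 x (hE0 x hx)
  have hE1 : ∀ x ∈ E0, x ^ m ∈ B := by
    intro x hx
    obtain ⟨d, hd⟩ := Finset.dvd_prod_of_mem N hx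
    change x ^ (∏ x ∈ E0, N x) ∈ B
    rw [hd, pow_mul]
    exact pow_mem (hN x (hE0 x hx)) d
  refine ⟨m, hm, ?_⟩
  let R : Subgroup Q :=
    { carrier := {z | z ∈ commutator Q ∧ ∃ k : ℕ, z ^ (m ^ k) ∈ B}
      mul_mem' := by
        rintro a b ⟨ha, k, hk⟩ ⟨hb, l, hl⟩
        refine ⟨mul_mem ha hb, k + l, ?_⟩
        have h1 : Commute a b := hab a ha b hb
        rw [h1.mul_pow, pow_add]
        refine mul_mem ?_ ?_
        · rw [pow_mul]
          exact pow_mem hk _
        · rw [mul_comm, pow_mul]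
          exact pow_mem hl _
      one_mem' := ⟨one_mem _, 0, by simp⟩
      inv_mem' := by
        rintro a ⟨ha, k, hk⟩
        refine ⟨inv_mem ha, k, ?_⟩
        rw [inv_pow]
        exact inv_mem hk }
  have hconj : ∀ v : Q, (∀ i, (v * g i * v⁻¹) ^ m ∈ B) → ∀ x ∈ R, v * x * v⁻¹ ∈ R := by
    intro v hv x hx
    have h1 : ∀ y ∈ B, (v * y * v⁻¹) ^ m ∈ B := by
      intro y hy
      induction hy using Subgroup.closure_induction with
      | mem y hy =>
        obtain ⟨i, rfl⟩ := hy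
        exact hv i
      | one => simp
      | mul a b ha hb iha ihb =>
        have h2 : v * (a * b) * v⁻¹ = (v * a * v⁻¹) * (v * b * v⁻¹) := by group
        have h3 : Commute (v * a * v⁻¹) (v * b * v⁻¹) :=
          hab _ (hnorm.conj_mem _ (hBU ha) v) _ (hnorm.conj_mem _ (hBU hb) v)
        rw [h2, h3.mul_pow]
        exact mul_mem iha ihb
      | inv a ha iha =>
        have h2 : v * a⁻¹ * v⁻¹ = (v * a * v⁻¹)⁻¹ := by group
        rw [h2, inv_pow]
        exact inv_mem iha
    obtain ⟨hx1, k, hk⟩ := hx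
    refine ⟨hnorm.conj_mem _ hx1 v, k + 1, ?_⟩
    rw [pow_succ, pow_mul, conj_pow]
    exact h1 _ hk
  have hconj2 : ∀ v : Q, (∀ x ∈ R, v * x * v⁻¹ ∈ R) ∧ (∀ x ∈ R, v⁻¹ * x * v ∈ R) := by
    intro v
    have hv : v ∈ Subgroup.closure (S : Set Q) := by
      rw [hS]
      exact Subgroup.mem_top v
    induction hv using Subgroup.closure_induction with
    | mem v hv =>
      constructor
      · refine hconj v fun i => hE1 _ ?_
        refine Finset.mem_union_left _ (Finset.mem_union_left _ (Finset.mem_image.2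
          ⟨(i, v), Finset.mem_product.2 ⟨Finset.mem_univ _, hv⟩, rfl⟩))
      · intro x hx
        have h1 := hconj v⁻¹ (fun i => hE1 _ ?_) x hx
        · rwa [inv_inv] at h1
        · rw [inv_inv]
          exact Finset.mem_union_left _ (Finset.mem_union_right _ (Finset.mem_image.2
            ⟨(i, v), Finset.mem_product.2 ⟨Finset.mem_univ _, hv⟩, rfl⟩))
    | one => simp
    | mul a b _ _ ha hb =>
      constructor
      · intro x hx
        have h1 := ha.1 _ (hb.1 x hx)
        have h2 : a * b * x * (a * b)⁻¹ = a * (b * x * b⁻¹) * a⁻¹ := by group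
        rwa [h2]
      · intro x hx
        have h1 := hb.2 _ (ha.2 x hx)
        have h2 : (a * b)⁻¹ * x * (a * b) = b⁻¹ * (a⁻¹ * x * a) * b := by group
        rwa [h2]
    | inv a _ ha =>
      constructor
      · intro x hx
        rw [inv_inv]
        exact ha.2 x hx
      · intro x hx
        rw [inv_inv]
        exact ha.1 x hx
  have h1 : ∀ s ∈ S, ∀ v : Q, ⁅s, v⁆ ∈ R := by
    intro s hs v
    have hv : v ∈ Subgroup.closure (S : Set Q) := by
      rw [hS]
      exact Subgroup.mem_top v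
    induction hv using Subgroup.closure_induction with
    | mem v hv =>
      refine ⟨Subgroup.commutator_mem_commutator (Subgroup.mem_top _) (Subgroup.mem_top _), 1, ?_⟩
      rw [pow_one]
      exact hE1 _ (Finset.mem_union_right _ (Finset.mem_image.2
        ⟨(s, v), Finset.mem_product.2 ⟨hs, hv⟩, rfl⟩))
    | one => simp
    | mul a b _ _ ha hb =>
      have h2 : ⁅s, a * b⁆ = ⁅s, a⁆ * (a * ⁅s, b⁆ * a⁻¹) := by
        simp only [commutatorElement_def]
        group
      rw [h2]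
      exact mul_mem ha ((hconj2 a).1 _ hb)
    | inv a _ ha =>
      have h2 : ⁅s, a⁻¹⁆ = a⁻¹ * ⁅s, a⁆⁻¹ * a := by
        simp only [commutatorElement_def]
        group
      rw [h2]
      exact (hconj2 a).2 _ (inv_mem ha)
  have h2 : ∀ u v : Q, ⁅u, v⁆ ∈ R := by
    intro u v
    have hu : u ∈ Subgroup.closure (S : Set Q) := by
      rw [hS]
      exact Subgroup.mem_top u
    induction hu using Subgroup.closure_induction with
    | mem s hs => exact h1 s hs v
    | one => simp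
    | mul a b _ _ ha hb =>
      have h2 : ⁅a * b, v⁆ = a * ⁅b, v⁆ * a⁻¹ * ⁅a, v⁆ := by
        simp only [commutatorElement_def]
        group
      rw [h2]
      exact mul_mem ((hconj2 a).1 _ hb) ha
    | inv a _ ha =>
      have h2 : ⁅a⁻¹, v⁆ = a⁻¹ * ⁅a, v⁆⁻¹ * a := by
        simp only [commutatorElement_def]
        group
      rw [h2]
      exact (hconj2 a).2 _ (inv_mem ha)
  have h3 : commutator Q ≤ R := by
    rw [commutator_def, Subgroup.commutator_le]
    intro a _ b _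
    exact h2 a b
  intro z hz
  exact (h3 hz).2

theorem up_base (G : Type*) [Group G] [Group.FG G]
    (hr : FinRk (Additive (Abelianization (commutator G)))) :
    ∃ m c : ℕ, m ≠ 0 ∧ upQQ m c (commutator G) ((commutator G).lowerCentralSeries 1) := by
  classical
  set U := commutator G with hU
  obtain ⟨F, hF⟩ := hr
  let c := F.card
  let g' : Fin c → U := fun i => Function.surjInv (QuotientGroup.mk_surjective (s := commutator U))
    (Additive.toMul (F.equivFin.symm i : Additive (Abelianization U)))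
  have hg' : ∀ i, Abelianization.of (g' i) =
      Additive.toMul (F.equivFin.symm i : Additive (Abelianization U)) := fun i =>
    Function.surjInv_eq (QuotientGroup.mk_surjective (s := commutator U)) _
  have hspan : ∀ b ∈ Submodule.span ℤ (F : Set (Additive (Abelianization U))),
      ∃ y ∈ Subgroup.closure (Set.range g'), Abelianization.of y = Additive.toMul b := by
    intro b hb
    induction hb using Submodule.span_induction with
    | mem x hx =>
      refine ⟨g' (F.equivFin ⟨x, hx⟩), Subgroup.subset_closure (Set.mem_range_self _), ?_⟩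
      rw [hg', Equiv.symm_apply_apply]
    | zero => exact ⟨1, one_mem _, by simp⟩
    | add x y _ _ hx hy =>
      obtain ⟨a, ha, hax⟩ := hx
      obtain ⟨b, hb, hby⟩ := hy
      exact ⟨a * b, mul_mem ha hb, by rw [map_mul, hax, hby, toMul_add]⟩
    | smul n x _ hx =>
      obtain ⟨a, ha, hax⟩ := hx
      exact ⟨a ^ n, zpow_mem ha n, by rw [map_zpow, hax, toMul_zsmul]⟩
  have htor' : ∀ x : U, ∃ n : ℕ, n ≠ 0 ∧
      x ^ n ∈ Subgroup.closure (Set.range g') ⊔ commutator U := by
    intro x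
    obtain ⟨n, hn, hnx⟩ := hF (Additive.ofMul (Abelianization.of x))
    have h1 : ((n.natAbs : ℕ) : ℤ) • Additive.ofMul (Abelianization.of x) ∈
        Submodule.span ℤ (F : Set (Additive (Abelianization U))) := by
      rcases Int.natAbs_eq n with h | h
      · rw [← h]
        exact hnx
      · have h2 : ((n.natAbs : ℕ) : ℤ) = -n := by
          rw [h]
          simp
        rw [h2, neg_smul]
        exact neg_mem hnx
    obtain ⟨y, hy, hyx⟩ := hspan _ h1
    refine ⟨n.natAbs, Int.natAbs_ne_zero.2 hn, ?_⟩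
    have h3 : Abelianization.of y = Abelianization.of (x ^ n.natAbs) := by
      rw [hyx, toMul_zsmul, toMul_ofMul, zpow_natCast, map_pow]
    have h4 : y⁻¹ * x ^ n.natAbs ∈ commutator U := QuotientGroup.eq.1 h3
    have h5 : x ^ n.natAbs = y * (y⁻¹ * x ^ n.natAbs) := by group
    rw [h5]
    exact mul_mem (Subgroup.mem_sup_left hy) (Subgroup.mem_sup_right h4)
  let g : Fin c → G := fun i => (g' i : G)
  have hcomU : (commutator U).map U.subtype = ⁅U, U⁆ := by
    rw [commutator_def, Subgroup.map_commutator, ← MonoidHom.range_eq_map, Subgroup.range_subtype]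
  have hclU : (Subgroup.closure (Set.range g')).map U.subtype = Subgroup.closure (Set.range g) := by
    rw [MonoidHom.map_closure, ← Set.range_comp]
    rfl
  have htor : ∀ x ∈ U, ∃ n : ℕ, n ≠ 0 ∧ x ^ n ∈ Subgroup.closure (Set.range g) ⊔ ⁅U, U⁆ := by
    intro x hx
    obtain ⟨n, hn, hnx⟩ := htor' ⟨x, hx⟩
    refine ⟨n, hn, ?_⟩
    have h1 := Subgroup.mem_map_of_mem U.subtype hnx
    rw [Subgroup.map_sup, hcomU, hclU] at h1
    exact h1
  -- pass to the quotient by `[U, U]`
  let π := QuotientGroup.mk' ⁅U, U⁆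
  have hπ : Function.Surjective π := QuotientGroup.mk'_surjective _
  have hker : π.ker = ⁅U, U⁆ := QuotientGroup.ker_mk' _
  obtain ⟨S, hS⟩ := (Group.FG.out : (⊤ : Subgroup G).FG)
  have hUQ : commutator (G ⧸ ⁅U, U⁆) = U.map π := by
    change ⁅(⊤ : Subgroup (G ⧸ ⁅U, U⁆)), ⊤⁆ = (⁅(⊤ : Subgroup G), ⊤⁆ : Subgroup G).map π
    rw [Subgroup.map_commutator, ← MonoidHom.range_eq_map, MonoidHom.range_eq_top.2 hπ]
  have hcl : (Subgroup.closure (Set.range g)).map π =
      Subgroup.closure (Set.range fun i => π (g i)) := by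
    rw [MonoidHom.map_closure, ← Set.range_comp]
    rfl
  obtain ⟨m, hm, hz⟩ := up_meta (S.image π) (by
      rw [Finset.coe_image, ← MonoidHom.map_closure, hS, ← MonoidHom.range_eq_map,
        MonoidHom.range_eq_top.2 hπ])
    (by
      rw [hUQ]
      rintro _ ⟨a, ha, rfl⟩ _ ⟨b, hb, rfl⟩
      rw [← commutatorElement_eq_one_iff_mul_comm, ← map_commutatorElement, ← MonoidHom.mem_ker,
        hker]
      exact Subgroup.commutator_mem_commutator ha hb)
    (fun i => π (g i)) (by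
      intro i
      rw [hUQ]
      exact ⟨g i, (g' i).2, rfl⟩)
    (by
      rw [hUQ]
      rintro _ ⟨x, hx, rfl⟩
      obtain ⟨n, hn, hnx⟩ := htor x hx
      refine ⟨n, hn, ?_⟩
      have h1 := Subgroup.mem_map_of_mem π hnx
      have h2 : (⁅U, U⁆ : Subgroup G).map π = ⊥ := by
        rw [Subgroup.map_eq_bot_iff, hker]
      rw [Subgroup.map_sup, h2, sup_bot_eq, hcl, map_pow] at h1
      exact h1)
  refine ⟨m, c, hm, g, fun i => (g' i).2, ?_⟩
  intro x hx
  obtain ⟨k, hk⟩ := hz (π x) (by rw [hUQ]; exact ⟨x, hx, rfl⟩)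
  refine ⟨k, ?_⟩
  have h1 : x ^ (m ^ k) ∈ ((Subgroup.closure (Set.range g)).map π).comap π := by
    rw [Subgroup.mem_comap, hcl, map_pow]
    exact hk
  rw [Subgroup.comap_map_eq, hker] at h1
  exact h1

/-- If `G` is finitely generated, its commutator subgroup is nilpotent and the abelianization of
the commutator subgroup has finite rank, then for almost all primes `p` all subgroups `N` of `G`
satisfy `d_p(N) ≤ C` with one constant `C`. -/
theorem upper (G : Type*) [Group G] [Group.FG G] (hn : Group.IsNilpotent (commutator G))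
    (hr : FinRk (Additive (Abelianization (commutator G)))) :
    ∃ (C : ℕ) (S : Finset ℕ), ∀ p : ℕ, p.Prime → p ∉ S → ∀ N : Subgroup G, dp p N ≤ C := by
  classical
  obtain ⟨m, c, hm, h0⟩ := up_base G hr
  have hQQ : ∀ n, upQQ m (c ^ (n + 1)) ((commutator G).lowerCentralSeries n)
      ((commutator G).lowerCentralSeries (n + 1)) := by
    intro n
    induction n with
    | zero =>
      rw [zero_add, pow_one]
      exact h0
    | succ n ih => exact upQQ_step (commutator G) n h0 ih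
  obtain ⟨n, hn'⟩ := (Subgroup.isNilpotent_iff_lowerCentralSeries _).1 hn
  have hP : ∃ C : ℕ, ∀ p : ℕ, p.Coprime m → ∀ Y : Subgroup G,
      Y ≤ (commutator G).lowerCentralSeries 0 → upHG p C Y := by
    refine Nat.decreasingInduction (motive := fun i _ => ∃ C : ℕ, ∀ p : ℕ, p.Coprime m →
      ∀ Y : Subgroup G, Y ≤ (commutator G).lowerCentralSeries i → upHG p C Y) ?_ ?_ (Nat.zero_le n)
    · rintro i - ⟨C, hC⟩
      refine ⟨C + c ^ (i + 1), fun p hp Y hY => ?_⟩
      refine upHG_step hp _ ((commutator G).lowerCentralSeries (i + 1)) ?_ (hQQ i) (hC p hp) Y hY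
      exact Subgroup.commutator_mono le_rfl (Subgroup.lowerCentralSeries_le_self _ i)
    · refine ⟨0, fun p _ Y hY => ⟨Fin.elim0, fun i => i.elim0, ?_⟩⟩
      rw [hn'] at hY
      exact hY.trans bot_le
  obtain ⟨C, hC⟩ := hP
  obtain ⟨S, hS⟩ := (Group.FG.out : (⊤ : Subgroup G).FG)
  refine ⟨C + S.card, m.primeFactors, fun p hp hpm N => ?_⟩
  have hcop : p.Coprime m := by
    rw [Nat.Prime.coprime_iff_not_dvd hp]
    intro h
    exact hpm (Nat.mem_primeFactors.2 ⟨hp, h, hm⟩)
  refine upHG_dp (upHG_step (m := m) hcop ⊤ (commutator G) le_rfl ?_ (hC p hcop) N le_top)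
  refine ⟨fun i => (S.equivFin.symm i : G), fun i => Subgroup.mem_top _, ?_⟩
  intro x _
  refine ⟨0, Subgroup.mem_sup_left ?_⟩
  have h1 : Set.range (fun i => (S.equivFin.symm i : G)) = (S : Set G) := by
    ext y
    constructor
    · rintro ⟨i, rfl⟩
      exact (S.equivFin.symm i).2
    · intro hy
      exact ⟨S.equivFin ⟨y, hy⟩, by simp⟩
  rw [h1, hS]
  exact Subgroup.mem_top _

end Pool.Agent.W_MP_6f8a18_al
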