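import Pool.Agent.W_MP_6f8a18_al.Final
import Pool.Agent.W_MP_6f8a18_al.Upper
import Pool.Agent.W_MP_6f8a18_al.Malcev
import Pool.Agent.W_MP_6f8a18_al.Eigen

/-!
The dichotomy for finitely generated virtually solvable linear groups.
-/

namespace Pool.Agent.W_MP_6f8a18_al

universe u v

/-- If some subgroup `H` of finite index of a finitely generated group has nilpotent commutator
subgroup `H'` with `H'/H''` of finite rank, then the lower normal limits of `d_p` are uniformly
bounded for almost all primes. -/
theorem NL_le (Γ : Type u) [Group Γ] [Group.FG Γ] (H : Subgroup Γ) (hH : H.FiniteIndex)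
    (hn : Group.IsNilpotent (commutator H)) (hr : FinRk (Kab H)) :
    ∃ (C : ℕ) (S : Finset ℕ), ∀ p : ℕ, p.Prime → p ∉ S → NL p Γ ≤ C := by
  have hfg : Group.FG H := inferInstance
  obtain ⟨C, S, hC⟩ := upper H hn hr
  refine ⟨C, S, fun p hp hpS => ?_⟩
  refine iSup_le fun M => ?_
  obtain ⟨M, hM, hMf⟩ := M
  let N : {N : Subgroup Γ // N.Normal ∧ N.FiniteIndex ∧ N ≤ M} :=
    ⟨M ⊓ H.normalCore, inferInstance, inferInstance, inf_le_left⟩
  refine (iInf_le _ N).trans ?_
  have hNH : M ⊓ H.normalCore ≤ H := inf_le_right.trans (Subgroup.normalCore_le _)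
  exact (dp_le_of_surjective p (Subgroup.subgroupOfEquivOfLe hNH).toMonoidHom
    (Subgroup.subgroupOfEquivOfLe hNH).surjective).trans
    (hC p hp hpS ((M ⊓ H.normalCore).subgroupOf H))

/-- Mal'cev: a virtually solvable linear group over an algebraically closed field has a subgroup
of finite index whose commutator subgroup is nilpotent. -/
theorem malcev (K : Type u) [Field K] [IsAlgClosed K] (n : ℕ) (G : Subgroup (GL (Fin n) K))
    (hG : Group.IsSolvable G) :
    ∃ H : Subgroup G, H.FiniteIndex ∧ Group.IsNilpotent (commutator H) := by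
  refine malcev_of_eigenvector K n G fun V _ _ _ _ H ρ => ?_
  have : Group.IsSolvable H := inferInstance
  exact exists_eigenvector K V H this ρ

theorem nilpotent_commutator_of_injective {A : Type u} {B : Type v} [Group A] [Group B]
    (f : A →* B) (hf : Function.Injective f) (hB : Group.IsNilpotent (commutator B)) :
    Group.IsNilpotent (commutator A) := by
  have hle : commutator A ≤ (commutator B).comap f := by
    rw [commutator_def, Subgroup.commutator_le]
    intro a _ b _
    rw [Subgroup.mem_comap, map_commutatorElement]
    exact Subgroup.commutator_mem_commutator (Subgroup.mem_top _) (Subgroup.mem_top _)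
  let g : commutator A →* commutator B :=
    (f.comp (commutator A).subtype).codRestrict _ fun x => hle x.2
  have hg : Function.Injective g := by
    intro x y hxy
    exact Subtype.ext (hf (congrArg Subtype.val hxy))
  exact Subgroup.isNilpotent_of_ker_le_center g (((MonoidHom.ker_eq_bot_iff g).2 hg).le.trans
    bot_le)

/-- Every virtually solvable linear group has a subgroup of finite index whose commutator
subgroup is nilpotent. -/
theorem malcev_virtual (K : Type u) [Field K] (n : ℕ) (Γ : Type v) [Group Γ]
    (f : Γ →* GL (Fin n) K) (hf : Function.Injective f) (H : Subgroup Γ) (hH : H.FiniteIndex)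
    (hs : Group.IsSolvable H) :
    ∃ H' : Subgroup Γ, H'.FiniteIndex ∧ Group.IsNilpotent (commutator H') := by
  let K' := AlgebraicClosure K
  let f' : H →* GL (Fin n) K' :=
    ((Matrix.GeneralLinearGroup.map (algebraMap K K')).comp f).comp H.subtype
  have hf' : Function.Injective f' := by
    intro x y hxy
    have h1 : (Matrix.GeneralLinearGroup.map (algebraMap K K')) (f x) =
        (Matrix.GeneralLinearGroup.map (algebraMap K K')) (f y) := hxy
    have h2 : f x = f y := by
      ext i j
      have h3 : algebraMap K K' ((f x).val i j) = algebraMap K K' ((f y).val i j) := by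
        have h4 := congrArg (fun z : GL (Fin n) K' => z.val i j) h1
        simpa using h4
      exact (algebraMap K K').injective h3
    exact Subtype.ext (hf h2)
  let e : H ≃* f'.range := MonoidHom.ofInjective hf'
  have hs' : Group.IsSolvable f'.range := Group.isSolvable_of_surjective e.surjective
  obtain ⟨H₁, hH₁, hn⟩ := malcev K' n f'.range hs'
  refine ⟨(H₁.comap e.toMonoidHom).map H.subtype, ?_, ?_⟩
  · have h1 : (H₁.comap e.toMonoidHom).FiniteIndex := by
      refine ⟨?_⟩
      have h2 := Subgroup.index_comap_of_surjective H₁ (f := e.toMonoidHom) e.surjective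
      rw [h2]
      exact hH₁.index_ne_zero
    refine ⟨?_⟩
    rw [Subgroup.index_map_subtype]
    exact mul_ne_zero h1.index_ne_zero hH.index_ne_zero
  · let g : H₁.comap e.toMonoidHom →* H₁ :=
      (e.toMonoidHom.comp (H₁.comap e.toMonoidHom).subtype).codRestrict _ fun x => x.2
    have hg : Function.Injective g := by
      intro x y hxy
      exact Subtype.ext (e.injective (congrArg Subtype.val hxy))
    let e2 := (H₁.comap e.toMonoidHom).equivMapOfInjective H.subtype Subtype.val_injective
    exact nilpotent_commutator_of_injective (g.comp e2.symm.toMonoidHom)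
      (hg.comp e2.symm.injective) hn

/-- The alternative of Q1 for a finitely generated group with a subgroup of finite index whose
commutator subgroup is nilpotent. -/
theorem dichotomy (Γ : Type v) [Group Γ] [Group.FG Γ] (H : Subgroup Γ) (hH : H.FiniteIndex)
    (hn : Group.IsNilpotent (commutator H)) :
    (∃ S : Finset ℕ, ∀ p : ℕ, p.Prime → p ∉ S → NL p Γ = ⊤) ∨
    ∃ (C : ℕ) (S : Finset ℕ), ∀ p : ℕ, p.Prime → p ∉ S → NL p Γ ≤ C := by
  by_cases hr : FinRk (Kab H)
  · exact Or.inr (NL_le Γ H hH hn hr)
  · exact Or.inl (NL_eq_top Γ H hH hr)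

end Pool.Agent.W_MP_6f8a18_al
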